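import Pool.Agent.Helper25_RM.Defs

/-!
# `COH` and arithmetic induction
-/

set_option autoImplicit false

namespace Pool.Agent.Helper25_RM

/-- `COH`: for every sequence `R_0, R_1, …` of sets (coded by the set `R`) there is an infinite set
`C` such that for each `i` the set `C \ R_i` is finite (all large elements of `C` are in `R_i`) or
the set `C ∩ R_i` is finite (all large elements of `C` are outside `R_i`). -/
def COH (N : L2Model) : Prop :=
  ∀ R ∈ N.S, ∃ C ∈ N.S, (∀ a, ∃ b, N.lt a b ∧ b ∈ C) ∧
    ∀ i, (∃ a, ∀ b ∈ C, N.lt a b → b ∈ sec N R i) ∨ (∃ a, ∀ b ∈ C, N.lt a b → b ∉ sec N R i)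

/-- Arithmetical formulas of second-order arithmetic: built from `s = t`, `s < t`, `t ∈ X_i` by
negation, conjunction and universal number quantifiers. -/
inductive AFm
  | eq (s t : Tm)
  | lt (s t : Tm)
  | mem (t : Tm) (i : ℕ)
  | neg (φ : AFm)
  | and (φ ψ : AFm)
  | all (i : ℕ) (φ : AFm)

/-- Truth of an arithmetical formula in `N` under the assignment `v` of the number variables and
`V` of the set variables. -/
def AFm.Sat (N : L2Model) : AFm → (ℕ → N.M) → (ℕ → Set N.M) → Prop
  | AFm.eq s t, v, _ => s.eval N v = t.eval N v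
  | AFm.lt s t, v, _ => N.lt (s.eval N v) (t.eval N v)
  | AFm.mem t i, v, V => t.eval N v ∈ V i
  | AFm.neg φ, v, V => ¬ φ.Sat N v V
  | AFm.and φ ψ, v, V => φ.Sat N v V ∧ ψ.Sat N v V
  | AFm.all i φ, v, V => ∀ a, φ.Sat N (Function.update v i a) V

/-- Arithmetic induction: the induction scheme for all arithmetical formulas (in the variable
`x₀`, with arbitrary number and set parameters). -/
def ArithInduction (N : L2Model) : Prop :=
  ∀ (φ : AFm) (v : ℕ → N.M) (V : ℕ → Set N.M), (∀ i, V i ∈ N.S) →
    φ.Sat N (Function.update v 0 N.zero) V →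
    (∀ a, φ.Sat N (Function.update v 0 a) V → φ.Sat N (Function.update v 0 (N.add a N.one)) V) →
    ∀ a, φ.Sat N (Function.update v 0 a) V

end Pool.Agent.Helper25_RM
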