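import Pool.Agent.Helper25_RM.Complete
import Pool.Agent.Helper25_RM.DefsB

/-!
# `COH` and arithmetic induction fail in the model
-/

set_option autoImplicit false

namespace Pool.Agent.Helper25_RM

open Filter

theorem flipst_fst_le (V : Set ℕ) (n s : ℕ) : (flipst V n s).1 ≤ s := by
  induction s with
  | zero => exact le_rfl
  | succ s ih =>
    unfold flipst
    split_ifs
    · exact le_rfl
    · omega

theorem flipst_succ_pos {V : Set ℕ} {n s : ℕ} (h : ∃ x, (flipst V n s).1 ≤ x ∧ x ≤ s ∧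
    ∃ s' ≤ s, loc (Nat.unpair n).1 x (Nat.unpair n).2 s' ∈ V) :
    flipst V n (s + 1) = (s + 1, !(flipst V n s).2) := by
  conv_lhs => unfold flipst
  rw [if_pos h]

theorem flipst_succ_neg {V : Set ℕ} {n s : ℕ} (h : ¬ ∃ x, (flipst V n s).1 ≤ x ∧ x ≤ s ∧
    ∃ s' ≤ s, loc (Nat.unpair n).1 x (Nat.unpair n).2 s' ∈ V) :
    flipst V n (s + 1) = flipst V n s := by
  conv_lhs => unfold flipst
  rw [if_neg h]

/-- the first change of block after `a` -/
theorem flip_next (V : Set ℕ) (n a x s' : ℕ) (hx : a ≤ x)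
    (hs : loc (Nat.unpair n).1 x (Nat.unpair n).2 s' ∈ V) :
    ∃ b, a < b ∧ b ≤ max x s' + 1 ∧ (flipst V n b).1 = b ∧
      (flipst V n b).2 = (!(flipst V n a).2) ∧
      ∃ y, (flipst V n a).1 ≤ y ∧ y < b ∧
        (∃ s'' < b, loc (Nat.unpair n).1 y (Nat.unpair n).2 s'' ∈ V) ∧
        ∀ w, a ≤ w → w < b → flipst V n w = flipst V n a := by
  have hex : ∃ b, a ≤ b ∧ ∃ y, (flipst V n b).1 ≤ y ∧ y ≤ b ∧ ∃ s'' ≤ b,
      loc (Nat.unpair n).1 y (Nat.unpair n).2 s'' ∈ V := by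
    by_contra hc
    push Not at hc
    have hst : ∀ d, flipst V n (a + d) = flipst V n a := by
      intro d
      induction d with
      | zero => rfl
      | succ d ih =>
        rw [show a + (d + 1) = a + d + 1 by omega, flipst_succ_neg, ih]
        rintro ⟨y, h1, h2, s'', h3, h4⟩
        exact hc (a + d) (by omega) y h1 h2 s'' h3 h4
    obtain ⟨d, hd⟩ := Nat.exists_eq_add_of_le (hx.trans (le_max_left x s'))
    refine hc (max x s') (by omega) x ?_ (le_max_left _ _) s' (le_max_right _ _) hs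
    rw [hd, hst d]
    exact (flipst_fst_le V n a).trans hx
  classical
  set b := Nat.find hex with hb
  obtain ⟨hab, y, h1, h2, s'', h3, h4⟩ := Nat.find_spec hex
  rw [← hb] at hab h1 h2 h3
  have hmin : ∀ c, a ≤ c → c < b → ¬ ∃ y, (flipst V n c).1 ≤ y ∧ y ≤ c ∧ ∃ s'' ≤ c,
      loc (Nat.unpair n).1 y (Nat.unpair n).2 s'' ∈ V := by
    intro c hc hcb h
    exact Nat.find_min hex hcb ⟨hc, h⟩
  have hst : ∀ d, a + d ≤ b → flipst V n (a + d) = flipst V n a := by
    intro d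
    induction d with
    | zero => intro _; rfl
    | succ d ih =>
      intro hd
      rw [show a + (d + 1) = a + d + 1 by omega,
        flipst_succ_neg (hmin (a + d) (by omega) (by omega)), ih (by omega)]
  have hstb : flipst V n b = flipst V n a := by
    obtain ⟨d, hd⟩ := Nat.exists_eq_add_of_le hab
    rw [hd]; exact hst d (by omega)
  have hbb : flipst V n (b + 1) = (b + 1, !(flipst V n b).2) :=
    flipst_succ_pos ⟨y, h1, h2, s'', h3, h4⟩
  refine ⟨b + 1, by omega, ?_, by rw [hbb], by rw [hbb, hstb], y, ?_, by omega,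
    ⟨s'', by omega, h4⟩, ?_⟩
  · have : b ≤ max x s' := by
      by_contra hc
      obtain ⟨d, hd⟩ := Nat.exists_eq_add_of_le (hx.trans (le_max_left x s'))
      refine hmin (max x s') (by omega) (by omega) ⟨x, ?_, le_max_left _ _, s',
        le_max_right _ _, hs⟩
      rw [hd, hst d (by omega)]
      exact (flipst_fst_le V n a).trans hx
    omega
  · rw [← hstb]; exact h1
  · intro w hw1 hw2
    obtain ⟨d, hd⟩ := Nat.exists_eq_add_of_le hw1
    rw [hd]; exact hst d (by omega)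

/-- elements of both parities -/
theorem flip_main (V : Set ℕ) (n m x1 s1 x2 s2 x3 s3 : ℕ) (h1 : m ≤ x1)
    (h2 : max x1 s1 + 1 ≤ x2) (h3 : max x2 s2 + 1 ≤ x3)
    (g1 : loc (Nat.unpair n).1 x1 (Nat.unpair n).2 s1 ∈ V)
    (g2 : loc (Nat.unpair n).1 x2 (Nat.unpair n).2 s2 ∈ V)
    (g3 : loc (Nat.unpair n).1 x3 (Nat.unpair n).2 s3 ∈ V) (par : Bool) :
    ∃ y, m < y ∧ y ≤ max x3 s3 + 1 ∧ (∃ s, loc (Nat.unpair n).1 y (Nat.unpair n).2 s ∈ V) ∧
      (flipst V n y).2 = par := by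
  obtain ⟨b1, a1, a2, a3, -⟩ := flip_next V n m x1 s1 h1 g1
  obtain ⟨b2, c1, c2, c3, c4, y, c5, c6, ⟨t1, _, c7⟩, c8⟩ :=
    flip_next V n b1 x2 s2 (by omega) g2
  obtain ⟨b3, d1, d2, d3, d4, y', d5, d6, ⟨t2, _, d7⟩, d8⟩ :=
    flip_next V n b2 x3 s3 (by omega) g3
  rw [a3] at c5
  rw [c3] at d5
  by_cases hp : (flipst V n b1).2 = par
  · refine ⟨y, by omega, by omega, ⟨t1, c7⟩, ?_⟩
    rw [c8 y c5 c6]; exact hp
  · refine ⟨y', by omega, by omega, ⟨t2, d7⟩, ?_⟩
    rw [d8 y' d5 d6, c4]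
    cases hq : (flipst V n b1).2 <;> cases par <;> simp_all

theorem nn_not_coh : ¬ COH NN := by
  intro hC
  obtain ⟨t0, u0, hB, hB'⟩ := rep_BB
  obtain ⟨fp, hfp⟩ := exists_Lf (FIdx.coh true)
  obtain ⟨fn, hfn⟩ := exists_Lf (FIdx.coh false)
  obtain ⟨Z, t', u', q', hZ, hZ'⟩ := dec_lemma cohDF fp fn hfp hfn hB hB (bdd_const 0)
  obtain ⟨C, ⟨t, u, p, q, hR⟩, hinf, hcoh⟩ := hC Z ⟨t', u', q', q', hZ⟩
  -- elements of `C` with witnesses
  have hel : ∀ a : Mo, ∃ x s : ℕ → ℕ, Bdd x ∧ Bdd s ∧ ∀ᶠ i in (U : Filter ℕ),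
      rep a i < x i ∧ loc t (x i) (p i) (s i) ∈ BB i := by
    intro a
    obtain ⟨b, hb, hbC⟩ := hinf a
    have hbC' := Set.ext_iff.1 hR.pos b |>.1 hbC
    obtain ⟨j1, hj1⟩ := rep_bdd b
    obtain ⟨j0, hj0⟩ := elem_ev t p hR.bp
    have h1 : ∀ᶠ i in (U : Filter ℕ), ∃ s, s ≤ CC i (max j0 j1 + 1) ∧
        PP t (rep b i) (p i) s (tr (BB i) s) := by
      filter_upwards [mem_st.1 hbC', hj1, hj0 (max j0 j1) (le_max_left _ _)] with i g1 g2 g3
      exact g3 _ (g2.trans (CC_mono (le_max_right _ _))) g1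
    obtain ⟨s, hs⟩ := skolem.1 h1
    refine ⟨rep b, s, rep_bdd b, ⟨max j0 j1 + 1, by filter_upwards [hs] with i hi using hi.1⟩, ?_⟩
    filter_upwards [lt_iff.1 hb, hs] with i g1 g2
    exact ⟨g1, ((good i).code _ _ _ _).2 g2.2⟩
  have hpar : ∀ (a : Mo) (par : Bool), ∃ y : Mo, NN.lt a y ∧ y ∈ C ∧ ∀ᶠ i in (U : Filter ℕ),
      (flipst (BB i) (Nat.pair t (p i)) (rep y i)).2 = par := by
    intro a par
    obtain ⟨x1, s1, hx1, hs1, h1⟩ := hel a
    obtain ⟨x2, s2, hx2, hs2, h2⟩ := hel (mk (fun i => max (x1 i) (s1 i)) (hx1.max hs1))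
    obtain ⟨x3, s3, hx3, hs3, h3⟩ := hel (mk (fun i => max (x2 i) (s2 i)) (hx2.max hs2))
    have h4 : ∀ᶠ i in (U : Filter ℕ), ∃ y, rep a i < y ∧ y ≤ max (x3 i) (s3 i) + 1 ∧
        (∃ s, loc t y (p i) s ∈ BB i) ∧ (flipst (BB i) (Nat.pair t (p i)) y).2 = par := by
      filter_upwards [h1, h2, h3, rep_mk (fun i => max (x1 i) (s1 i)) (hx1.max hs1),
        rep_mk (fun i => max (x2 i) (s2 i)) (hx2.max hs2)] with i g1 g2 g3 g4 g5
      rw [g4] at g2
      rw [g5] at g3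
      have := flip_main (BB i) (Nat.pair t (p i)) (rep a i) (x1 i) (s1 i) (x2 i) (s2 i) (x3 i)
        (s3 i) g1.1.le (by omega) (by omega) (by simpa using g1.2) (by simpa using g2.2)
        (by simpa using g3.2) par
      simpa using this
    obtain ⟨y, hy⟩ := skolem.1 h4
    have hyb : Bdd y := ((hx3.max hs3).add (bdd_const 1)).mono
      (by filter_upwards [hy] with i hi using hi.2.1)
    refine ⟨mk y hyb, ?_, ?_, ?_⟩
    · show ∀ᶠ i in (U : Filter ℕ), _
      filter_upwards [hy, rep_mk y hyb] with i g1 g2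
      rw [g2]; exact g1.1
    · refine (Set.ext_iff.1 hR.pos _).2 (mk_mem_st.2 ?_)
      filter_upwards [hy] with i g1
      obtain ⟨s, hs⟩ := g1.2.2.1
      exact ⟨s, ((good i).code _ _ _ _).1 hs⟩
    · filter_upwards [hy, rep_mk y hyb] with i g1 g2
      rw [g2]; exact g1.2.2.2
  have hnb : Bdd (fun i => Nat.pair t (p i)) := (bdd_const t).pair hR.bp
  have hsec : ∀ y : Mo, y ∈ sec NN Z (mk _ hnb) ↔ ∀ᶠ i in (U : Filter ℕ),
      (flipst (BB i) (Nat.pair t (p i)) (rep y i)).2 = true := by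
    intro y
    show pair NN y (mk _ hnb) ∈ Z ↔ _
    rw [pair_eq_mk, hZ']
    constructor
    · intro h
      filter_upwards [h, rep_mk _ hnb] with i g1 g2
      obtain ⟨z, n, g3, g4⟩ := g1
      obtain ⟨g5, g6⟩ := pr_inj g3
      rw [hB', ← g5, ← g6, g2] at g4
      exact g4
    · intro h
      filter_upwards [h, rep_mk _ hnb] with i g1 g2
      refine ⟨_, _, rfl, ?_⟩
      rw [hB', g2]
      exact g1
  rcases hcoh (mk _ hnb) with ⟨a, ha⟩ | ⟨a, ha⟩
  · obtain ⟨y, hy1, hy2, hy3⟩ := hpar a false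
    have := (hsec y).1 (ha y hy2 hy1)
    apply ev_false
    filter_upwards [this, hy3] with i g1 g2
    rw [g1] at g2
    exact absurd g2 (by simp)
  · obtain ⟨y, hy1, hy2, hy3⟩ := hpar a true
    exact ha y hy2 hy1 ((hsec y).2 hy3)

theorem col_le {i r z : ℕ} (h : 2 * pr r z ∈ BB i) : z ≤ EE i r := by
  classical
  have h1 := (good i).cc_eq r (CC i (r + 1) + z + 1) (by omega)
  rw [← h1]
  unfold cc
  exact Nat.le_findGreatest (by omega) h

theorem EE_mem {i r : ℕ} (hi : 1 ≤ i) : 2 * pr r (EE i r) ∈ BB i := by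
  classical
  have h1 := (good i).cc_eq r (CC i (r + 1)) le_rfl
  have h2 : 0 < EE i r := by
    have h3 := (good i).e_le r
    have h4 := (good i).base
    have h5 : CC i 0 ≤ CC i r := CC_mono (Nat.zero_le r)
    omega
  rw [← h1] at h2 ⊢
  unfold cc at h2 ⊢
  exact Nat.findGreatest_of_ne_zero (P := fun z => 2 * pr r z ∈ BB i) rfl h2.ne'

/-- the formula `∃ m, ∀ r < x₀, ∀ z, ((r, z) ∈ column → z < m)` -/
def chi : AFm := AFm.neg (AFm.all 1 (AFm.neg (AFm.all 2 (AFm.neg (AFm.and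
  (AFm.lt (Tm.var 2) (Tm.var 0)) (AFm.neg (AFm.all 3 (AFm.neg (AFm.and
    (AFm.mem (Tm.mul (Tm.add Tm.one Tm.one) (prT (Tm.var 2) (Tm.var 3))) 0)
    (AFm.neg (AFm.lt (Tm.var 3) (Tm.var 1))))))))))))

theorem chi_iff (a : Mo) : chi.Sat NN (Function.update (fun _ => NN.zero) 0 a) (fun _ => st BB) ↔
    ∃ m : Mo, ∀ r : Mo, NN.lt r a → ∀ z : Mo,
      NN.mul (NN.add NN.one NN.one) (pair NN r z) ∈ st BB → NN.lt z m := by
  simp only [chi, AFm.Sat, Tm.eval, prT, pair, Function.update_self,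
    Function.update_of_ne (show (0 : ℕ) ≠ 1 by norm_num),
    Function.update_of_ne (show (0 : ℕ) ≠ 2 by norm_num),
    Function.update_of_ne (show (1 : ℕ) ≠ 2 by norm_num),
    Function.update_of_ne (show (1 : ℕ) ≠ 3 by norm_num),
    Function.update_of_ne (show (2 : ℕ) ≠ 3 by norm_num)]
  push Not
  rfl

theorem col_iff (r z : Mo) : NN.mul (NN.add NN.one NN.one) (pair NN r z) ∈ st BB ↔
    ∀ᶠ i in (U : Filter ℕ), 2 * pr (rep r i) (rep z i) ∈ BB i := by
  have h : ∀ᶠ i in (U : Filter ℕ), rep (NN.mul (NN.add NN.one NN.one) (pair NN r z)) i =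
      2 * pr (rep r i) (rep z i) := by
    filter_upwards [rep_mul (NN.add NN.one NN.one) (pair NN r z), rep_add NN.one NN.one, rep_one,
      rep_pair r z] with i h1 h2 h3 h4
    rw [h1, h2, h3, h4]
  rw [mem_st]
  constructor
  · intro h'
    filter_upwards [h, h'] with i g1 g2
    rwa [g1] at g2
  · intro h'
    filter_upwards [h, h'] with i g1 g2
    rwa [g1]

theorem chi_std (a : Mo) : (∃ m : Mo, ∀ r : Mo, NN.lt r a → ∀ z : Mo,
      NN.mul (NN.add NN.one NN.one) (pair NN r z) ∈ st BB → NN.lt z m) ↔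
    ∃ k, ∀ᶠ i in (U : Filter ℕ), rep a i ≤ k := by
  constructor
  · rintro ⟨m, hm⟩
    obtain ⟨k, hk⟩ := cofinal m
    refine ⟨k, ?_⟩
    by_contra hc
    rw [ev_not] at hc
    have h1 := hm (mk (fun _ => k) (bdd_const k)) (by
      show ∀ᶠ i in (U : Filter ℕ), _
      filter_upwards [hc, rep_mk (fun _ => k) (bdd_const k)] with i g1 g2
      rw [g2]; omega) (mk (fun i => EE i k) (bdd_EE k)) (by
      rw [col_iff]
      filter_upwards [rep_mk (fun _ => k) (bdd_const k), rep_mk (fun i => EE i k) (bdd_EE k),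
        ev_ge 1] with i g1 g2 g3
      rw [g1, g2]
      exact EE_mem g3)
    apply ev_false
    filter_upwards [lt_iff.1 h1, lt_iff.1 hk] with i g1 g2
    omega
  · rintro ⟨k, hk⟩
    refine ⟨mk (fun i => EE i k + 1) ((bdd_EE k).add (bdd_const 1)), fun r hr z hz => ?_⟩
    rw [col_iff] at hz
    show ∀ᶠ i in (U : Filter ℕ), _
    filter_upwards [hk, lt_iff.1 hr, hz, rep_mk (fun i => EE i k + 1)
      ((bdd_EE k).add (bdd_const 1))] with i g1 g2 g3 g4
    rw [g4]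
    have h1 := col_le g3
    have h2 : EE i (rep r i) ≤ EE i k := EE_mono (by omega)
    omega

theorem nn_not_arithInduction : ¬ ArithInduction NN := by
  intro h
  obtain ⟨t0, u0, hB, _⟩ := rep_BB
  have h1 := h chi (fun _ => NN.zero) (fun _ => st BB) (fun _ => ⟨t0, u0, _, _, hB⟩)
    (by
      rw [chi_iff, chi_std]
      exact ⟨0, by filter_upwards [rep_zero] with i hi using hi.le⟩)
    (by
      intro a ha
      rw [chi_iff, chi_std] at ha ⊢
      obtain ⟨k, hk⟩ := ha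
      refine ⟨k + 1, ?_⟩
      filter_upwards [hk, rep_succ a] with i g1 g2
      omega)
    (mk (fun i => i) bdd_id)
  rw [chi_iff, chi_std] at h1
  obtain ⟨k, hk⟩ := h1
  apply ev_false
  filter_upwards [hk, rep_mk (fun i => i) bdd_id, ev_ge (k + 1)] with i g1 g2 g3
  omega

end Pool.Agent.Helper25_RM
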