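import Pool.Agent.Helper25_RM.Functionals

/-!
# Counting errors of the limit
-/

set_option autoImplicit false

namespace Pool.Agent.Helper25_RM

/-- the limit at the standard level -/
def limset (V W : Set ℕ) (g h b : ℕ) : Set ℕ :=
  {z | pr z (cc W (dec g (rr V W g h b z)) (2 ^ Nat.log 2 z)) ∈ V}

theorem tr_finite (S : Set ℕ) (j : ℕ) : (tr S j).Finite :=
  (Set.finite_Iio j).subset fun _ h => h.2

theorem OK_zero (V W : Set ℕ) (g h q z : ℕ) : OK V W g h q 0 z := by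
  intro r1 r2 h1 h2
  omega

theorem rr_spec (V W : Set ℕ) (g h b z : ℕ) :
    OK V W g h (2 ^ Nat.log 2 z) (rr V W g h b z) z := by
  classical
  unfold rr
  exact Nat.findGreatest_spec (P := fun r => OK V W g h (2 ^ Nat.log 2 z) r z) (Nat.zero_le b)
    (OK_zero _ _ _ _ _ _)

theorem rr_le (V W : Set ℕ) (g h b z : ℕ) : rr V W g h b z ≤ b := by
  classical
  unfold rr
  exact Nat.findGreatest_le _

theorem le_rr {V W : Set ℕ} {g h b z r : ℕ} (hr : r ≤ b) (hok : OK V W g h (2 ^ Nat.log 2 z) r z) :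
    r ≤ rr V W g h b z := by
  classical
  unfold rr
  exact Nat.le_findGreatest hr hok

open Classical in
/-- the errors in a block -/
noncomputable def blockErr (V W : Set ℕ) (g h b m u j : ℕ) (a r : ℕ) : Finset ℕ :=
  (Finset.range j).filter fun z => 2 * u ≤ z ∧ Nat.log 2 z = a ∧ rr V W g h b z = r ∧
    (pr z m ∈ V ↔ ¬ z ∈ limset V W g h b)

theorem block_card {V W : Set ℕ} {g h b m e u j r0 : ℕ}
    (hm : ∀ q ≥ u, cc W (dec g r0) q = m) (he : ∀ q ≥ u, cc W r0 q = e) {a r : ℕ} (hr : r0 < r) :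
    2 ^ (e + 2) * (blockErr V W g h b m u j a r).card ≤ 2 ^ (e + 2) + 2 ^ (a + 1) := by
  classical
  rcases (blockErr V W g h b m u j a r).eq_empty_or_nonempty with h0 | h0
  · rw [h0]; simp
  set E := blockErr V W g h b m u j a r with hE
  obtain ⟨z, hz, hmax⟩ := E.exists_max_image id h0
  have hz' := hz
  simp only [hE, blockErr, Finset.mem_filter, Finset.mem_range] at hz'
  obtain ⟨hzj, hzu, hza, hzr, hzE⟩ := hz'
  have hzlt : z < 2 ^ (a + 1) := by rw [← hza]; exact Nat.lt_pow_succ_log_self (by norm_num) z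
  rcases Nat.eq_zero_or_pos z with hz0 | hz0
  · -- all elements are `0`
    have h1 : E.card ≤ 1 := by
      rw [Finset.card_le_one]
      intro x hx y hy
      have h2 := hmax x hx
      have h3 := hmax y hy
      simp only [id] at h2 h3
      omega
    calc 2 ^ (e + 2) * E.card ≤ 2 ^ (e + 2) * 1 := Nat.mul_le_mul_left _ h1
      _ ≤ _ := by omega
  have hq : u ≤ 2 ^ a := by
    have h2 : 2 ^ (a + 1) = 2 * 2 ^ a := by rw [pow_succ]; ring
    omega
  have hqz : 2 ^ a ≤ z := by rw [← hza]; exact Nat.pow_log_le_self 2 hz0.ne'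
  have hok := rr_spec V W g h b z
  rw [hzr, hza] at hok
  have h2 := hok r0 r hr le_rfl z (by
    have := cc_le W (dec h r) (2 ^ a)
    have h3 : 0 < 2 ^ a := by positivity
    omega) le_rfl
  rw [hm _ hq, he _ hq] at h2
  have h3 : E.card ≤ cnt V m (cc W (dec g r) (2 ^ a)) z + 1 := by
    have h4 : (E.erase z : Set ℕ) ⊆ tr {x | pr x m ∈ V ↔ ¬ pr x (cc W (dec g r) (2 ^ a)) ∈ V} z := by
      intro x hx
      simp only [Finset.coe_erase, Set.mem_sdiff, Finset.mem_coe, Set.mem_singleton_iff] at hx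
      obtain ⟨hx1, hx2⟩ := hx
      have hx3 : x ≤ z := hmax x hx1
      simp only [hE, blockErr, Finset.mem_filter, Finset.mem_range] at hx1
      obtain ⟨_, _, hxa, hxr, hxE⟩ := hx1
      simp only [limset, Set.mem_ofPred_eq] at hxE
      rw [hxr, hxa] at hxE
      exact ⟨hxE, by omega⟩
    have h5 := Set.ncard_le_ncard h4 (tr_finite _ _)
    rw [Set.ncard_coe_finset, Finset.card_erase_of_mem hz] at h5
    unfold cnt
    omega
  calc 2 ^ (e + 2) * E.card ≤ 2 ^ (e + 2) * (cnt V m (cc W (dec g r) (2 ^ a)) z + 1) :=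
        Nat.mul_le_mul_left _ h3
    _ = 2 ^ (e + 2) * cnt V m (cc W (dec g r) (2 ^ a)) z + 2 ^ (e + 2) := by ring
    _ ≤ 2 ^ (e + 2) + 2 ^ (a + 1) := by omega

theorem geom_sum' (n : ℕ) : ∑ a ∈ Finset.range n, 2 ^ (a + 1) ≤ 2 ^ (n + 1) := by
  induction n with
  | zero => simp
  | succ n ih => rw [Finset.sum_range_succ, pow_succ 2 (n + 1)]; omega

theorem err_card {V W : Set ℕ} {g h b m e u j r0 : ℕ} (hb : r0 ≤ b)
    (hm : ∀ q ≥ u, cc W (dec g r0) q = m) (he : ∀ q ≥ u, cc W r0 q = e)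
    (hok : ∀ z < j, u ≤ 2 ^ Nat.log 2 z → OK V W g h (2 ^ Nat.log 2 z) r0 z) :
    2 ^ (e + 2) * (tr {z | pr z m ∈ V ↔ ¬ z ∈ limset V W g h b} j).ncard ≤
      2 ^ (e + 2) * (2 * u + 1 + (Nat.log 2 j + 1) * b) + 4 * b * j := by
  classical
  rcases Nat.eq_zero_or_pos j with rfl | hj
  · have : tr {z | pr z m ∈ V ↔ ¬ z ∈ limset V W g h b} 0 = ∅ := by
      ext x; simp [tr]
    rw [this]
    simp
  set S := (Finset.range (Nat.log 2 j + 1)) ×ˢ (Finset.range b) with hS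
  have hsub : tr {z | pr z m ∈ V ↔ ¬ z ∈ limset V W g h b} j ⊆
      ((Finset.range (2 * u + 1) ∪ S.biUnion fun ar => blockErr V W g h b m u j ar.1 (ar.2 + 1) :
        Finset ℕ) : Set ℕ) := by
    intro z hz
    obtain ⟨hz1, hz2⟩ := hz
    simp only [Set.mem_ofPred_eq] at hz1
    simp only [Finset.coe_union, Set.mem_union, Finset.mem_coe, Finset.mem_range,
      Finset.mem_biUnion]
    by_cases hzu : z < 2 * u + 1
    · exact Or.inl hzu
    right
    have hz0 : z ≠ 0 := by omega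
    have hlt : z < 2 ^ (Nat.log 2 z + 1) := Nat.lt_pow_succ_log_self (by norm_num) z
    have hq : u ≤ 2 ^ Nat.log 2 z := by
      have h2 : 2 ^ (Nat.log 2 z + 1) = 2 * 2 ^ Nat.log 2 z := by rw [pow_succ]; ring
      omega
    have h3 := le_rr hb (hok z hz2 hq)
    have h4 : rr V W g h b z ≠ r0 := by
      intro h5
      have h6 : z ∈ limset V W g h b ↔ pr z m ∈ V := by
        simp only [limset, Set.mem_ofPred_eq]
        rw [h5, hm _ hq]
      rw [h6] at hz1
      tauto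
    have h7 := rr_le V W g h b z
    refine ⟨(Nat.log 2 z, rr V W g h b z - 1), ?_, ?_⟩
    · simp only [hS, Finset.mem_product, Finset.mem_range]
      exact ⟨Nat.lt_succ_of_le (Nat.log_mono_right hz2.le), by omega⟩
    · simp only [blockErr, Finset.mem_filter, Finset.mem_range]
      refine ⟨hz2, by omega, ?_, by omega, hz1⟩
      trivial
  have hcard := Set.ncard_le_ncard hsub (Finset.finite_toSet _)
  rw [Set.ncard_coe_finset] at hcard
  have hcard2 := hcard.trans (Finset.card_union_le _ _)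
  rw [Finset.card_range] at hcard2
  have hcard3 := hcard2.trans (Nat.add_le_add_left Finset.card_biUnion_le _)
  have hS1 : 2 ^ (e + 2) * ∑ ar ∈ S.filter (fun ar => r0 ≤ ar.2),
      (blockErr V W g h b m u j ar.1 (ar.2 + 1)).card ≤
      ∑ ar ∈ S, (2 ^ (e + 2) + 2 ^ (ar.1 + 1)) := by
    rw [Finset.mul_sum]
    refine (Finset.sum_le_sum fun ar har => ?_).trans
      (Finset.sum_le_sum_of_subset (Finset.filter_subset (fun ar => r0 ≤ ar.2) S))
    have := (Finset.mem_filter.1 har).2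
    exact block_card hm he (by omega)
  have hS2 : ∑ ar ∈ S, (blockErr V W g h b m u j ar.1 (ar.2 + 1)).card =
      ∑ ar ∈ S.filter (fun ar => r0 ≤ ar.2),
      (blockErr V W g h b m u j ar.1 (ar.2 + 1)).card := by
    symm
    apply Finset.sum_subset (Finset.filter_subset _ _)
    intro ar har har'
    have h1 : ar.2 < r0 := by
      by_contra hc
      exact har' (Finset.mem_filter.2 ⟨har, by omega⟩)
    rw [Finset.card_eq_zero, Finset.eq_empty_iff_forall_notMem]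
    intro z hz
    simp only [blockErr, Finset.mem_filter, Finset.mem_range] at hz
    obtain ⟨hz1, hz2, hz3, hz4, hz5⟩ := hz
    by_cases hz0 : z = 0
    · subst hz0
      have hu : u = 0 := by omega
      have h3 := le_rr hb (hok 0 hz1 (by rw [hu]; exact Nat.zero_le _))
      have h4 : rr V W g h b 0 ≠ r0 := by
        intro h5
        have h6 : 0 ∈ limset V W g h b ↔ pr 0 m ∈ V := by
          simp only [limset, Set.mem_ofPred_eq]
          rw [h5, hm _ (by rw [hu]; exact Nat.zero_le _)]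
        rw [h6] at hz5
        tauto
      omega
    have hlt : z < 2 ^ (Nat.log 2 z + 1) := Nat.lt_pow_succ_log_self (by norm_num) z
    have hq : u ≤ 2 ^ Nat.log 2 z := by
      have h2 : 2 ^ (Nat.log 2 z + 1) = 2 * 2 ^ Nat.log 2 z := by rw [pow_succ]; ring
      omega
    have h3 := le_rr hb (hok z hz1 hq)
    have h4 : rr V W g h b z ≠ r0 := by
      intro h5
      have h6 : z ∈ limset V W g h b ↔ pr z m ∈ V := by
        simp only [limset, Set.mem_ofPred_eq]
        rw [h5, hm _ hq]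
      rw [h6] at hz5
      tauto
    omega
  rw [hS2] at hcard3
  have hS3 : ∑ ar ∈ S, (2 ^ (e + 2) + 2 ^ (ar.1 + 1)) ≤
      2 ^ (e + 2) * ((Nat.log 2 j + 1) * b) + 4 * b * j := by
    rw [hS, Finset.sum_product]
    simp only [Finset.sum_const, Finset.card_range, smul_eq_mul]
    rw [← Finset.mul_sum, Finset.sum_add_distrib, Finset.sum_const, Finset.card_range, smul_eq_mul]
    have h1 := geom_sum' (Nat.log 2 j + 1)
    have h2 : 2 ^ (Nat.log 2 j + 1 + 1) ≤ 4 * j := by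
      have h3 := Nat.pow_log_le_self 2 hj.ne'
      rw [pow_succ, pow_succ]
      omega
    calc b * ((Nat.log 2 j + 1) * 2 ^ (e + 2) + ∑ a ∈ Finset.range (Nat.log 2 j + 1), 2 ^ (a + 1))
        ≤ b * ((Nat.log 2 j + 1) * 2 ^ (e + 2) + 4 * j) :=
          Nat.mul_le_mul_left _ (Nat.add_le_add_left (h1.trans h2) _)
      _ = _ := by ring
  calc 2 ^ (e + 2) * (tr {z | pr z m ∈ V ↔ ¬ z ∈ limset V W g h b} j).ncard
      ≤ 2 ^ (e + 2) * (2 * u + 1 + ∑ ar ∈ S.filter (fun ar => r0 ≤ ar.2),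
      (blockErr V W g h b m u j ar.1 (ar.2 + 1)).card) := Nat.mul_le_mul_left _ hcard3
    _ = 2 ^ (e + 2) * (2 * u + 1) + 2 ^ (e + 2) * ∑ ar ∈ S.filter (fun ar => r0 ≤ ar.2),
      (blockErr V W g h b m u j ar.1 (ar.2 + 1)).card := by ring
    _ ≤ 2 ^ (e + 2) * (2 * u + 1) + (2 ^ (e + 2) * ((Nat.log 2 j + 1) * b) + 4 * b * j) :=
        Nat.add_le_add_left (hS1.trans hS3) _
    _ = _ := by ring

theorem err_arith1 {y k b u j : ℕ} (hk : k ≤ y) (hb : b ≤ y) (hu : 2 * u + 1 ≤ y)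
    (hj : 2 ^ (4 * y + 8) ≤ j) : 2 ^ (k + 2) * (2 * u + 1 + (Nat.log 2 j + 1) * b) ≤ j := by
  have hj0 : j ≠ 0 := by
    have : 0 < 2 ^ (4 * y + 8) := by positivity
    omega
  have ha : 4 * y + 8 ≤ Nat.log 2 j := Nat.le_log_of_pow_le (by norm_num) hj
  set a := Nat.log 2 j with ha'
  have h1 : 2 * u + 1 + (a + 1) * b ≤ y * (a + 2) := by
    calc 2 * u + 1 + (a + 1) * b ≤ y + (a + 1) * y :=
          Nat.add_le_add hu (Nat.mul_le_mul_left _ hb)
      _ = y * (a + 2) := by ring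
  have h2 : y ≤ 2 ^ y := Nat.lt_two_pow_self.le
  have h3 : ∀ c, 2 ≤ c → 2 * c + 3 ≤ 2 ^ (c + 1) := by
    intro c hc
    induction c, hc using Nat.le_induction with
    | base => norm_num
    | succ c hc ih => rw [pow_succ]; omega
  have h4 : a + 2 ≤ 2 ^ (a / 2 + 1) := by
    have := h3 (a / 2) (by omega)
    omega
  calc 2 ^ (k + 2) * (2 * u + 1 + (a + 1) * b) ≤ 2 ^ (y + 2) * (2 ^ y * 2 ^ (a / 2 + 1)) :=
        Nat.mul_le_mul (Nat.pow_le_pow_right (by norm_num) (by omega))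
          (h1.trans (Nat.mul_le_mul h2 h4))
    _ = 2 ^ (y + 2 + (y + (a / 2 + 1))) := by rw [← pow_add, ← pow_add]
    _ ≤ 2 ^ a := Nat.pow_le_pow_right (by norm_num) (by omega)
    _ ≤ j := Nat.pow_log_le_self 2 hj0

theorem err_arith {y k b u j e x : ℕ} (hk : k ≤ y) (hb : b ≤ y) (hu : 2 * u + 1 ≤ y)
    (hj : 2 ^ (4 * y + 8) ≤ j) (he : k + b + 6 ≤ e)
    (hx : 2 ^ (e + 2) * x ≤ 2 ^ (e + 2) * (2 * u + 1 + (Nat.log 2 j + 1) * b) + 4 * b * j) :
    2 ^ (k + 1) * x ≤ j := by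
  have h1 := err_arith1 hk hb hu hj
  have h2 : 2 ^ (k + 3) * b ≤ 2 ^ (e + 1) := by
    calc 2 ^ (k + 3) * b ≤ 2 ^ (k + 3) * 2 ^ b := Nat.mul_le_mul_left _ Nat.lt_two_pow_self.le
      _ = 2 ^ (k + 3 + b) := by rw [← pow_add]
      _ ≤ 2 ^ (e + 1) := Nat.pow_le_pow_right (by norm_num) (by omega)
  have h3 : 2 ^ (e + 2) * (2 ^ (k + 1) * x) ≤ 2 ^ (e + 2) * j := by
    calc 2 ^ (e + 2) * (2 ^ (k + 1) * x) = 2 ^ (k + 1) * (2 ^ (e + 2) * x) := by ring
      _ ≤ 2 ^ (k + 1) * (2 ^ (e + 2) * (2 * u + 1 + (Nat.log 2 j + 1) * b) + 4 * b * j) :=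
          Nat.mul_le_mul_left _ hx
      _ = 2 ^ (e + 1) * (2 ^ (k + 2) * (2 * u + 1 + (Nat.log 2 j + 1) * b)) +
          2 ^ (k + 3) * b * j := by ring
      _ ≤ 2 ^ (e + 1) * j + 2 ^ (e + 1) * j :=
          Nat.add_le_add (Nat.mul_le_mul_left _ h1) (Nat.mul_le_mul_right _ h2)
      _ = 2 ^ (e + 2) * j := by ring
  exact Nat.le_of_mul_le_mul_left h3 (by positivity)

/-- triangle inequality -/
theorem xor_card_le {A B C : Set ℕ} (j : ℕ) :
    (tr {z | z ∈ A ↔ ¬ z ∈ C} j).ncard ≤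
      (tr {z | z ∈ B ↔ ¬ z ∈ A} j).ncard + (tr {z | z ∈ B ↔ ¬ z ∈ C} j).ncard := by
  refine (Set.ncard_le_ncard ?_ ((tr_finite _ _).union (tr_finite _ _))).trans
    (Set.ncard_union_le _ _)
  intro z hz
  obtain ⟨h1, h2⟩ := hz
  simp only [Set.mem_ofPred_eq] at h1
  by_cases hA : z ∈ A <;> by_cases hB : z ∈ B <;> by_cases hC : z ∈ C <;>
    simp_all [tr]

theorem cnt_tri (V : Set ℕ) (m n l j : ℕ) : cnt V m n j ≤ cnt V l m j + cnt V l n j :=
  xor_card_le (A := {z | pr z m ∈ V}) (B := {z | pr z l ∈ V}) (C := {z | pr z n ∈ V}) j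

end Pool.Agent.Helper25_RM
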