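import Pool.Agent.Helper25_RM.Rca
import Pool.Agent.Helper25_RM.CompStd

/-!
# Completeness of the density metric in the model
-/

set_option autoImplicit false

namespace Pool.Agent.Helper25_RM

open Filter

theorem st_agree {Y Y' : ℕ → Set ℕ} (h : ∀ (x : ℕ → ℕ), Bdd x →
    ((∀ᶠ i in (U : Filter ℕ), x i ∈ Y i) ↔ ∀ᶠ i in (U : Filter ℕ), x i ∈ Y' i)) (j : ℕ) :
    ∀ᶠ i in (U : Filter ℕ), ∀ z ≤ CC i j, (z ∈ Y i ↔ z ∈ Y' i) := by
  apply ev_bdd_forall
  intro x hx _
  have h1 := h x hx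
  by_cases h2 : ∀ᶠ i in (U : Filter ℕ), x i ∈ Y i
  · have h3 := h1.1 h2
    filter_upwards [h2, h3] with i g1 g2
    exact ⟨fun _ => g2, fun _ => g1⟩
  · have h3 := mt h1.2 h2
    rw [ev_not] at h2 h3
    filter_upwards [h2, h3] with i g1 g2
    exact ⟨fun h => absurd h g1, fun h => absurd h g2⟩

theorem mem_pair_st {Y : ℕ → Set ℕ} {a b : Mo} :
    pair NN a b ∈ st Y ↔ ∀ᶠ i in (U : Filter ℕ), pr (rep a i) (rep b i) ∈ Y i := by
  have : pair NN a b = mk (fun i => pr (rep a i) (rep b i)) ((rep_bdd a).pr (rep_bdd b)) :=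
    eq_mk (rep_pair a b)
  rw [this, mk_mem_st]

theorem pair_eq_mk (a b : Mo) :
    pair NN a b = mk (fun i => pr (rep a i) (rep b i)) ((rep_bdd a).pr (rep_bdd b)) :=
  eq_mk (rep_pair a b)

/-- two functions of the model which agree by induction are equal -/
theorem fun_unique {f f' : Mo → Mo} (hf : IsFun NN f) (hf' : IsFun NN f')
    (h0 : f NN.zero = f' NN.zero)
    (hs : ∀ n : Mo, f n = f' n → f (NN.add n NN.one) = f' (NN.add n NN.one)) (n : Mo) :
    f n = f' n := by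
  obtain ⟨X, hX, hX'⟩ := hf
  obtain ⟨Y, hY, hY'⟩ := hf'
  let φ : Fm := Fm.and (Fm.mem (prT (Tm.var 0) (Tm.var 1)) 0) (Fm.mem (prT (Tm.var 0) (Tm.var 1)) 1)
  let V : ℕ → Set Mo := fun l => if l = 0 then X else Y
  have hV : ∀ l, V l ∈ SS := by
    intro l
    by_cases hl : l = 0
    · simp only [V, hl, if_true]; exact hX
    · simp only [V, hl, if_false]; exact hY
  have key : ∀ a : Mo, (∃ b, φ.Sat NN (set2 (fun _ => NN.zero) a b) V) ↔ f a = f' a := by
    intro a
    have h1 : ∀ b : Mo, φ.Sat NN (set2 (fun _ => NN.zero) a b) V ↔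
        (pair NN a b ∈ X ∧ pair NN a b ∈ Y) := by
      intro b
      simp only [φ, Fm.Sat, prT, Tm.eval, set2, V, pair, Function.update_self,
        Function.update_of_ne (show (0 : ℕ) ≠ 1 by norm_num), if_true,
        if_neg (show ¬ (1 : ℕ) = 0 by norm_num)]
    constructor
    · rintro ⟨b, hb⟩
      obtain ⟨g1, g2⟩ := (h1 b).1 hb
      rw [(hX' a b).1 g1, (hY' a b).1 g2]
    · intro h
      exact ⟨f a, (h1 _).2 ⟨(hX' a _).2 rfl, (hY' a _).2 h.symm⟩⟩
  exact (key n).1 (nn_rca0.induction φ _ V hV ((key _).2 h0)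
    (fun a ha => (key _).2 (hs a ((key a).1 ha))) n)

theorem tr_succ_mem {Y : Set ℕ} {n : ℕ} (h : n ∈ Y) : (tr Y (n + 1)).ncard = (tr Y n).ncard + 1 := by
  have : tr Y (n + 1) = insert n (tr Y n) := by
    ext x
    simp only [tr, Set.mem_ofPred_eq, Set.mem_insert_iff]
    constructor
    · rintro ⟨h1, h2⟩
      rcases Nat.lt_succ_iff_lt_or_eq.1 h2 with h3 | h3
      · exact Or.inr ⟨h1, h3⟩
      · exact Or.inl h3
    · rintro (h1 | ⟨h1, h2⟩)
      · subst h1; exact ⟨h, by omega⟩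
      · exact ⟨h1, by omega⟩
  rw [this, Set.ncard_insert_of_notMem (fun h' => absurd h'.2 (by omega)) (tr_finite _ _)]

theorem tr_succ_notMem {Y : Set ℕ} {n : ℕ} (h : n ∉ Y) : (tr Y (n + 1)).ncard = (tr Y n).ncard := by
  have : tr Y (n + 1) = tr Y n := by
    ext x
    simp only [tr, Set.mem_ofPred_eq]
    constructor
    · rintro ⟨h1, h2⟩
      rcases Nat.lt_succ_iff_lt_or_eq.1 h2 with h3 | h3
      · exact ⟨h1, h3⟩
      · subst h3; exact absurd h1 h
    · rintro ⟨h1, h2⟩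
      exact ⟨h1, by omega⟩
  rw [this]

theorem tr_ncard_le (Y : Set ℕ) (n : ℕ) : (tr Y n).ncard ≤ n := by
  have := Set.ncard_le_ncard (s := tr Y n) (t := (Finset.range n : Set ℕ))
    (fun x hx => by simpa using hx.2) (Finset.finite_toSet _)
  rw [Set.ncard_coe_finset, Finset.card_range] at this
  exact this

/-- the internal counting function -/
noncomputable def cntF (Y : ℕ → Set ℕ) (n : Mo) : Mo :=
  mk (fun i => (tr (Y i) (rep n i)).ncard) ((rep_bdd n).mono' fun _ => tr_ncard_le _ _)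

/-- the internal exponential function -/
noncomputable def powF (n : Mo) : Mo := mk (fun i => 2 ^ rep n i) (rep_bdd n).pow

theorem tr_ncard_congr {Y Y' : Set ℕ} {n : ℕ} (h : ∀ z < n, (z ∈ Y ↔ z ∈ Y')) :
    (tr Y n).ncard = (tr Y' n).ncard := by rw [tr_congr h]

theorem isCount_cntF {D : Set Mo} (hD : D ∈ SS) {Y : ℕ → Set ℕ} (hY : D = st Y) :
    IsCount NN D (cntF Y) := by
  obtain ⟨t, u, p, q, hR⟩ := hD
  obtain ⟨fp, hfp⟩ := exists_Lf (FIdx.count true)
  obtain ⟨fn, hfn⟩ := exists_Lf (FIdx.count false)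
  obtain ⟨Z, t', u', q', hZ, hZ'⟩ := dec_lemma countDF fp fn hfp hfn hR hR (bdd_const 0)
  have hag : ∀ (x : ℕ → ℕ), Bdd x → ((∀ᶠ i in (U : Filter ℕ), x i ∈ Wt t p i) ↔
      ∀ᶠ i in (U : Filter ℕ), x i ∈ Y i) := by
    intro x hx
    rw [← mk_mem_st (h := hx), ← mk_mem_st (h := hx), ← hR.pos, ← hY]
  refine ⟨⟨Z, ⟨t', u', q', q', hZ⟩, fun a b => ?_⟩, ?_, fun n => ⟨fun hn => ?_, fun hn => ?_⟩⟩
  · rw [pair_eq_mk, hZ']
    obtain ⟨j, hj⟩ := rep_bdd a
    have h1 := st_agree hag j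
    have h2 := rep_mk (fun i => (tr (Y i) (rep a i)).ncard)
      ((rep_bdd a).mono' fun _ => tr_ncard_le _ _)
    constructor
    · intro h
      apply mo_ext
      filter_upwards [h, hj, h1, h2] with i g1 g2 g3 g4
      obtain ⟨a', _, b', g5, g6⟩ := g1
      obtain ⟨g7, g8⟩ := pr_inj g5
      rw [← g7, ← g8] at g6
      show rep (mk _ _) i = _
      rw [g4, ← g6]
      exact tr_ncard_congr fun z hz => (g3 z (hz.le.trans g2)).symm
    · intro h
      subst h
      filter_upwards [hj, h1, h2] with i g2 g3 g4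
      refine ⟨rep a i, le_pr_left _ _, _, rfl, ?_⟩
      show _ = rep (mk _ _) i
      rw [g4]
      exact tr_ncard_congr fun z hz => g3 z (hz.le.trans g2)
  · apply mo_ext
    filter_upwards [rep_zero, rep_mk (fun i => (tr (Y i) (rep NN.zero i)).ncard)
      ((rep_bdd _).mono' fun _ => tr_ncard_le _ _)] with i h1 h2
    show rep (mk _ _) i = _
    rw [h2, h1]
    have : tr (Y i) 0 = ∅ := by ext x; simp [tr]
    rw [this]; simp
  · rw [hY, mem_st] at hn
    apply mo_ext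
    filter_upwards [hn, rep_succ n, rep_succ (cntF Y n),
      rep_mk (fun i => (tr (Y i) (rep (NN.add n NN.one) i)).ncard)
        ((rep_bdd _).mono' fun _ => tr_ncard_le _ _),
      rep_mk (fun i => (tr (Y i) (rep n i)).ncard)
        ((rep_bdd _).mono' fun _ => tr_ncard_le _ _)] with i h1 h2 h3 h4 h5
    rw [h3]
    show rep (mk _ _) i = rep (mk _ _) i + 1
    rw [h4, h5, h2, tr_succ_mem h1]
  · rw [hY, not_mem_st] at hn
    apply mo_ext
    filter_upwards [hn, rep_succ n,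
      rep_mk (fun i => (tr (Y i) (rep (NN.add n NN.one) i)).ncard)
        ((rep_bdd _).mono' fun _ => tr_ncard_le _ _),
      rep_mk (fun i => (tr (Y i) (rep n i)).ncard)
        ((rep_bdd _).mono' fun _ => tr_ncard_le _ _)] with i h1 h2 h4 h5
    show rep (mk _ _) i = rep (mk _ _) i
    rw [h4, h5, h2, tr_succ_notMem h1]

theorem isPow_powF : IsPow NN powF := by
  obtain ⟨t, u, hR, _⟩ := rep_BB
  obtain ⟨fp, hfp⟩ := exists_Lf (FIdx.pow true)
  obtain ⟨fn, hfn⟩ := exists_Lf (FIdx.pow false)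
  obtain ⟨Z, t', u', q', hZ, hZ'⟩ := dec_lemma powDF fp fn hfp hfn hR hR (bdd_const 0)
  refine ⟨⟨Z, ⟨t', u', q', q', hZ⟩, fun a b => ?_⟩, ?_, fun n => ?_⟩
  · rw [pair_eq_mk, hZ']
    have h2 := rep_mk (fun i => 2 ^ rep a i) (rep_bdd a).pow
    constructor
    · intro h
      apply mo_ext
      filter_upwards [h, h2] with i g1 g4
      obtain ⟨a', b', g5, g6⟩ := g1
      obtain ⟨g7, g8⟩ := pr_inj g5
      rw [← g7, ← g8] at g6
      show rep (mk _ _) i = _
      rw [g4, ← g6]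
    · intro h
      subst h
      filter_upwards [h2] with i g4
      refine ⟨rep a i, _, rfl, ?_⟩
      show _ = rep (mk _ _) i
      rw [g4]
  · apply mo_ext
    filter_upwards [rep_zero, rep_one, rep_mk (fun i => 2 ^ rep NN.zero i) (rep_bdd _).pow]
      with i h1 h2 h3
    show rep (mk _ _) i = _
    rw [h3, h1, h2, pow_zero]
  · apply mo_ext
    filter_upwards [rep_succ n, rep_add (powF n) (powF n),
      rep_mk (fun i => 2 ^ rep (NN.add n NN.one) i) (rep_bdd _).pow,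
      rep_mk (fun i => 2 ^ rep n i) (rep_bdd _).pow] with i h1 h2 h3 h4
    rw [h2]
    show rep (mk _ _) i = rep (mk _ _) i + rep (mk _ _) i
    rw [h3, h4, h1, pow_succ]
    omega

theorem le_iff {a b : Mo} : Le NN a b ↔ ∀ᶠ i in (U : Filter ℕ), rep a i ≤ rep b i := by
  constructor
  · rintro (h | h)
    · filter_upwards [lt_iff.1 h] with i hi using hi.le
    · subst h; exact Eventually.of_forall fun _ => le_rfl
  · intro h
    by_cases h' : NN.lt a b
    · exact Or.inl h'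
    · refine Or.inr (mo_ext ?_)
      rw [lt_iff, ev_not] at h'
      filter_upwards [h, h'] with i h1 h2
      omega

/-- `RhoLe` is evaluated componentwise -/
theorem rhoLe_iff {D : Set Mo} (hD : D ∈ SS) {Y : ℕ → Set ℕ} (hY : D = st Y) (j k : Mo) :
    RhoLe NN D j k ↔ ∀ᶠ i in (U : Filter ℕ),
      2 ^ rep k i * (tr (Y i) (rep j i)).ncard ≤ rep j i := by
  have hval : Le NN (NN.mul (powF k) (cntF Y j)) j ↔ ∀ᶠ i in (U : Filter ℕ),
      2 ^ rep k i * (tr (Y i) (rep j i)).ncard ≤ rep j i := by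
    rw [le_iff]
    have h1 := rep_mul (powF k) (cntF Y j)
    have h2 := rep_mk (fun i => 2 ^ rep k i) (rep_bdd k).pow
    have h3 := rep_mk (fun i => (tr (Y i) (rep j i)).ncard)
      ((rep_bdd _).mono' fun _ => tr_ncard_le _ _)
    have h4 : ∀ᶠ i in (U : Filter ℕ), rep (NN.mul (powF k) (cntF Y j)) i =
        2 ^ rep k i * (tr (Y i) (rep j i)).ncard := by
      filter_upwards [h1, h2, h3] with i g1 g2 g3
      rw [g1]
      show rep (mk _ _) i * rep (mk _ _) i = _
      rw [g2, g3]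
    constructor
    · intro h
      filter_upwards [h, h4] with i g1 g2
      rw [← g2]; exact g1
    · intro h
      filter_upwards [h, h4] with i g1 g2
      rw [g2]; exact g1
  constructor
  · rintro ⟨c, e, hc, he, hle⟩
    have hcc := isCount_cntF hD hY
    have h1 : c = cntF Y := by
      funext n
      refine fun_unique hc.1 hcc.1 (by rw [hc.2.1, hcc.2.1]) (fun n hn => ?_) n
      by_cases hnD : n ∈ D
      · rw [(hc.2.2 n).1 hnD, (hcc.2.2 n).1 hnD, hn]
      · rw [(hc.2.2 n).2 hnD, (hcc.2.2 n).2 hnD, hn]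
    have hpp := isPow_powF
    have h2 : e = powF := by
      funext n
      refine fun_unique he.1 hpp.1 (by rw [he.2.1, hpp.2.1]) (fun n hn => ?_) n
      rw [he.2.2 n, hpp.2.2 n, hn]
    rw [h1, h2] at hle
    exact hval.1 hle
  · intro h
    exact ⟨cntF Y, powF, isCount_cntF hD hY, isPow_powF, hval.2 h⟩

theorem symmDiff_st {A B : Set Mo} {Y Y' : ℕ → Set ℕ} (hA : A = st Y) (hB : B = st Y') :
    symmDiff A B = st (fun i => {z | z ∈ Y i ↔ ¬ z ∈ Y' i}) := by
  subst hA hB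
  ext a
  rw [Set.mem_symmDiff]
  show (a ∈ st Y ∧ a ∉ st Y' ∨ a ∈ st Y' ∧ a ∉ st Y) ↔
    ∀ᶠ i in (U : Filter ℕ), (rep a i ∈ Y i ↔ ¬ rep a i ∈ Y' i)
  constructor
  · rintro (⟨h1, h2⟩ | ⟨h1, h2⟩)
    · rw [mem_st] at h1
      rw [not_mem_st] at h2
      filter_upwards [h1, h2] with i g1 g2
      exact ⟨fun _ => g2, fun _ => g1⟩
    · rw [mem_st] at h1
      rw [not_mem_st] at h2
      filter_upwards [h1, h2] with i g1 g2
      exact ⟨fun h => absurd h g2, fun h => absurd g1 h⟩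
  · intro h
    by_cases hA : a ∈ st Y
    · refine Or.inl ⟨hA, ?_⟩
      rw [not_mem_st]
      filter_upwards [h, mem_st.1 hA] with i g1 g2 using g1.1 g2
    · refine Or.inr ⟨?_, hA⟩
      rw [not_mem_st] at hA
      rw [mem_st]
      filter_upwards [h, hA] with i g1 g2
      by_contra h3
      exact g2 (g1.2 h3)

theorem sec_st {X : Set Mo} {Y : ℕ → Set ℕ} (hX : X = st Y) (n : Mo) :
    sec NN X n = st (fun i => {z | pr z (rep n i) ∈ Y i}) := by
  subst hX
  ext a
  exact mem_pair_st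

/-- the Cauchy condition, componentwise -/
theorem rhoLe_sec {X : Set Mo} {t u : ℕ} {p q : ℕ → ℕ} (hR : Rep X t u p q) (m n j k : Mo) :
    RhoLe NN (symmDiff (sec NN X m) (sec NN X n)) j k ↔ ∀ᶠ i in (U : Filter ℕ),
      2 ^ rep k i * cnt (Wt t p i) (rep m i) (rep n i) (rep j i) ≤ rep j i := by
  have h1 := symmDiff_st (sec_st hR.pos m) (sec_st hR.pos n)
  obtain ⟨fp, hfp⟩ := exists_Lf (FIdx.sd true)
  obtain ⟨fn, hfn⟩ := exists_Lf (FIdx.sd false)
  obtain ⟨Z, t', u', q', hZ, hZ'⟩ := dec_lemma sdDF fp fn hfp hfn hR hR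
    ((rep_bdd m).pair ((rep_bdd n).pair (bdd_const 0)))
  have h2 : symmDiff (sec NN X m) (sec NN X n) = Z := by
    rw [h1]
    ext a
    rw [← mk_rep a, hZ', mk_mem_st]
    refine eventually_congr (Eventually.of_forall fun i => ?_)
    simp [sdDF, dec]
  have hS : symmDiff (sec NN X m) (sec NN X n) ∈ SS := by
    rw [h2]; exact ⟨t', u', q', q', hZ⟩
  rw [rhoLe_iff hS h1 j k]
  rfl

theorem cofinal (a : Mo) : ∃ r, NN.lt a (mk (fun i => EE i r) (bdd_EE r)) := by
  obtain ⟨j, hj⟩ := rep_bdd a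
  refine ⟨j + 1, ?_⟩
  show ∀ᶠ i in (U : Filter ℕ), _
  filter_upwards [hj, rep_mk (fun i => EE i (j + 1)) (bdd_EE (j + 1))] with i h1 h2
  rw [h2]
  have h3 := (good i).e_le (j + 1)
  have h4 := (good i).mono (show j < j + 1 by omega)
  omega

theorem EE_mono {i r s : ℕ} (h : r ≤ s) : EE i r ≤ EE i s := by
  rcases Nat.eq_or_lt_of_le h with h | h
  · subst h; exact le_rfl
  · have h1 := (good i).e_lt r
    have h2 := (good i).e_le s
    have h3 : CC i (r + 1) ≤ CC i s := CC_mono h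
    omega

/-- every standard function is coded -/
theorem code_fun (g : ℕ → ℕ) : ∃ x : ℕ → ℕ, Bdd x ∧ ∀ r, ∀ᶠ i in (U : Filter ℕ),
    dec (x i) r = g r := by
  classical
  have h0 : ∀ N, ∀ g : ℕ → ℕ, ∃ c, (N = 0 → c = 0) ∧ ∀ r < N, dec c r = g r := by
    intro N
    induction N with
    | zero => intro g; exact ⟨0, fun _ => rfl, fun r hr => by omega⟩
    | succ N ih =>
      intro g
      obtain ⟨c, _, hc⟩ := ih (fun r => g (r + 1))
      refine ⟨Nat.pair (g 0) c, fun h => by omega, fun r hr => ?_⟩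
      cases r with
      | zero => simp
      | succ r => simp [hc r (by omega)]
  choose c hc0 hc using fun N => h0 N g
  let L : ℕ → ℕ := fun i => Nat.findGreatest (fun N => c N ≤ i) i
  have hL : ∀ i, c (L i) ≤ i := by
    intro i
    exact Nat.findGreatest_spec (P := fun N => c N ≤ i) (Nat.zero_le i)
      (by rw [hc0 0 rfl]; exact Nat.zero_le i)
  refine ⟨fun i => c (L i), bdd_id.mono' hL, fun r => ?_⟩
  filter_upwards [ev_ge (r + 1), ev_ge (c (r + 1))] with i h1 h2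
  have h3 : r + 1 ≤ L i := Nat.le_findGreatest h1 h2
  exact hc (L i) r (by omega)

theorem mk_lt_iff {x y : ℕ → ℕ} {hx : Bdd x} {hy : Bdd y} :
    NN.lt (mk x hx) (mk y hy) ↔ ∀ᶠ i in (U : Filter ℕ), x i < y i := by
  rw [lt_iff]
  constructor
  · intro h
    filter_upwards [h, rep_mk x hx, rep_mk y hy] with i h1 h2 h3
    rwa [h2, h3] at h1
  · intro h
    filter_upwards [h, rep_mk x hx, rep_mk y hy] with i h1 h2 h3
    rwa [h2, h3]

/-- a strictly increasing function above the given one with a property inherited upwards -/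
theorem exists_strictMono (Q : ℕ → ℕ → Prop) (h : ∀ r, ∃ s, Q r s)
    (hQ : ∀ r s s', s ≤ s' → Q r s → Q r s') : ∃ g : ℕ → ℕ, StrictMono g ∧ ∀ r, Q r (g r) := by
  choose f hf using h
  refine ⟨fun r => (Finset.range (r + 1)).sum (fun i => f i + 1), ?_, fun r => ?_⟩
  · refine strictMono_nat_of_lt_succ fun r => ?_
    show _ < (Finset.range (r + 1 + 1)).sum (fun i => f i + 1)
    rw [Finset.sum_range_succ _ (r + 1)]
    omega
  · refine hQ r (f r) _ ?_ (hf r)
    show f r ≤ (Finset.range (r + 1)).sum (fun i => f i + 1)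
    rw [Finset.sum_range_succ]
    omega

theorem nn_complete : Completeness NN := by
  intro X hX hC
  obtain ⟨t, u, p, q, hR⟩ := hX
  set V : ℕ → Set ℕ := Wt t p with hV
  -- the elements `e_r`
  let e : ℕ → Mo := fun r => mk (fun i => EE i r) (bdd_EE r)
  let e3 : ℕ → Mo := fun r => mk (fun i => EE i r + 3) ((bdd_EE r).add (bdd_const 3))
  have hC' : ∀ r, ∃ m : Mo, ∀ n : Mo, NN.lt m n → ∃ i0 : Mo, ∀ j : Mo, NN.lt i0 j →
      ∀ᶠ i in (U : Filter ℕ),
        2 ^ (EE i r + 3) * cnt (V i) (rep m i) (rep n i) (rep j i) ≤ rep j i := by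
    intro r
    obtain ⟨m, hm⟩ := hC (e3 r)
    refine ⟨m, fun n hn => ?_⟩
    obtain ⟨i0, hi0⟩ := hm n hn
    refine ⟨i0, fun j hj => ?_⟩
    have h1 := (rhoLe_sec hR m n j (e3 r)).1 (hi0 j hj)
    filter_upwards [h1, rep_mk (fun i => EE i r + 3) ((bdd_EE r).add (bdd_const 3))] with i g1 g2
    rw [← g2]
    exact g1
  choose m' hm' using hC'
  obtain ⟨g, hgm, hg⟩ := exists_strictMono (fun r s => NN.lt (m' r) (e s))
    (fun r => cofinal (m' r)) (by
      intro r s s' hs h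
      show ∀ᶠ i in (U : Filter ℕ), _
      filter_upwards [lt_iff.1 h, rep_mk (fun i => EE i s) (bdd_EE s),
        rep_mk (fun i => EE i s') (bdd_EE s')] with i h1 h2 h3
      have h4 : rep (m' r) i < rep (mk (fun i => EE i s) (bdd_EE s)) i := h1
      show rep (m' r) i < rep (mk (fun i => EE i s') (bdd_EE s')) i
      rw [h2] at h4
      rw [h3]
      exact h4.trans_le (EE_mono hs))
  -- the basic estimate
  have hstar : ∀ r, ∀ n : Mo, NN.lt (e (g r)) n → ∃ i0 : Mo, ∀ j : Mo, NN.lt i0 j →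
      ∀ᶠ i in (U : Filter ℕ),
        2 ^ (EE i r + 2) * cnt (V i) (EE i (g r)) (rep n i) (rep j i) ≤ rep j i := by
    intro r n hn
    have hn' : NN.lt (m' r) n := by
      show ∀ᶠ i in (U : Filter ℕ), _
      filter_upwards [lt_iff.1 (hg r), lt_iff.1 hn] with i h1 h2 using h1.trans h2
    obtain ⟨i1, hi1⟩ := hm' r (e (g r)) (hg r)
    obtain ⟨i2, hi2⟩ := hm' r n hn'
    refine ⟨mk (fun i => max (rep i1 i) (rep i2 i)) ((rep_bdd i1).max (rep_bdd i2)),
      fun j hj => ?_⟩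
    have hj' : ∀ᶠ i in (U : Filter ℕ), max (rep i1 i) (rep i2 i) < rep j i := by
      filter_upwards [lt_iff.1 hj, rep_mk (fun i => max (rep i1 i) (rep i2 i))
        ((rep_bdd i1).max (rep_bdd i2))] with i h1 h2
      rwa [h2] at h1
    have h1 := hi1 j (by
      show ∀ᶠ i in (U : Filter ℕ), _
      filter_upwards [hj'] with i hi using (le_max_left _ _).trans_lt hi)
    have h2 := hi2 j (by
      show ∀ᶠ i in (U : Filter ℕ), _
      filter_upwards [hj'] with i hi using (le_max_right _ _).trans_lt hi)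
    filter_upwards [h1, h2, rep_mk (fun i => EE i (g r)) (bdd_EE (g r))] with i g1 g2 g3
    have g1' : 2 ^ (EE i r + 3) * cnt (V i) (rep (m' r) i) (EE i (g r)) (rep j i) ≤ rep j i := by
      rw [← g3]; exact g1
    have g4 := cnt_tri (V i) (EE i (g r)) (rep n i) (rep (m' r) i) (rep j i)
    have g5 : 2 * (2 ^ (EE i r + 2) * cnt (V i) (EE i (g r)) (rep n i) (rep j i)) ≤
        2 * rep j i := by
      calc 2 * (2 ^ (EE i r + 2) * cnt (V i) (EE i (g r)) (rep n i) (rep j i))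
          = 2 ^ (EE i r + 3) * cnt (V i) (EE i (g r)) (rep n i) (rep j i) := by ring
        _ ≤ 2 ^ (EE i r + 3) * (cnt (V i) (rep (m' r) i) (EE i (g r)) (rep j i) +
            cnt (V i) (rep (m' r) i) (rep n i) (rep j i)) := Nat.mul_le_mul_left _ g4
        _ = 2 ^ (EE i r + 3) * cnt (V i) (rep (m' r) i) (EE i (g r)) (rep j i) +
            2 ^ (EE i r + 3) * cnt (V i) (rep (m' r) i) (rep n i) (rep j i) := by ring
        _ ≤ 2 * rep j i := by omega
    omega
  have hee : ∀ r1 r2, r1 < r2 → NN.lt (e (g r1)) (e (g r2)) := by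
    intro r1 r2 h
    rw [mk_lt_iff]
    refine Eventually.of_forall fun i => ?_
    have h1 := (good i).e_lt (g r1)
    have h2 := (good i).e_le (g r2)
    have h3 : CC i (g r1 + 1) ≤ CC i (g r2) := CC_mono (hgm h)
    omega
  -- the thresholds
  have hth : ∀ r2, ∃ s, ∀ r1 < r2, ∀ j : Mo, NN.lt (e s) j → ∀ᶠ i in (U : Filter ℕ),
        2 ^ (EE i r1 + 2) * cnt (V i) (EE i (g r1)) (EE i (g r2)) (rep j i) ≤ rep j i := by
    intro r2
    have h1 : ∀ r1 < r2, ∃ s, ∀ j : Mo, NN.lt (e s) j → ∀ᶠ i in (U : Filter ℕ),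
        2 ^ (EE i r1 + 2) * cnt (V i) (EE i (g r1)) (EE i (g r2)) (rep j i) ≤ rep j i := by
      intro r1 hr
      obtain ⟨i0, hi0⟩ := hstar r1 (e (g r2)) (hee r1 r2 hr)
      obtain ⟨s, hs⟩ := cofinal i0
      refine ⟨s, fun j hj => ?_⟩
      have h2 := hi0 j (by
        show ∀ᶠ i in (U : Filter ℕ), _
        filter_upwards [lt_iff.1 hs, lt_iff.1 hj] with i h1 h2 using h1.trans h2)
      filter_upwards [h2, rep_mk (fun i => EE i (g r2)) (bdd_EE (g r2))] with i g1 g2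
      rw [← g2]; exact g1
    choose! s hs using h1
    refine ⟨(Finset.range r2).sup s, fun r1 hr j hj => hs r1 hr j ?_⟩
    show ∀ᶠ i in (U : Filter ℕ), _
    filter_upwards [lt_iff.1 hj, rep_mk (fun i => EE i (s r1)) (bdd_EE (s r1)),
      rep_mk (fun i => EE i ((Finset.range r2).sup s)) (bdd_EE ((Finset.range r2).sup s))]
      with i h1 h2 h3
    have h4 : rep (mk (fun i => EE i ((Finset.range r2).sup s)) (bdd_EE _)) i < rep j i := h1
    show rep (mk (fun i => EE i (s r1)) (bdd_EE (s r1))) i < rep j i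
    rw [h3] at h4
    rw [h2]
    exact (EE_mono (Finset.le_sup (Finset.mem_range.2 hr))).trans_lt h4
  choose h hh using hth
  -- internal version
  have hint : ∀ r1 r2, r1 < r2 → ∀ J, ∀ᶠ i in (U : Filter ℕ), ∀ z ≤ CC i J, EE i (h r2) < z →
      2 ^ (EE i r1 + 2) * cnt (V i) (EE i (g r1)) (EE i (g r2)) z ≤ z := by
    intro r1 r2 hr J
    apply ev_bdd_forall
    intro x hx _
    by_cases hlt : ∀ᶠ i in (U : Filter ℕ), EE i (h r2) < x i
    · have h1 := hh r2 r1 hr (mk x hx) (mk_lt_iff.2 hlt)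
      filter_upwards [h1, rep_mk x hx] with i g1 g2 _
      rwa [g2] at g1
    · rw [ev_not] at hlt
      filter_upwards [hlt] with i g1 g2
      exact absurd g2 g1
  -- codes
  obtain ⟨gc, hgcb, hgc⟩ := code_fun g
  obtain ⟨hc, hhcb, hhc⟩ := code_fun h
  -- the limit
  obtain ⟨t0, u0, hB, hB'⟩ := rep_BB
  obtain ⟨fp, hfp⟩ := exists_Lf (FIdx.lim true)
  obtain ⟨fn, hfn⟩ := exists_Lf (FIdx.lim false)
  obtain ⟨Z, t', u', q', hZ, hZ'⟩ := dec_lemma limDF fp fn hfp hfn hR hB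
    (hgcb.pair (hhcb.pair (bdd_id.pair (bdd_const 0))))
  have hZst : Z = st (fun i => limset (V i) (BB i) (gc i) (hc i) i) := by
    ext a
    rw [← mk_rep a, hZ', mk_mem_st]
    refine eventually_congr (Eventually.of_forall fun i => ?_)
    rw [hB']
    simp [limDF, limset, dec, hV]
  refine ⟨Z, ⟨t', u', q', q', hZ⟩, fun k => ?_⟩
  -- choose `r0`
  obtain ⟨r0, hr0⟩ := cofinal (mk (fun i => rep k i + i + 6)
    (((rep_bdd k).add bdd_id).add (bdd_const 6)))
  rw [mk_lt_iff] at hr0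
  refine ⟨e (g r0), fun n hn => ?_⟩
  obtain ⟨i1, hi1⟩ := hstar r0 n hn
  -- stabilisation
  let s : ℕ := (Finset.range (r0 + 1)).sup fun r => max (g r) (max (h r) r)
  have hs : ∀ r ≤ r0, g r ≤ s ∧ h r ≤ s ∧ r ≤ s := by
    intro r hr
    have : max (g r) (max (h r) r) ≤ s :=
      Finset.le_sup (f := fun r => max (g r) (max (h r) r)) (Finset.mem_range.2 (by omega))
    omega
  have hyb : Bdd (fun i => max (rep k i) (max i (2 * CC i (s + 1) + 1))) :=
    (rep_bdd k).max (bdd_id.max (((bdd_const 2).mul (bdd_CC (s + 1))).add (bdd_const 1)))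
  refine ⟨mk (fun i => max (rep i1 i)
    (2 ^ (4 * max (rep k i) (max i (2 * CC i (s + 1) + 1)) + 8)))
    ((rep_bdd i1).max hyb.grow), fun j hj => ?_⟩
  -- the set
  have hsd := symmDiff_st (sec_st hR.pos n) hZst
  obtain ⟨fp2, hfp2⟩ := exists_Lf (FIdx.sdt true)
  obtain ⟨fn2, hfn2⟩ := exists_Lf (FIdx.sdt false)
  obtain ⟨Z2, t2, u2, q2, hZ2, hZ2'⟩ := dec_lemma sdtDF fp2 fn2 hfp2 hfn2 hR hZ (rep_bdd n)
  have hsd2 : symmDiff (sec NN X n) Z = Z2 := by
    rw [symmDiff_st (sec_st hR.pos n) hZ.pos]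
    ext a
    rw [← mk_rep a, hZ2', mk_mem_st]
    exact Iff.rfl
  have hSS : symmDiff (sec NN X n) Z ∈ SS := by
    rw [hsd2]; exact ⟨t2, u2, q2, q2, hZ2⟩
  rw [rhoLe_iff hSS hsd j k]
  have hj1 : ∀ᶠ i in (U : Filter ℕ), max (rep i1 i)
      (2 ^ (4 * max (rep k i) (max i (2 * CC i (s + 1) + 1)) + 8)) < rep j i := by
    filter_upwards [lt_iff.1 hj, rep_mk (fun i => max (rep i1 i)
      (2 ^ (4 * max (rep k i) (max i (2 * CC i (s + 1) + 1)) + 8)))
      ((rep_bdd i1).max hyb.grow)] with i h1 h2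
    rwa [h2] at h1
  have hmain := hi1 j (by
    show ∀ᶠ i in (U : Filter ℕ), _
    filter_upwards [hj1] with i hi using (le_max_left _ _).trans_lt hi)
  obtain ⟨J, hJ⟩ := rep_bdd j
  have hgc' : ∀ᶠ i in (U : Filter ℕ), ∀ r ∈ Finset.range (r0 + 1), dec (gc i) r = g r :=
    (Filter.eventually_all_finset _).2 fun r _ => hgc r
  have hhc' : ∀ᶠ i in (U : Filter ℕ), ∀ r ∈ Finset.range (r0 + 1), dec (hc i) r = h r :=
    (Filter.eventually_all_finset _).2 fun r _ => hhc r
  have hint' : ∀ᶠ i in (U : Filter ℕ), ∀ r2 ∈ Finset.range (r0 + 1), ∀ r1 ∈ Finset.range r2,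
      ∀ z ≤ CC i J, EE i (h r2) < z →
      2 ^ (EE i r1 + 2) * cnt (V i) (EE i (g r1)) (EE i (g r2)) z ≤ z :=
    (Filter.eventually_all_finset _).2 fun r2 _ => (Filter.eventually_all_finset _).2 fun r1 hr1 =>
      hint r1 r2 (Finset.mem_range.1 hr1) J
  filter_upwards [hmain, hj1, hJ, hgc', hhc', hint', hr0, ev_ge r0]
    with i a1 a2 a3 a4 a5 a6 a7 a8
  set u1 := CC i (s + 1) with hu1
  set y := max (rep k i) (max i (2 * u1 + 1)) with hy
  have hcc : ∀ x ≤ s, ∀ q ≥ u1, cc (BB i) x q = EE i x := by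
    intro x hx q hq
    exact (good i).cc_eq x q ((CC_mono (by omega)).trans hq)
  have hm1 : ∀ q ≥ u1, cc (BB i) (dec (gc i) r0) q = EE i (g r0) := by
    intro q hq
    rw [a4 r0 (Finset.mem_range.2 (by omega))]
    exact hcc _ (hs r0 le_rfl).1 q hq
  have he1 : ∀ q ≥ u1, cc (BB i) r0 q = EE i r0 := fun q hq => hcc _ (hs r0 le_rfl).2.2 q hq
  have hok : ∀ z < rep j i, u1 ≤ 2 ^ Nat.log 2 z →
      OK (V i) (BB i) (gc i) (hc i) (2 ^ Nat.log 2 z) r0 z := by
    intro z hz hzu r1 r2 hr12 hr2 j' hj' hj'z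
    rw [a4 r1 (Finset.mem_range.2 (by omega)), a4 r2 (Finset.mem_range.2 (by omega)),
      hcc _ (hs r1 (by omega)).1 _ hzu, hcc _ (hs r2 hr2).1 _ hzu,
      hcc _ (hs r1 (by omega)).2.2 _ hzu]
    rw [a5 r2 (Finset.mem_range.2 (by omega)), hcc _ (hs r2 hr2).2.1 _ hzu] at hj'
    exact a6 r2 (Finset.mem_range.2 (by omega)) r1 (Finset.mem_range.2 hr12) j'
      (by omega) hj'
  have herr := err_card (V := V i) (W := BB i) (g := gc i) (h := hc i) (b := i) a8 hm1 he1 hok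
  have ha := err_arith (y := y) (k := rep k i) (b := i) (u := u1) (j := rep j i)
    (le_max_left _ _) ((le_max_left _ _).trans (le_max_right _ _))
    ((le_max_right _ _).trans (le_max_right _ _))
    ((le_max_right _ _).trans a2.le) a7.le herr
  have htri := xor_card_le (A := {z | pr z (rep n i) ∈ V i}) (B := {z | pr z (EE i (g r0)) ∈ V i})
    (C := limset (V i) (BB i) (gc i) (hc i) i) (rep j i)
  have hb1 : 2 ^ (rep k i + 1) * cnt (V i) (EE i (g r0)) (rep n i) (rep j i) ≤ rep j i :=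
    le_trans (Nat.mul_le_mul_right _ (Nat.pow_le_pow_right (by norm_num) (by omega))) a1
  have h5 : 2 * (2 ^ rep k i * (tr {z | z ∈ {z | pr z (rep n i) ∈ V i} ↔
      ¬ z ∈ limset (V i) (BB i) (gc i) (hc i) i} (rep j i)).ncard) ≤ 2 * rep j i := by
    calc 2 * (2 ^ rep k i * (tr {z | z ∈ {z | pr z (rep n i) ∈ V i} ↔
          ¬ z ∈ limset (V i) (BB i) (gc i) (hc i) i} (rep j i)).ncard)
        = 2 ^ (rep k i + 1) * (tr {z | z ∈ {z | pr z (rep n i) ∈ V i} ↔
          ¬ z ∈ limset (V i) (BB i) (gc i) (hc i) i} (rep j i)).ncard := by ring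
      _ ≤ 2 ^ (rep k i + 1) * (cnt (V i) (EE i (g r0)) (rep n i) (rep j i) +
          (tr {z | pr z (EE i (g r0)) ∈ V i ↔ ¬ z ∈ limset (V i) (BB i) (gc i) (hc i) i}
          (rep j i)).ncard) := Nat.mul_le_mul_left _ htri
      _ = 2 ^ (rep k i + 1) * cnt (V i) (EE i (g r0)) (rep n i) (rep j i) +
          2 ^ (rep k i + 1) * (tr {z | pr z (EE i (g r0)) ∈ V i ↔
          ¬ z ∈ limset (V i) (BB i) (gc i) (hc i) i} (rep j i)).ncard := by ring
      _ ≤ 2 * rep j i := by omega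
  exact Nat.le_of_mul_le_mul_left h5 (by norm_num)

end Pool.Agent.Helper25_RM
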