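import Mathlib

/-!
# Models of second-order arithmetic, `RCA₀`, `BΣ⁰₂`, `DOM`, completeness of the density metric
-/

set_option autoImplicit false

namespace Pool.Agent.Helper25_RM

/-- A structure for the language of second-order arithmetic: a set `M` of numbers with
`0, 1, +, ·, <` and a family `S` of subsets of `M`, over which the set variables range. -/
structure L2Model where
  M : Type
  zero : M
  one : M
  add : M → M → M
  mul : M → M → M
  lt : M → M → Prop
  S : Set (Set M)

/-- Number terms: variables `x₀, x₁, …`, the constants `0, 1`, sums and products. -/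
inductive Tm
  | var (i : ℕ)
  | zero
  | one
  | add (s t : Tm)
  | mul (s t : Tm)
  deriving Countable

/-- Bounded-quantifier formulas (`Σ⁰₀` formulas) of second-order arithmetic: built from
`s = t`, `s < t`, `t ∈ X_i` by negation, conjunction and bounded universal number quantifiers
`ball i t φ`, which stands for `∀ x_i < t, φ`. -/
inductive Fm
  | eq (s t : Tm)
  | lt (s t : Tm)
  | mem (t : Tm) (i : ℕ)
  | neg (φ : Fm)
  | and (φ ψ : Fm)
  | ball (i : ℕ) (t : Tm) (φ : Fm)
  deriving Countable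

/-- The value of a term under an assignment `v` of the number variables. -/
def Tm.eval (N : L2Model) (v : ℕ → N.M) : Tm → N.M
  | Tm.var i => v i
  | Tm.zero => N.zero
  | Tm.one => N.one
  | Tm.add s t => N.add (s.eval N v) (t.eval N v)
  | Tm.mul s t => N.mul (s.eval N v) (t.eval N v)

/-- Truth of a bounded-quantifier formula in `N` under the assignment `v` of the number variables
and `V` of the set variables. (In `∀ x_i < t, φ` the bound `t` is evaluated outside.) -/
def Fm.Sat (N : L2Model) : Fm → (ℕ → N.M) → (ℕ → Set N.M) → Prop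
  | Fm.eq s t, v, _ => s.eval N v = t.eval N v
  | Fm.lt s t, v, _ => N.lt (s.eval N v) (t.eval N v)
  | Fm.mem t i, v, V => t.eval N v ∈ V i
  | Fm.neg φ, v, V => ¬ φ.Sat N v V
  | Fm.and φ ψ, v, V => φ.Sat N v V ∧ ψ.Sat N v V
  | Fm.ball i t φ, v, V => ∀ a, N.lt a (t.eval N v) → φ.Sat N (Function.update v i a) V

/-- The assignment `v` with the value of `x₀` changed to `a` and that of `x₁` to `b`. -/
def set2 {M : Type} (v : ℕ → M) (a b : M) : ℕ → M :=
  Function.update (Function.update v 0 a) 1 b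

/-- The assignment `v` with the values of `x₀, x₁, x₂` changed to `a, b, c`. -/
def set3 {M : Type} (v : ℕ → M) (a b c : M) : ℕ → M :=
  Function.update (set2 v a b) 2 c

/-- The assignment `v` with the values of `x₀, x₁, x₂, x₃` changed to `a, b, c, d`. -/
def set4 {M : Type} (v : ℕ → M) (a b c d : M) : ℕ → M :=
  Function.update (set3 v a b c) 3 d

/-- `N` is a model of `RCA₀`: the basic axioms, the induction scheme for `Σ⁰₁` formulas
`∃ x₁ φ(x₀, x₁)` (`φ` bounded, with arbitrary number and set parameters), and the comprehension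
scheme for `Δ⁰₁` formulas. -/
structure IsRCA0 (N : L2Model) : Prop where
  succ_ne_zero : ∀ n, N.add n N.one ≠ N.zero
  succ_inj : ∀ m n, N.add m N.one = N.add n N.one → m = n
  add_zero : ∀ m, N.add m N.zero = m
  add_succ : ∀ m n, N.add m (N.add n N.one) = N.add (N.add m n) N.one
  mul_zero : ∀ m, N.mul m N.zero = N.zero
  mul_succ : ∀ m n, N.mul m (N.add n N.one) = N.add (N.mul m n) m
  not_lt_zero : ∀ m, ¬ N.lt m N.zero
  lt_succ : ∀ m n, N.lt m (N.add n N.one) ↔ N.lt m n ∨ m = n
  induction : ∀ (φ : Fm) (v : ℕ → N.M) (V : ℕ → Set N.M), (∀ i, V i ∈ N.S) →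
    (∃ b, φ.Sat N (set2 v N.zero b) V) →
    (∀ a, (∃ b, φ.Sat N (set2 v a b) V) → ∃ b, φ.Sat N (set2 v (N.add a N.one) b) V) →
    ∀ a, ∃ b, φ.Sat N (set2 v a b) V
  comprehension : ∀ (φ ψ : Fm) (v : ℕ → N.M) (V : ℕ → Set N.M), (∀ i, V i ∈ N.S) →
    (∀ a, (∃ b, φ.Sat N (set2 v a b) V) ↔ ∀ b, ψ.Sat N (set2 v a b) V) →
    ∃ X ∈ N.S, ∀ a, a ∈ X ↔ ∃ b, φ.Sat N (set2 v a b) V

/-- The `Σ⁰₂` bounding scheme, for `Σ⁰₂` formulas `∃ x₂ ∀ x₃ φ(x₀, x₁, x₂, x₃)` (`φ` bounded,
with arbitrary number and set parameters). -/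
def BSigma2 (N : L2Model) : Prop :=
  ∀ (φ : Fm) (v : ℕ → N.M) (V : ℕ → Set N.M), (∀ i, V i ∈ N.S) → ∀ n,
    (∀ i, N.lt i n → ∃ j, ∃ u, ∀ w, φ.Sat N (set4 v i j u w) V) →
    ∃ m, ∀ i, N.lt i n → ∃ j, N.lt j m ∧ ∃ u, ∀ w, φ.Sat N (set4 v i j u w) V

/-- `a ≤ b` -/
def Le (N : L2Model) (a b : N.M) : Prop := N.lt a b ∨ a = b

/-- The pairing function `(a, b) = (a + b)² + a`. -/
def pair (N : L2Model) (a b : N.M) : N.M := N.add (N.mul (N.add a b) (N.add a b)) a

/-- The function `f` from numbers to numbers belongs to the model: its graph, coded by means of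
the pairing function, is one of the sets of the model. -/
def IsFun (N : L2Model) (f : N.M → N.M) : Prop :=
  ∃ X ∈ N.S, ∀ a b, pair N a b ∈ X ↔ f a = b

/-- The `n`-th set `{z : (z, n) ∈ X}` of the sequence of sets coded by `X`. -/
def sec (N : L2Model) (X : Set N.M) (n : N.M) : Set N.M := {z | pair N z n ∈ X}

/-- `c` is the counting function of `D` in the model: `c n = |{m < n : m ∈ D}|`, defined by
primitive recursion. -/
def IsCount (N : L2Model) (D : Set N.M) (c : N.M → N.M) : Prop :=
  IsFun N c ∧ c N.zero = N.zero ∧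
    ∀ n, (n ∈ D → c (N.add n N.one) = N.add (c n) N.one) ∧ (n ∉ D → c (N.add n N.one) = c n)

/-- `e` is the function `n ↦ 2 ^ n` in the model, defined by primitive recursion. -/
def IsPow (N : L2Model) (e : N.M → N.M) : Prop :=
  IsFun N e ∧ e N.zero = N.one ∧ ∀ n, e (N.add n N.one) = N.add (e n) (e n)

/-- `ρ_j(D) ≤ 2^{-k}`, that is `2^k · |{m < j : m ∈ D}| ≤ j`. -/
def RhoLe (N : L2Model) (D : Set N.M) (j k : N.M) : Prop :=
  ∃ c e, IsCount N D c ∧ IsPow N e ∧ Le N (N.mul (e k) (c j)) j

/-- The sequence of sets coded by `X` is `δ`-Cauchy. -/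
def IsCauchy (N : L2Model) (X : Set N.M) : Prop :=
  ∀ k, ∃ m, ∀ n, N.lt m n → ∃ i, ∀ j, N.lt i j → RhoLe N (symmDiff (sec N X m) (sec N X n)) j k

/-- `A` is a limit of the sequence of sets coded by `X`. -/
def IsLimit (N : L2Model) (X A : Set N.M) : Prop :=
  ∀ k, ∃ m, ∀ n, N.lt m n → ∃ i, ∀ j, N.lt i j → RhoLe N (symmDiff (sec N X n) A) j k

/-- Completeness of `(𝒮, δ)`: every `δ`-Cauchy sequence of the model has a limit in the model. -/
def Completeness (N : L2Model) : Prop :=
  ∀ X ∈ N.S, IsCauchy N X → ∃ A ∈ N.S, IsLimit N X A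

/-- `g` is an `X`-computable function in the sense of the model: its graph is defined in the model
by a `Σ⁰₁` formula `∃ x₂ φ(x₀, x₁, x₂)` with number parameters and with `X` as the only set
parameter. (With number parameters allowed, it is the same to use a universal `Σ⁰₁` formula.) -/
def ComputableIn (N : L2Model) (X : Set N.M) (g : N.M → N.M) : Prop :=
  ∃ (φ : Fm) (v : ℕ → N.M), ∀ a b, g a = b ↔ ∃ c, φ.Sat N (set3 v a b c) (fun _ => X)

/-- `DOM`: for every `X` there is a function `f` dominating every `X`-computable function. -/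
def DOM (N : L2Model) : Prop :=
  ∀ X ∈ N.S, ∃ f, IsFun N f ∧ ∀ g, ComputableIn N X g → ∃ n₀, ∀ n, N.lt n₀ n → Le N (g n) (f n)

end Pool.Agent.Helper25_RM
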