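import Mathlib

/-!
# The standard-level construction

For every sequence of predicates `P` and growth function `H` there is a set `B`, which codes the
predicates `P` relative to itself, and a sequence `c` such that `c (j+1)` bounds witnesses.
-/

set_option autoImplicit false

namespace Pool.Agent.Helper25_RM

/-- pairing function -/
def pr (a b : ℕ) : ℕ := (a + b) * (a + b) + a

theorem pr_inj {a b a' b' : ℕ} (h : pr a b = pr a' b') : a = a' ∧ b = b' := by
  unfold pr at h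
  have h1 : a + b = a' + b' := by
    rcases lt_trichotomy (a + b) (a' + b') with h2 | h2 | h2
    · exfalso
      have : a + b + 1 ≤ a' + b' := h2
      nlinarith
    · exact h2
    · exfalso
      have : a' + b' + 1 ≤ a + b := h2
      nlinarith
  rw [h1] at h
  omega

theorem pr_inj_iff {a b a' b' : ℕ} : pr a b = pr a' b' ↔ a = a' ∧ b = b' :=
  ⟨pr_inj, by rintro ⟨rfl, rfl⟩; rfl⟩

theorem le_pr_left (a b : ℕ) : a ≤ pr a b := Nat.le_add_left _ _

theorem le_pr_right (a b : ℕ) : b ≤ pr a b := by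
  unfold pr
  have h : a + b ≤ (a + b) * (a + b) := Nat.le_mul_self _
  omega

theorem pr_mono {a b a' b' : ℕ} (h : a ≤ a') (h' : b ≤ b') : pr a b ≤ pr a' b' := by
  unfold pr
  gcongr

/-- initial part of a set -/
def tr (B : Set ℕ) (s : ℕ) : Set ℕ := {x | x ∈ B ∧ x < s}

theorem tr_tr {B : Set ℕ} {s s' : ℕ} (h : s' ≤ s) : tr (tr B s) s' = tr B s' := by
  ext x
  simp only [tr, Set.mem_ofPred_eq]
  constructor
  · rintro ⟨⟨h1, _⟩, h2⟩; exact ⟨h1, h2⟩
  · rintro ⟨h1, h2⟩; exact ⟨⟨h1, by omega⟩, h2⟩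

theorem tr_self {B : Set ℕ} {s : ℕ} (h : ∀ x ∈ B, x < s) : tr B s = B := by
  ext x
  simp only [tr, Set.mem_ofPred_eq]
  exact ⟨fun h => h.1, fun h' => ⟨h', h x h'⟩⟩

/-- predicates `P x p s β` -/
abbrev Pred := ℕ → ℕ → ℕ → Set ℕ → Prop

/-- locations of the coding -/
def loc (t x p s : ℕ) : ℕ := 2 * pr t (pr x (pr p s)) + 1

theorem lt_loc (t x p s : ℕ) : s < loc t x p s := by
  unfold loc
  have h1 := le_pr_right p s
  have h2 := le_pr_right x (pr p s)
  have h3 := le_pr_right t (pr x (pr p s))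
  omega

theorem loc_inj {t x p s t' x' p' s' : ℕ} (h : loc t x p s = loc t' x' p' s') :
    t = t' ∧ x = x' ∧ p = p' ∧ s = s' := by
  unfold loc at h
  have h1 : pr t (pr x (pr p s)) = pr t' (pr x' (pr p' s')) := by omega
  obtain ⟨rfl, h2⟩ := pr_inj h1
  obtain ⟨rfl, h3⟩ := pr_inj h2
  obtain ⟨rfl, rfl⟩ := pr_inj h3
  exact ⟨rfl, rfl, rfl, rfl⟩

/-- coherence up to length `l` -/
def Coh (P : ℕ → Pred) (l : ℕ) (S : Set ℕ) : Prop :=
  ∀ t x p s, loc t x p s < l → (loc t x p s ∈ S ↔ P t x p s (tr S s))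

theorem fill_step (P : ℕ → Pred) (E : Set ℕ) (hE : ∀ x ∈ E, Even x) (l : ℕ) (S : Set ℕ)
    (hS : Coh P l S) (hb : ∀ x ∈ S, x < l) :
    ∃ S', (∀ x ∈ S', x < l + 1) ∧ Coh P (l + 1) S' ∧ tr S' l = S ∧
      (∀ k, 2 * k = l → (2 * k ∈ S' ↔ 2 * k ∈ E)) := by
  classical
  set S' : Set ℕ := {x | x ∈ S ∨ (x = l ∧ ((∃ t x p s, l = loc t x p s ∧ P t x p s (tr S s)) ∨ l ∈ E))}
    with hS'
  have htr : tr S' l = S := by
    ext x
    simp only [tr, hS', Set.mem_ofPred_eq]
    constructor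
    · rintro ⟨h1 | h1, h2⟩
      · exact h1
      · omega
    · intro h; exact ⟨Or.inl h, hb x h⟩
  have htr' : ∀ s ≤ l, tr S' s = tr S s := by
    intro s hs
    rw [← htr, tr_tr hs]
  refine ⟨S', ?_, ?_, htr, ?_⟩
  · rintro x (h | h)
    · have := hb x h; omega
    · omega
  · intro t x p s hl
    have hs := lt_loc t x p s
    rw [htr' s (by omega)]
    rcases Nat.lt_succ_iff_lt_or_eq.1 hl with h | h
    · rw [← hS t x p s h]
      simp only [hS', Set.mem_ofPred_eq]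
      constructor
      · rintro (h1 | h1)
        · exact h1
        · omega
      · exact Or.inl
    · simp only [hS', Set.mem_ofPred_eq]
      constructor
      · rintro (h1 | ⟨_, ⟨t', x', p', s', h1, h2⟩ | h1⟩)
        · have := hb _ h1; omega
        · obtain ⟨rfl, rfl, rfl, rfl⟩ := loc_inj (h.trans h1)
          exact h2
        · exfalso
          have := hE l h1
          rw [← h] at this
          unfold loc at this
          rcases this with ⟨k, hk⟩
          omega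
      · intro h1
        exact Or.inr ⟨h, Or.inl ⟨t, x, p, s, h.symm, h1⟩⟩
  · intro k hk
    simp only [hS', Set.mem_ofPred_eq]
    constructor
    · rintro (h1 | ⟨_, ⟨t', x', p', s', h1, h2⟩ | h1⟩)
      · have := hb _ h1; omega
      · exfalso; unfold loc at h1; omega
      · rwa [hk]
    · intro h1
      refine Or.inr ⟨hk, Or.inr ?_⟩
      rwa [← hk]

theorem fill (P : ℕ → Pred) (E : Set ℕ) (hE : ∀ x ∈ E, Even x) (l : ℕ) (S : Set ℕ)
    (hS : Coh P l S) (hb : ∀ x ∈ S, x < l) (d : ℕ) :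
    ∃ S', (∀ x ∈ S', x < l + d) ∧ Coh P (l + d) S' ∧ tr S' l = S ∧
      (∀ k, l ≤ 2 * k → 2 * k < l + d → (2 * k ∈ S' ↔ 2 * k ∈ E)) := by
  induction d with
  | zero => exact ⟨S, hb, hS, tr_self hb, fun k h1 h2 => by omega⟩
  | succ d ih =>
    obtain ⟨S1, h1, h2, h3, h4⟩ := ih
    obtain ⟨S2, g1, g2, g3, g4⟩ := fill_step P E hE (l + d) S1 h2 h1
    refine ⟨S2, g1, g2, ?_, ?_⟩
    · rw [← h3, ← g3, tr_tr (by omega)]
    · intro k hk1 hk2
      rcases Nat.lt_or_ge (2 * k) (l + d) with h | h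
      · rw [← h4 k hk1 h, ← g3]
        simp only [tr, Set.mem_ofPred_eq]
        exact ⟨fun h' => ⟨h', h⟩, fun h' => h'.1⟩
      · exact g4 k (by omega)

/-- a string: a length and a set -/
abbrev Str := ℕ × Set ℕ

/-- good strings -/
def Str.Ok (P : ℕ → Pred) (σ : Str) : Prop := Coh P σ.1 σ.2 ∧ ∀ x ∈ σ.2, x < σ.1

/-- legal extensions -/
def Ext (P : ℕ → Pred) (j : ℕ) (σ τ : Str) : Prop :=
  τ.Ok P ∧ σ.1 ≤ τ.1 ∧ tr τ.2 σ.1 = σ.2 ∧ ∀ i < j, ∀ z, 2 * pr i z ∈ τ.2 → 2 * pr i z ∈ σ.2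

theorem Ext.refl {P : ℕ → Pred} {j : ℕ} {σ : Str} (h : σ.Ok P) : Ext P j σ σ :=
  ⟨h, le_refl _, tr_self h.2, fun _ _ _ h => h⟩

theorem Ext.trans {P : ℕ → Pred} {j : ℕ} {σ τ υ : Str} (h : Ext P j σ τ) (h' : Ext P j τ υ) :
    Ext P j σ υ := by
  obtain ⟨_, h2, h3, h4⟩ := h
  obtain ⟨g1, g2, g3, g4⟩ := h'
  refine ⟨g1, h2.trans g2, ?_, fun i hi z hz => h4 i hi z (g4 i hi z hz)⟩
  rw [← h3, ← g3, tr_tr h2]

theorem Ext.anti {P : ℕ → Pred} {i j : ℕ} {σ τ : Str} (hij : i ≤ j) (h : Ext P j σ τ) :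
    Ext P i σ τ :=
  ⟨h.1, h.2.1, h.2.2.1, fun k hk => h.2.2.2 k (by omega)⟩

/-- facts -/
def Fact (P : ℕ → Pred) (σ : Str) (t x p : ℕ) : Prop := ∃ s ≤ σ.1, P t x p s (tr σ.2 s)

theorem Fact.ext {P : ℕ → Pred} {j : ℕ} {σ τ : Str} (h : Ext P j σ τ) {t x p : ℕ}
    (hf : Fact P σ t x p) : Fact P τ t x p := by
  obtain ⟨s, hs, h1⟩ := hf
  refine ⟨s, hs.trans h.2.1, ?_⟩
  rw [← h.2.2.1, tr_tr hs] at h1
  exact h1

open Classical in
/-- finite set of facts -/
noncomputable def facts (P : ℕ → Pred) (m : ℕ) (σ : Str) : Finset (ℕ × ℕ × ℕ) :=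
  (Finset.range m ×ˢ Finset.range m ×ˢ Finset.range m).filter
    (fun q => Fact P σ q.1 q.2.1 q.2.2)

theorem exists_max (P : ℕ → Pred) (j m : ℕ) (σ : Str) (hσ : σ.Ok P) :
    ∃ τ, Ext P j σ τ ∧ ∀ υ, Ext P j τ υ → ∀ t x p, t < m → x < m → p < m →
      Fact P υ t x p → Fact P τ t x p := by
  classical
  have key : ∀ n (σ : Str), σ.Ok P → m * (m * m) - (facts P m σ).card ≤ n →
      ∃ τ, Ext P j σ τ ∧ ∀ υ, Ext P j τ υ → ∀ t x p, t < m → x < m → p < m →
      Fact P υ t x p → Fact P τ t x p := by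
    intro n
    induction n with
    | zero =>
      intro σ hσ hc
      refine ⟨σ, Ext.refl hσ, ?_⟩
      intro υ hυ t x p ht hx hp hf
      have hsub : facts P m σ ⊆ (Finset.range m ×ˢ Finset.range m ×ˢ Finset.range m) :=
        Finset.filter_subset _ _
      have hcard : (Finset.range m ×ˢ Finset.range m ×ˢ Finset.range m).card = m * (m * m) := by
        simp
      have heq : facts P m σ = (Finset.range m ×ˢ Finset.range m ×ˢ Finset.range m) :=
        Finset.eq_of_subset_of_card_le hsub (by rw [hcard]; omega)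
      have : (t, x, p) ∈ facts P m σ := by
        rw [heq]; simp [ht, hx, hp]
      exact (Finset.mem_filter.1 this).2
    | succ n ih =>
      intro σ hσ hc
      by_cases h : ∀ υ, Ext P j σ υ → ∀ t x p, t < m → x < m → p < m →
          Fact P υ t x p → Fact P σ t x p
      · exact ⟨σ, Ext.refl hσ, h⟩
      · push Not at h
        obtain ⟨υ, hυ, t, x, p, ht, hx, hp, h1, h2⟩ := h
        have hss : facts P m σ ⊂ facts P m υ := by
          rw [Finset.ssubset_iff_of_subset]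
          · refine ⟨(t, x, p), ?_, ?_⟩
            · simp [facts, ht, hx, hp, h1]
            · simp [facts, h2]
          · intro q hq
            simp only [facts, Finset.mem_filter] at hq ⊢
            exact ⟨hq.1, hq.2.ext hυ⟩
        have hlt := Finset.card_lt_card hss
        have hle : (facts P m υ).card ≤ m * (m * m) := by
          refine (Finset.card_le_card (Finset.filter_subset _ _)).trans ?_
          simp
        obtain ⟨τ, hτ, h3⟩ := ih υ hυ.1 (by omega)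
        exact ⟨τ, hυ.trans hτ, h3⟩
  exact key _ σ hσ le_rfl

theorem stage (P : ℕ → Pred) (j : ℕ) (h : ℕ) (σ : Str) (hσ : σ.Ok P) :
    ∃ τ : Str, ∃ e, Ext P j σ τ ∧ σ.1 ≤ e ∧ e < τ.1 ∧ 2 * pr j e ∈ τ.2 ∧
      (∀ z, 2 * pr j z ∈ τ.2 → z ≤ e) ∧ h ≤ τ.1 ∧
      ∀ υ, Ext P j τ υ → ∀ t x p, t ≤ j → x ≤ σ.1 → p ≤ σ.1 → Fact P υ t x p → Fact P τ t x p := by
  obtain ⟨τ, hτ, hmax⟩ := exists_max P j (j + σ.1 + 1) σ hσ
  obtain ⟨S, h1, h2, h3, h4⟩ := fill P {2 * pr j τ.1} (by simp) τ.1 τ.2 hτ.1.1 hτ.1.2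
    (h + 2 * pr j τ.1 + 1)
  have hext : Ext P j τ (τ.1 + (h + 2 * pr j τ.1 + 1), S) := by
    refine ⟨⟨h2, h1⟩, by simp, h3, ?_⟩
    intro i hi z hz
    rcases Nat.lt_or_ge (2 * pr i z) τ.1 with h5 | h5
    · rw [← h3]; exact ⟨hz, h5⟩
    · have := (h4 _ h5 (h1 _ hz)).1 hz
      simp only [Set.mem_singleton_iff] at this
      have := (pr_inj (show pr i z = pr j τ.1 by omega)).1
      omega
  refine ⟨(τ.1 + (h + 2 * pr j τ.1 + 1), S), τ.1, hτ.trans hext, hτ.2.1, ?_, ?_, ?_, ?_, ?_⟩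
  · simp only; omega
  · have := le_pr_right j τ.1
    exact (h4 _ (by omega) (by omega)).2 rfl
  · intro z hz
    rcases Nat.lt_or_ge (2 * pr j z) τ.1 with h5 | h5
    · have := le_pr_right j z
      omega
    · have := (h4 _ h5 (h1 _ hz)).1 hz
      simp only [Set.mem_singleton_iff] at this
      have := (pr_inj (show pr j z = pr j τ.1 by omega)).2
      omega
  · simp only; omega
  · intro υ hυ t x p ht hx hp hf
    exact (hmax υ (hext.trans hυ) t x p (by omega) (by omega) (by omega) hf).ext hext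

/-- the greatest element of column `i` of `B` below `s` -/
noncomputable def cc (B : Set ℕ) (i s : ℕ) : ℕ :=
  open Classical in Nat.findGreatest (fun z => 2 * pr i z ∈ B) (s - 1)

theorem std_construct (P : ℕ → Pred) (H : ℕ → ℕ → ℕ) (n : ℕ) :
    ∃ (B : Set ℕ) (c e : ℕ → ℕ), n ≤ c 0 ∧ StrictMono c ∧ (∀ j, H j (c j) ≤ c (j + 1)) ∧
      (∀ t x p s, loc t x p s ∈ B ↔ P t x p s (tr B s)) ∧
      (∀ j t x p, t ≤ j → x ≤ c j → p ≤ c j → (∃ s, P t x p s (tr B s)) →
        ∃ s ≤ c (j + 1), P t x p s (tr B s)) ∧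
      (∀ j, c j ≤ e j ∧ e j < c (j + 1)) ∧
      (∀ j s, c (j + 1) ≤ s → cc B j s = e j) := by
  classical
  choose! nx ne hnx using fun (j : ℕ) (σ : Str) (hσ : σ.Ok P) => stage P j (H j σ.1) σ hσ
  obtain ⟨S0, i1, i2, -, -⟩ := fill P ∅ (by simp) 0 ∅ (fun _ _ _ _ h => by omega) (by simp) n
  let σ : ℕ → Str := fun j => Nat.rec (0 + n, S0) (fun j τ => nx j τ) j
  have hσ0 : σ 0 = (0 + n, S0) := rfl
  have hσs : ∀ j, σ (j + 1) = nx j (σ j) := fun j => rfl
  have hok : ∀ j, (σ j).Ok P := by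
    intro j
    induction j with
    | zero => exact ⟨i2, i1⟩
    | succ j ih => rw [hσs]; exact (hnx j (σ j) ih).1.1
  have hn : ∀ j, _ := fun j => hnx j (σ j) (hok j)
  have hext : ∀ j, Ext P j (σ j) (σ (j + 1)) := fun j => (hn j).1
  have hext' : ∀ i j d, i ≤ j → Ext P i (σ j) (σ (j + d)) := by
    intro i j d hij
    induction d with
    | zero => exact Ext.refl (hok j)
    | succ d ih => exact ih.trans ((hext (j + d)).anti (by omega))
  have hmono : StrictMono (fun j => (σ j).1) := by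
    refine strictMono_nat_of_lt_succ fun j => ?_
    have := hn j
    rw [← hσs j] at this
    omega
  set B : Set ℕ := {x | ∃ j, x ∈ (σ j).2} with hB
  have htrB : ∀ j, tr B (σ j).1 = (σ j).2 := by
    intro j
    ext x
    simp only [tr, hB, Set.mem_ofPred_eq]
    constructor
    · rintro ⟨⟨i, hi⟩, hx⟩
      rcases le_total i j with hij | hij
      · obtain ⟨d, rfl⟩ := Nat.exists_eq_add_of_le hij
        have := (hext' i i d le_rfl).2.2.1
        rw [← this] at hi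
        exact hi.1
      · obtain ⟨d, rfl⟩ := Nat.exists_eq_add_of_le hij
        have := (hext' j j d le_rfl).2.2.1
        rw [← this]
        exact ⟨hi, hx⟩
    · intro hx
      exact ⟨⟨j, hx⟩, (hok j).2 x hx⟩
  have htrB' : ∀ j s, s ≤ (σ j).1 → tr B s = tr (σ j).2 s := by
    intro j s hs
    rw [← htrB j, tr_tr hs]
  have hbig : ∀ s, ∃ j, s ≤ (σ j).1 := fun s => ⟨s, hmono.id_le s⟩
  refine ⟨B, fun j => (σ j).1, fun j => ne j (σ j), ?_, hmono, ?_, ?_, ?_, ?_, ?_⟩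
  · simp [hσ0]
  · intro j
    have := (hn j).2.2.2.2.2.1
    rwa [← hσs j] at this
  · intro t x p s
    obtain ⟨j, hj⟩ := hbig (loc t x p s + 1)
    have hs := lt_loc t x p s
    rw [htrB' j s (by omega), ← (hok j).1 t x p s (by omega)]
    constructor
    · intro h
      rw [← htrB j]
      exact ⟨h, by omega⟩
    · intro h; exact ⟨j, h⟩
  · intro j t x p ht hx hp ⟨s, hs⟩
    obtain ⟨i, hi⟩ := hbig s
    have hi' : s ≤ (σ (j + 1 + i)).1 := hi.trans (hmono.monotone (by omega))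
    have hf : Fact P (σ (j + 1 + i)) t x p := ⟨s, hi', by rwa [← htrB' _ s hi']⟩
    have := (hn j).2.2.2.2.2.2 (σ (j + 1 + i)) (by rw [← hσs j]; exact hext' _ _ _ (by omega))
      t x p ht hx hp hf
    rw [← hσs j] at this
    obtain ⟨s', hs', h1⟩ := this
    exact ⟨s', hs', by rwa [htrB' (j + 1) s' hs']⟩
  · intro j
    have := hn j
    rw [← hσs j] at this
    exact ⟨this.2.1, this.2.2.1⟩
  · intro j s hs
    have h1 := hn j
    rw [← hσs j] at h1
    obtain ⟨-, h2, h3, h4, h5, -⟩ := h1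
    unfold cc
    simp only at hs ⊢
    rw [Nat.findGreatest_eq_iff]
    refine ⟨by omega, fun _ => ⟨j + 1, h4⟩, ?_⟩
    intro z hz1 hz2 ⟨i, hi⟩
    have h6 : 2 * pr j z ∈ (σ (j + 1 + i)).2 := by
      have := (hext' i i (j + 1) le_rfl).2.2.1
      rw [← this] at hi
      have h7 := hi.1
      rwa [show i + (j + 1) = j + 1 + i by omega] at h7
    have h7 := (hext' (j + 1) (j + 1) i le_rfl).2.2.2 j (by omega) z h6
    have := h5 z h7
    omega

end Pool.Agent.Helper25_RM
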