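import Pool.Agent.Helper25_RM.Defs
import Pool.Agent.Helper25_RM.Std

/-!
# Local functionals
-/

set_option autoImplicit false

namespace Pool.Agent.Helper25_RM

/-- decoding of finite sequences -/
def dec : ℕ → ℕ → ℕ
  | p, 0 => (Nat.unpair p).1
  | p, i + 1 => dec (Nat.unpair p).2 i

theorem dec_le (p i : ℕ) : dec p i ≤ p := by
  induction i generalizing p with
  | zero => exact Nat.unpair_left_le p
  | succ i ih => exact (ih _).trans (Nat.unpair_right_le p)

@[simp] theorem dec_pair_zero (a b : ℕ) : dec (Nat.pair a b) 0 = a := by simp [dec]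
@[simp] theorem dec_pair_succ (a b i : ℕ) : dec (Nat.pair a b) (i + 1) = dec b i := by simp [dec]

/-- the standard model -/
abbrev Nstd : L2Model where
  M := ℕ
  zero := 0
  one := 1
  add := (· + ·)
  mul := (· * ·)
  lt := (· < ·)
  S := Set.univ

/-- bound for the variables of a term -/
def Tm.bd : Tm → ℕ
  | Tm.var i => i + 1
  | Tm.zero => 0
  | Tm.one => 0
  | Tm.add s t => max s.bd t.bd
  | Tm.mul s t => max s.bd t.bd

/-- bound for the value of a term -/
def Tm.vb : Tm → ℕ → ℕ
  | Tm.var _, m => m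
  | Tm.zero, _ => 0
  | Tm.one, _ => 1
  | Tm.add s t, m => s.vb m + t.vb m
  | Tm.mul s t, m => s.vb m * t.vb m

theorem Tm.eval_le (t : Tm) (m : ℕ) (v : ℕ → ℕ) (h : ∀ i < t.bd, v i ≤ m) :
    (t.eval Nstd v : ℕ) ≤ t.vb m := by
  induction t with
  | var i => exact h i (Nat.lt_succ_self i)
  | zero => exact le_refl _
  | one => exact le_refl _
  | add s t ihs iht =>
    exact Nat.add_le_add (ihs fun i hi => h i (lt_of_lt_of_le hi (le_max_left _ _)))
      (iht fun i hi => h i (lt_of_lt_of_le hi (le_max_right _ _)))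
  | mul s t ihs iht =>
    exact Nat.mul_le_mul (ihs fun i hi => h i (lt_of_lt_of_le hi (le_max_left _ _)))
      (iht fun i hi => h i (lt_of_lt_of_le hi (le_max_right _ _)))

theorem Tm.eval_congr (N : L2Model) (t : Tm) (v v' : ℕ → N.M) (h : ∀ i < t.bd, v i = v' i) :
    t.eval N v = t.eval N v' := by
  induction t with
  | var i => exact h i (Nat.lt_succ_self i)
  | zero => rfl
  | one => rfl
  | add s t ihs iht =>
    simp only [Tm.eval]
    rw [ihs fun i hi => h i (lt_of_lt_of_le hi (le_max_left _ _)),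
      iht fun i hi => h i (lt_of_lt_of_le hi (le_max_right _ _))]
  | mul s t ihs iht =>
    simp only [Tm.eval]
    rw [ihs fun i hi => h i (lt_of_lt_of_le hi (le_max_left _ _)),
      iht fun i hi => h i (lt_of_lt_of_le hi (le_max_right _ _))]

/-- bound for the variables (of both kinds) of a formula -/
def Fm.bd : Fm → ℕ
  | Fm.eq s t => max s.bd t.bd
  | Fm.lt s t => max s.bd t.bd
  | Fm.mem t i => max t.bd (i + 1)
  | Fm.neg φ => φ.bd
  | Fm.and φ ψ => max φ.bd ψ.bd
  | Fm.ball i t φ => max (i + 1) (max t.bd φ.bd)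

/-- bound for the part of the sets used by a formula -/
def Fm.vb : Fm → ℕ → ℕ
  | Fm.eq _ _, _ => 0
  | Fm.lt _ _, _ => 0
  | Fm.mem t _, m => t.vb m + 1
  | Fm.neg φ, m => φ.vb m
  | Fm.and φ ψ, m => max (φ.vb m) (ψ.vb m)
  | Fm.ball _ t φ, m => φ.vb (max m (t.vb m))

theorem Fm.sat_congr (N : L2Model) (φ : Fm) : ∀ (v v' : ℕ → N.M) (V V' : ℕ → Set N.M),
    (∀ i < φ.bd, v i = v' i) → (∀ i < φ.bd, V i = V' i) → (φ.Sat N v V ↔ φ.Sat N v' V') := by
  induction φ with
  | eq s t =>
    intro v v' V V' h1 h2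
    simp only [Fm.Sat]
    rw [Tm.eval_congr N s v v' fun i hi => h1 i (lt_of_lt_of_le hi (le_max_left _ _)),
      Tm.eval_congr N t v v' fun i hi => h1 i (lt_of_lt_of_le hi (le_max_right _ _))]
  | lt s t =>
    intro v v' V V' h1 h2
    simp only [Fm.Sat]
    rw [Tm.eval_congr N s v v' fun i hi => h1 i (lt_of_lt_of_le hi (le_max_left _ _)),
      Tm.eval_congr N t v v' fun i hi => h1 i (lt_of_lt_of_le hi (le_max_right _ _))]
  | mem t i =>
    intro v v' V V' h1 h2
    simp only [Fm.Sat]
    rw [Tm.eval_congr N t v v' fun i hi => h1 i (lt_of_lt_of_le hi (le_max_left _ _)),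
      h2 i (lt_of_lt_of_le (Nat.lt_succ_self i) (le_max_right _ _))]
  | neg φ ih =>
    intro v v' V V' h1 h2
    simp only [Fm.Sat]
    rw [ih v v' V V' h1 h2]
  | and φ ψ ih1 ih2 =>
    intro v v' V V' h1 h2
    simp only [Fm.Sat]
    rw [ih1 v v' V V' (fun i hi => h1 i (lt_of_lt_of_le hi (le_max_left _ _)))
        (fun i hi => h2 i (lt_of_lt_of_le hi (le_max_left _ _))),
      ih2 v v' V V' (fun i hi => h1 i (lt_of_lt_of_le hi (le_max_right _ _)))
        (fun i hi => h2 i (lt_of_lt_of_le hi (le_max_right _ _)))]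
  | ball i t φ ih =>
    intro v v' V V' h1 h2
    simp only [Fm.Sat]
    simp only [Fm.bd] at h1 h2
    rw [Tm.eval_congr N t v v' fun i hi => h1 i (by omega)]
    refine forall_congr' fun a => imp_congr_right fun _ => ?_
    refine ih _ _ _ _ ?_ (fun i hi => h2 i (by omega))
    intro k hk
    by_cases hki : k = i
    · subst hki; simp
    · rw [Function.update_of_ne hki, Function.update_of_ne hki]
      exact h1 k (by omega)

theorem Fm.sat_congr_std (φ : Fm) : ∀ (m : ℕ) (v v' : ℕ → ℕ) (V V' : ℕ → Set ℕ),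
    (∀ i < φ.bd, v i = v' i) → (∀ i < φ.bd, v i ≤ m) →
    (∀ i < φ.bd, ∀ z < φ.vb m, (z ∈ V i ↔ z ∈ V' i)) →
    (φ.Sat Nstd v V ↔ φ.Sat Nstd v' V') := by
  induction φ with
  | eq s t =>
    intro m v v' V V' h1 h2 h3
    simp only [Fm.Sat]
    rw [Tm.eval_congr Nstd s v v' fun i hi => h1 i (lt_of_lt_of_le hi (le_max_left _ _)),
      Tm.eval_congr Nstd t v v' fun i hi => h1 i (lt_of_lt_of_le hi (le_max_right _ _))]
  | lt s t =>
    intro m v v' V V' h1 h2 h3
    simp only [Fm.Sat]
    rw [Tm.eval_congr Nstd s v v' fun i hi => h1 i (lt_of_lt_of_le hi (le_max_left _ _)),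
      Tm.eval_congr Nstd t v v' fun i hi => h1 i (lt_of_lt_of_le hi (le_max_right _ _))]
  | mem t i =>
    intro m v v' V V' h1 h2 h3
    simp only [Fm.Sat]
    simp only [Fm.bd] at h1 h2 h3
    rw [Tm.eval_congr Nstd t v v' fun i hi => h1 i (lt_of_lt_of_le hi (le_max_left _ _))]
    refine h3 i (by omega) _ ?_
    simp only [Fm.vb]
    have := Tm.eval_le t m v' fun i hi => (h1 i (by omega)) ▸ (h2 i (by omega))
    exact Nat.lt_succ_of_le this
  | neg φ ih =>
    intro m v v' V V' h1 h2 h3
    simp only [Fm.Sat]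
    rw [ih m v v' V V' h1 h2 h3]
  | and φ ψ ih1 ih2 =>
    intro m v v' V V' h1 h2 h3
    simp only [Fm.Sat]
    simp only [Fm.bd, Fm.vb] at h1 h2 h3
    rw [ih1 m v v' V V' (fun i hi => h1 i (by omega)) (fun i hi => h2 i (by omega))
        (fun i hi z hz => h3 i (by omega) z (by omega)),
      ih2 m v v' V V' (fun i hi => h1 i (by omega)) (fun i hi => h2 i (by omega))
        (fun i hi z hz => h3 i (by omega) z (by omega))]
  | ball i t φ ih =>
    intro m v v' V V' h1 h2 h3
    simp only [Fm.Sat]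
    simp only [Fm.bd, Fm.vb] at h1 h2 h3
    rw [Tm.eval_congr Nstd t v v' fun i hi => h1 i (by omega)]
    refine forall_congr' fun a => imp_congr_right fun ha => ?_
    have hle := Tm.eval_le t m v' fun i hi => (h1 i (by omega)) ▸ (h2 i (by omega))
    have ha' : a ≤ t.vb m := le_trans (le_of_lt ha) hle
    refine ih (max m (t.vb m)) _ _ _ _ ?_ ?_ (fun i hi z hz => h3 i (by omega) z hz)
    · intro k hk
      by_cases hki : k = i
      · subst hki; simp
      · rw [Function.update_of_ne hki, Function.update_of_ne hki]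
        exact h1 k (by omega)
    · intro k hk
      by_cases hki : k = i
      · subst hki; simp only [Function.update_self]; exact le_max_of_le_right ha'
      · rw [Function.update_of_ne hki]
        exact le_max_of_le_left (h2 k (by omega))

/-- local functionals -/
structure LF where
  /-- the functional -/
  F : ℕ → ℕ → ℕ → Set ℕ → Set ℕ → Prop
  /-- the bound -/
  bd : ℕ → ℕ
  local' : ∀ x y p V W V' W', (∀ z < bd (max x (max y p)), (z ∈ V ↔ z ∈ V')) →
    (∀ z < bd (max x (max y p)), (z ∈ W ↔ z ∈ W')) → F x y p V W → F x y p V' W'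

/-- codes for predicates -/
inductive Code
  | pb
  | qb
  | comp (f : ℕ) (a b c d : Code)
  deriving Countable

/-- the predicate of a code -/
def den (L : ℕ → LF) : Code → Pred
  | Code.pb => fun x _ _ β => x ∈ β
  | Code.qb => fun x _ s β => x < s ∧ x ∉ β
  | Code.comp f a b c d => fun x p s β => ∃ y ≤ s,
      (∀ z < (L f).bd (max x (max y (dec p 0))),
        (∃ s' ≤ s, den L a z (dec p 1) s' (tr β s')) ∨
        (∃ s' ≤ s, den L b z (dec p 2) s' (tr β s'))) ∧
      (∀ z < (L f).bd (max x (max y (dec p 0))),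
        (∃ s' ≤ s, den L c z (dec p 3) s' (tr β s')) ∨
        (∃ s' ≤ s, den L d z (dec p 4) s' (tr β s'))) ∧
      (L f).F x y (dec p 0) {z | ∃ s' ≤ s, den L a z (dec p 1) s' (tr β s')}
        {z | ∃ s' ≤ s, den L c z (dec p 3) s' (tr β s')}

/-- the functional of a formula -/
def formLF (φ : Fm) (g : ℕ → ℕ → ℕ → ℕ → ℕ) (hg : ∀ x y p i, g x y p i ≤ max x (max y p)) :
    LF where
  F x y p V _ := φ.Sat Nstd (g x y p) (fun i => {z | pr z i ∈ V})
  bd m := pr (φ.vb m) φ.bd + 1
  local' := by
    intro x y p V W V' W' h1 _ h3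
    refine (Fm.sat_congr_std φ (max x (max y p)) _ _ _ _ (fun _ _ => rfl) (fun i _ => hg x y p i)
      ?_).1 h3
    intro i hi z hz
    refine h1 (pr z i) ?_
    have := pr_mono hz.le hi.le
    omega

/-- first assignment function -/
def asg (x y p : ℕ) : ℕ → ℕ
  | 0 => x
  | 1 => y
  | i + 2 => dec p i

theorem asg_le (x y p i : ℕ) : asg x y p i ≤ max x (max y p) := by
  match i with
  | 0 => exact le_max_left _ _
  | 1 => exact le_max_of_le_right (le_max_left _ _)
  | i + 2 => exact le_max_of_le_right (le_max_of_le_right (dec_le _ _))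

/-- second assignment function -/
def asg4 (x y p : ℕ) : ℕ → ℕ
  | 0 => dec x 0
  | 1 => dec x 1
  | 2 => dec x 2
  | 3 => y
  | i + 4 => dec p i

theorem asg4_le (x y p i : ℕ) : asg4 x y p i ≤ max x (max y p) := by
  match i with
  | 0 => exact le_max_of_le_left (dec_le _ _)
  | 1 => exact le_max_of_le_left (dec_le _ _)
  | 2 => exact le_max_of_le_left (dec_le _ _)
  | 3 => exact le_max_of_le_right (le_max_left _ _)
  | i + 4 => exact le_max_of_le_right (le_max_of_le_right (dec_le _ _))

/-- decidable local functionals -/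
structure DF where
  /-- the functional -/
  D : ℕ → ℕ → Set ℕ → Set ℕ → Prop
  /-- the bound -/
  bd : ℕ → ℕ
  local' : ∀ x p V W V' W', (∀ z < bd (max x p), (z ∈ V ↔ z ∈ V')) →
    (∀ z < bd (max x p), (z ∈ W ↔ z ∈ W')) → (D x p V W ↔ D x p V' W')

/-- the positive functional of a decidable functional -/
def DF.pos (D : DF) : LF where
  F x _ p V W := D.D x p V W
  bd m := (Finset.range (m + 1)).sup D.bd
  local' := by
    intro x y p V W V' W' h1 h2 h3
    have hb : D.bd (max x p) ≤ (Finset.range (max x (max y p) + 1)).sup D.bd :=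
      Finset.le_sup (f := D.bd) (by simp; omega)
    exact (D.local' x p V W V' W' (fun z hz => h1 z (lt_of_lt_of_le hz hb))
      (fun z hz => h2 z (lt_of_lt_of_le hz hb))).1 h3

/-- the negative functional of a decidable functional -/
def DF.neg (D : DF) : LF where
  F x _ p V W := ¬ D.D x p V W
  bd m := (Finset.range (m + 1)).sup D.bd
  local' := by
    intro x y p V W V' W' h1 h2 h3
    have hb : D.bd (max x p) ≤ (Finset.range (max x (max y p) + 1)).sup D.bd :=
      Finset.le_sup (f := D.bd) (by simp; omega)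
    exact (not_congr (D.local' x p V W V' W' (fun z hz => h1 z (lt_of_lt_of_le hz hb))
      (fun z hz => h2 z (lt_of_lt_of_le hz hb)))).1 h3

/-- join -/
def joinDF : DF where
  D x p V W := (x ∈ V ∧ ¬ ∃ a, x = pr a p) ∨ ∃ a ≤ x, x = pr a p ∧ a ∈ W
  bd m := m + 1
  local' := by
    intro x p V W V' W' h1 h2
    have e1 : x ∈ V ↔ x ∈ V' := h1 x (by omega)
    have e2 : (∃ a ≤ x, x = pr a p ∧ a ∈ W) ↔ (∃ a ≤ x, x = pr a p ∧ a ∈ W') := by
      refine exists_congr fun a => and_congr_right fun ha => and_congr_right fun _ =>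
        h2 a (by omega)
    rw [e1, e2]

theorem tr_congr {V V' : Set ℕ} {s : ℕ} (h : ∀ z < s, (z ∈ V ↔ z ∈ V')) : tr V s = tr V' s := by
  ext z
  simp only [tr, Set.mem_ofPred_eq]
  exact ⟨fun ⟨h1, h2⟩ => ⟨(h z h2).1 h1, h2⟩, fun ⟨h1, h2⟩ => ⟨(h z h2).2 h1, h2⟩⟩

/-- graph of the counting function -/
def countDF : DF where
  D x _ V _ := ∃ a ≤ x, ∃ b, x = pr a b ∧ (tr V a).ncard = b
  bd m := m + 1
  local' := by
    intro x p V W V' W' h1 _
    refine exists_congr fun a => and_congr_right fun ha => exists_congr fun b =>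
      and_congr_right fun _ => ?_
    rw [tr_congr (fun z hz => h1 z (by omega))]

/-- graph of the exponential function -/
def powDF : DF where
  D x _ _ _ := ∃ a b, x = pr a b ∧ 2 ^ a = b
  bd _ := 0
  local' := fun _ _ _ _ _ _ _ _ => Iff.rfl

/-- symmetric difference of two sections -/
def sdDF : DF where
  D x p V _ := (pr x (dec p 0) ∈ V ↔ ¬ pr x (dec p 1) ∈ V)
  bd m := pr m m + 1
  local' := by
    intro x p V W V' W' h1 _
    have e1 := h1 (pr x (dec p 0)) (Nat.lt_succ_of_le (pr_mono (le_max_left _ _)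
      ((dec_le _ _).trans (le_max_right _ _))))
    have e2 := h1 (pr x (dec p 1)) (Nat.lt_succ_of_le (pr_mono (le_max_left _ _)
      ((dec_le _ _).trans (le_max_right _ _))))
    rw [e1, e2]

/-- symmetric difference of a section and a set -/
def sdtDF : DF where
  D x p V W := (pr x p ∈ V ↔ ¬ x ∈ W)
  bd m := pr m m + 1
  local' := by
    intro x p V W V' W' h1 h2
    have e1 := h1 (pr x p) (Nat.lt_succ_of_le (pr_mono (le_max_left _ _) (le_max_right _ _)))
    have e2 := h2 x (Nat.lt_succ_of_le ((le_max_left _ _).trans (le_pr_left _ _)))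
    rw [e1, e2]

/-- graph of the successor of a function -/
def succDF : DF where
  D x _ V _ := ∃ a b, x = pr a (b + 1) ∧ pr a b ∈ V
  bd m := m + 1
  local' := by
    intro x p V W V' W' h1 _
    refine exists_congr fun a => exists_congr fun b => and_congr_right fun h => ?_
    refine h1 _ ?_
    have : pr a b ≤ x := by rw [h]; exact pr_mono le_rfl (by omega)
    omega

theorem findGreatest_congr {p q : ℕ → Prop} [DecidablePred p] [DecidablePred q] (n : ℕ)
    (h : ∀ k ≤ n, (p k ↔ q k)) : Nat.findGreatest p n = Nat.findGreatest q n := by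
  induction n with
  | zero => simp
  | succ n ih =>
    rw [Nat.findGreatest_succ, Nat.findGreatest_succ, ih fun k hk => h k (by omega)]
    by_cases h' : p (n + 1)
    · rw [if_pos h', if_pos ((h _ le_rfl).1 h')]
    · rw [if_neg h', if_neg (fun h'' => h' ((h _ le_rfl).2 h''))]

theorem cc_congr {W W' : Set ℕ} {i s : ℕ} (h : ∀ z ≤ s - 1, (2 * pr i z ∈ W ↔ 2 * pr i z ∈ W')) :
    cc W i s = cc W' i s := by
  classical
  unfold cc
  exact findGreatest_congr _ h

theorem cc_le (W : Set ℕ) (i s : ℕ) : cc W i s ≤ s - 1 := by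
  classical
  unfold cc
  apply Nat.findGreatest_le

/-- count of the symmetric difference of two sections -/
noncomputable def cnt (V : Set ℕ) (m n j : ℕ) : ℕ :=
  (tr {z | pr z m ∈ V ↔ ¬ pr z n ∈ V} j).ncard

theorem cnt_congr {V V' : Set ℕ} {m n j k : ℕ} (hm : m ≤ k) (hn : n ≤ k) (hj : j ≤ k)
    (h : ∀ z < pr k k + 1, (z ∈ V ↔ z ∈ V')) : cnt V m n j = cnt V' m n j := by
  unfold cnt
  congr 1
  refine tr_congr fun z hz => ?_
  simp only [Set.mem_ofPred_eq]
  rw [h (pr z m) (Nat.lt_succ_of_le (pr_mono (by omega) hm)),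
    h (pr z n) (Nat.lt_succ_of_le (pr_mono (by omega) hn))]

/-- the test used in the definition of the limit -/
def OK (V W : Set ℕ) (g h q r z : ℕ) : Prop :=
  ∀ r1 r2, r1 < r2 → r2 ≤ r → ∀ j, cc W (dec h r2) q < j → j ≤ z →
    2 ^ (cc W r1 q + 2) * cnt V (cc W (dec g r1) q) (cc W (dec g r2) q) j ≤ j

open Classical in
/-- the index used at `z` -/
noncomputable def rr (V W : Set ℕ) (g h b z : ℕ) : ℕ :=
  Nat.findGreatest (fun r => OK V W g h (2 ^ Nat.log 2 z) r z) b

theorem OK_congr {V W V' W' : Set ℕ} {g h q r z k : ℕ} (hg : g ≤ k) (hh : h ≤ k) (hq : q ≤ k + 1)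
    (hr : r ≤ k) (hz : z ≤ k) (h1 : ∀ z < 2 * pr k k + 1, (z ∈ V ↔ z ∈ V'))
    (h2 : ∀ z < 2 * pr k k + 1, (z ∈ W ↔ z ∈ W')) : OK V W g h q r z ↔ OK V' W' g h q r z := by
  have hcc : ∀ i ≤ k, cc W i q = cc W' i q := by
    intro i hi
    apply cc_congr
    intro z hz
    apply h2
    have := pr_mono hi (show z ≤ k by omega)
    omega
  have hccle : ∀ i, cc W' i q ≤ k := fun i => (cc_le _ _ _).trans (by omega)
  unfold OK
  refine forall_congr' fun r1 => forall_congr' fun r2 => forall_congr' fun h12 =>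
    forall_congr' fun h2r => forall_congr' fun j => ?_
  rw [hcc _ ((dec_le h r2).trans hh), hcc _ ((dec_le g r1).trans hg),
    hcc _ ((dec_le g r2).trans hg), hcc r1 (by omega)]
  refine forall_congr' fun _ => forall_congr' fun hj => ?_
  rw [cnt_congr (hccle _) (hccle _) (hj.trans hz) (fun z hz => h1 z (by omega))]

theorem log_le (x : ℕ) : 2 ^ Nat.log 2 x ≤ x + 1 := by
  rcases Nat.eq_zero_or_pos x with rfl | h
  · simp
  · exact (Nat.pow_log_le_self 2 h.ne').trans (by omega)

theorem rr_congr {V W V' W' : Set ℕ} {g h b z k : ℕ} (hg : g ≤ k) (hh : h ≤ k)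
    (hb : b ≤ k) (hz : z ≤ k) (h1 : ∀ z < 2 * pr k k + 1, (z ∈ V ↔ z ∈ V'))
    (h2 : ∀ z < 2 * pr k k + 1, (z ∈ W ↔ z ∈ W')) : rr V W g h b z = rr V' W' g h b z := by
  classical
  have key : ∀ r ≤ b, (OK V W g h (2 ^ Nat.log 2 z) r z ↔ OK V' W' g h (2 ^ Nat.log 2 z) r z) := by
    intro r hr
    exact OK_congr hg hh ((log_le z).trans (by omega)) (by omega) hz h1 h2
  unfold rr
  exact findGreatest_congr _ key

/-- the rule defining the limit -/
noncomputable def limDF : DF where
  D x p V W := pr x (cc W (dec (dec p 0) (rr V W (dec p 0) (dec p 1) (dec p 2) x))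
    (2 ^ Nat.log 2 x)) ∈ V
  bd m := 2 * pr m m + 1
  local' := by
    intro x p V W V' W' h1 h2
    rw [rr_congr (k := max x p) ((dec_le _ _).trans (le_max_right _ _))
      ((dec_le _ _).trans (le_max_right _ _)) ((dec_le _ _).trans (le_max_right _ _))
      (le_max_left _ _) h1 h2]
    set r := rr V' W' (dec p 0) (dec p 1) (dec p 2) x
    have hq := log_le x
    have hcc : cc W (dec (dec p 0) r) (2 ^ Nat.log 2 x)
        = cc W' (dec (dec p 0) r) (2 ^ Nat.log 2 x) := by
      apply cc_congr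
      intro z hz
      apply h2
      have := pr_mono (((dec_le (dec p 0) r).trans (dec_le p 0)).trans (le_max_right x p))
        (show z ≤ max x p by omega)
      omega
    rw [hcc]
    apply h1
    have h3 := cc_le W' (dec (dec p 0) r) (2 ^ Nat.log 2 x)
    have := pr_mono (le_max_left x p)
      (show cc W' (dec (dec p 0) r) (2 ^ Nat.log 2 x) ≤ max x p by omega)
    omega

open Classical in
/-- the block (its first element and its parity) of a number, for the `n`-th computable test -/
noncomputable def flipst (V : Set ℕ) (n : ℕ) : ℕ → ℕ × Bool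
  | 0 => (0, false)
  | s + 1 => if ∃ x, (flipst V n s).1 ≤ x ∧ x ≤ s ∧ ∃ s' ≤ s,
      loc (Nat.unpair n).1 x (Nat.unpair n).2 s' ∈ V
    then (s + 1, !(flipst V n s).2) else flipst V n s

theorem loc_mono {t x p s m : ℕ} (ht : t ≤ m) (hx : x ≤ m) (hp : p ≤ m) (hs : s ≤ m) :
    loc t x p s ≤ loc m m m m := by
  unfold loc
  have := pr_mono ht (pr_mono hx (pr_mono hp hs))
  omega

theorem flipst_congr {V V' : Set ℕ} {n m : ℕ} (hn : n ≤ m)
    (h : ∀ z < loc m m m m + 1, (z ∈ V ↔ z ∈ V')) : ∀ s ≤ m, flipst V n s = flipst V' n s := by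
  intro s
  induction s with
  | zero => intro _; rfl
  | succ s ih =>
    intro hs
    have ih' := ih (by omega)
    have key : (∃ x, (flipst V n s).1 ≤ x ∧ x ≤ s ∧ ∃ s' ≤ s,
        loc (Nat.unpair n).1 x (Nat.unpair n).2 s' ∈ V) ↔
        (∃ x, (flipst V' n s).1 ≤ x ∧ x ≤ s ∧ ∃ s' ≤ s,
        loc (Nat.unpair n).1 x (Nat.unpair n).2 s' ∈ V') := by
      rw [ih']
      refine exists_congr fun x => and_congr_right fun _ => and_congr_right fun hx =>
        exists_congr fun s' => and_congr_right fun hs' => ?_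
      refine h _ (Nat.lt_succ_of_le (loc_mono ?_ (by omega) ?_ (by omega)))
      · exact (Nat.unpair_left_le n).trans hn
      · exact (Nat.unpair_right_le n).trans hn
    unfold flipst
    by_cases h1 : ∃ x, (flipst V n s).1 ≤ x ∧ x ≤ s ∧ ∃ s' ≤ s,
        loc (Nat.unpair n).1 x (Nat.unpair n).2 s' ∈ V
    · rw [if_pos h1, if_pos (key.1 h1), ih']
    · rw [if_neg h1, if_neg (fun h2 => h1 (key.2 h2)), ih']

/-- the sequence of sets without cohesive set -/
noncomputable def cohDF : DF where
  D x _ V _ := ∃ z n, x = pr z n ∧ (flipst V n z).2 = true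
  bd m := loc m m m m + 1
  local' := by
    intro x p V W V' W' h1 _
    refine exists_congr fun z => exists_congr fun n => and_congr_right fun h => ?_
    have hz : z ≤ max x p := le_max_of_le_left (h ▸ le_pr_left z n)
    have hn : n ≤ max x p := le_max_of_le_left (h ▸ le_pr_right z n)
    rw [flipst_congr hn h1 z hz]

/-- indices of functionals -/
inductive FIdx
  | form (φ : Fm)
  | form4 (φ : Fm)
  | join (b : Bool)
  | count (b : Bool)
  | pow (b : Bool)
  | sd (b : Bool)
  | sdt (b : Bool)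
  | succ (b : Bool)
  | lim (b : Bool)
  | coh (b : Bool)
  deriving Countable

instance : Nonempty FIdx := ⟨FIdx.join true⟩

/-- positive or negative functional -/
def DF.lf (D : DF) : Bool → LF
  | true => D.pos
  | false => D.neg

/-- the functional of an index -/
noncomputable def FIdx.lf : FIdx → LF
  | FIdx.form φ => formLF φ asg asg_le
  | FIdx.form4 φ => formLF φ asg4 asg4_le
  | FIdx.join b => joinDF.lf b
  | FIdx.count b => countDF.lf b
  | FIdx.pow b => powDF.lf b
  | FIdx.sd b => sdDF.lf b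
  | FIdx.sdt b => sdtDF.lf b
  | FIdx.succ b => succDF.lf b
  | FIdx.lim b => limDF.lf b
  | FIdx.coh b => cohDF.lf b

theorem exists_enum : ∃ f : ℕ → FIdx, Function.Surjective f := exists_surjective_nat FIdx

/-- enumeration of the functionals -/
noncomputable def Lf (n : ℕ) : LF := (exists_enum.choose n).lf

theorem exists_Lf (i : FIdx) : ∃ n, Lf n = i.lf := by
  obtain ⟨n, hn⟩ := exists_enum.choose_spec i
  exact ⟨n, by rw [Lf, hn]⟩

instance : Nonempty Code := ⟨Code.pb⟩

theorem exists_code_enum : ∃ f : ℕ → Code, Function.Surjective f := exists_surjective_nat Code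

/-- enumeration of the predicates -/
noncomputable def PP (n : ℕ) : Pred := den Lf (exists_code_enum.choose n)

theorem exists_PP (c : Code) : ∃ n, PP n = den Lf c := by
  obtain ⟨n, hn⟩ := exists_code_enum.choose_spec c
  exact ⟨n, by rw [PP, hn]⟩

end Pool.Agent.Helper25_RM
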