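import Pool.Agent.Helper25_RM.Functionals

/-!
# The model: a cut of an ultraproduct
-/

set_option autoImplicit false

namespace Pool.Agent.Helper25_RM

open Filter

/-- the properties of `B`, `c`, `e` at the `n`-th component -/
structure Good (n : ℕ) (B : Set ℕ) (c e : ℕ → ℕ) : Prop where
  base : n ≤ c 0
  mono : StrictMono c
  grow : ∀ j, ∀ y ≤ c j, 2 ^ (4 * y + 8) ≤ c (j + 1)
  growL : ∀ j, ∀ i ≤ j, ∀ y ≤ c j, (Lf i).bd y ≤ c (j + 1)
  code : ∀ t x p s, loc t x p s ∈ B ↔ PP t x p s (tr B s)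
  elem : ∀ j t x p, t ≤ j → x ≤ c j → p ≤ c j → (∃ s, PP t x p s (tr B s)) →
    ∃ s ≤ c (j + 1), PP t x p s (tr B s)
  e_le : ∀ j, c j ≤ e j
  e_lt : ∀ j, e j < c (j + 1)
  cc_eq : ∀ j s, c (j + 1) ≤ s → cc B j s = e j

theorem good_exists (n : ℕ) : ∃ B c e, Good n B c e := by
  obtain ⟨B, c, e, h1, h2, h3, h4, h5, h6, h7⟩ := std_construct PP
    (fun j x => (Finset.range (x + 1)).sup (fun y => 2 ^ (4 * y + 8) +
      (Finset.range (j + 1)).sup (fun i => (Lf i).bd y))) n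
  refine ⟨B, c, e, h1, h2, ?_, ?_, h4, h5, fun j => (h6 j).1, fun j => (h6 j).2, h7⟩
  · intro j y hy
    refine le_trans ?_ (h3 j)
    refine le_trans ?_ (Finset.le_sup (f := fun y => 2 ^ (4 * y + 8) +
      (Finset.range (j + 1)).sup (fun i => (Lf i).bd y)) (Finset.mem_range.2 (Nat.lt_succ_of_le hy)))
    exact Nat.le_add_right _ _
  · intro j i hi y hy
    refine le_trans ?_ (h3 j)
    refine le_trans ?_ (Finset.le_sup (f := fun y => 2 ^ (4 * y + 8) +
      (Finset.range (j + 1)).sup (fun i => (Lf i).bd y)) (Finset.mem_range.2 (Nat.lt_succ_of_le hy)))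
    refine le_trans ?_ (Nat.le_add_left _ _)
    exact Finset.le_sup (f := fun i => (Lf i).bd y) (Finset.mem_range.2 (Nat.lt_succ_of_le hi))

/-- the oracle -/
noncomputable def BB (n : ℕ) : Set ℕ := (good_exists n).choose
/-- the cofinal sequence -/
noncomputable def CC (n : ℕ) : ℕ → ℕ := (good_exists n).choose_spec.choose
/-- the approximable cofinal sequence -/
noncomputable def EE (n : ℕ) : ℕ → ℕ := (good_exists n).choose_spec.choose_spec.choose

theorem good (n : ℕ) : Good n (BB n) (CC n) (EE n) :=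
  (good_exists n).choose_spec.choose_spec.choose_spec

/-- the ultrafilter -/
noncomputable def U : Ultrafilter ℕ := hyperfilter ℕ

theorem U_le : (U : Filter ℕ) ≤ atTop := Nat.hyperfilter_le_atTop

theorem ev_ge (n : ℕ) : ∀ᶠ i in (U : Filter ℕ), n ≤ i := U_le (eventually_ge_atTop n)

theorem ev_not {p : ℕ → Prop} : (¬ ∀ᶠ i in (U : Filter ℕ), p i) ↔ ∀ᶠ i in (U : Filter ℕ), ¬ p i :=
  Ultrafilter.eventually_not.symm

theorem ev_false (h : ∀ᶠ _ in (U : Filter ℕ), False) : False := by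
  obtain ⟨_, h⟩ := h.exists
  exact h

/-- bounded sequences -/
def Bdd (x : ℕ → ℕ) : Prop := ∃ j, ∀ᶠ i in (U : Filter ℕ), x i ≤ CC i j

theorem CC_mono {i j k : ℕ} (h : j ≤ k) : CC i j ≤ CC i k := (good i).mono.monotone h

theorem Bdd.mono {x y : ℕ → ℕ} (hx : Bdd x) (h : ∀ᶠ i in (U : Filter ℕ), y i ≤ x i) : Bdd y := by
  obtain ⟨j, hj⟩ := hx
  exact ⟨j, by filter_upwards [hj, h] with i h1 h2 using h2.trans h1⟩

theorem Bdd.mono' {x y : ℕ → ℕ} (hx : Bdd x) (h : ∀ i, y i ≤ x i) : Bdd y :=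
  hx.mono (Eventually.of_forall h)

theorem Bdd.max {x y : ℕ → ℕ} (hx : Bdd x) (hy : Bdd y) : Bdd (fun i => max (x i) (y i)) := by
  obtain ⟨j, hj⟩ := hx
  obtain ⟨k, hk⟩ := hy
  refine ⟨Max.max j k, ?_⟩
  filter_upwards [hj, hk] with i h1 h2
  exact Nat.max_le.2 ⟨h1.trans (CC_mono (le_max_left _ _)), h2.trans (CC_mono (le_max_right _ _))⟩

theorem Bdd.grow {x : ℕ → ℕ} (hx : Bdd x) : Bdd (fun i => 2 ^ (4 * x i + 8)) := by
  obtain ⟨j, hj⟩ := hx
  exact ⟨j + 1, by filter_upwards [hj] with i h1 using (good i).grow j _ h1⟩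

theorem Bdd.bd {x : ℕ → ℕ} (hx : Bdd x) (f : ℕ) : Bdd (fun i => (Lf f).bd (x i)) := by
  obtain ⟨j, hj⟩ := hx
  refine ⟨Max.max j f + 1, ?_⟩
  filter_upwards [hj] with i h1
  exact (good i).growL _ f (le_max_right _ _) _ (h1.trans (CC_mono (le_max_left _ _)))

theorem bdd_CC (j : ℕ) : Bdd (fun i => CC i j) := ⟨j, Eventually.of_forall fun _ => le_rfl⟩

theorem bdd_EE (j : ℕ) : Bdd (fun i => EE i j) :=
  ⟨j + 1, Eventually.of_forall fun i => ((good i).e_lt j).le⟩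

theorem bdd_id : Bdd (fun i => i) := ⟨0, Eventually.of_forall fun i => (good i).base⟩

theorem bdd_const (n : ℕ) : Bdd (fun _ => n) := bdd_id.mono (ev_ge n)

theorem four_pow (m : ℕ) : (m + 3) ^ 4 ≤ 2 ^ (4 * m + 8) := by
  have h1 : m + 3 ≤ 2 ^ (m + 2) := by
    have : m + 2 < 2 ^ (m + 2) := Nat.lt_two_pow_self
    omega
  calc (m + 3) ^ 4 ≤ (2 ^ (m + 2)) ^ 4 := Nat.pow_le_pow_left h1 4
    _ = 2 ^ (4 * m + 8) := by rw [← pow_mul]; ring_nf

theorem Bdd.comp2 {x y z : ℕ → ℕ} (hx : Bdd x) (hy : Bdd y)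
    (h : ∀ i, z i ≤ (Max.max (x i) (y i) + 3) ^ 4) : Bdd z :=
  (hx.max hy).grow.mono' fun i => (h i).trans (four_pow _)

theorem Bdd.add {x y : ℕ → ℕ} (hx : Bdd x) (hy : Bdd y) : Bdd (fun i => x i + y i) := by
  refine hx.comp2 hy fun i => ?_
  have h1 : x i ≤ Max.max (x i) (y i) := le_max_left _ _
  have h2 : y i ≤ Max.max (x i) (y i) := le_max_right _ _
  set m := Max.max (x i) (y i)
  nlinarith [sq_nonneg m, sq_nonneg (m ^ 2), pow_pos (show 0 < m + 3 by omega) 3]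

theorem Bdd.mul {x y : ℕ → ℕ} (hx : Bdd x) (hy : Bdd y) : Bdd (fun i => x i * y i) := by
  refine hx.comp2 hy fun i => ?_
  have h1 : x i ≤ Max.max (x i) (y i) := le_max_left _ _
  have h2 : y i ≤ Max.max (x i) (y i) := le_max_right _ _
  set m := Max.max (x i) (y i)
  calc x i * y i ≤ m * m := Nat.mul_le_mul h1 h2
    _ ≤ (m + 3) ^ 4 := by
      have : m * m ≤ (m + 3) ^ 2 := by nlinarith
      exact this.trans (Nat.pow_le_pow_right (by omega) (by norm_num))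

theorem Bdd.pr {x y : ℕ → ℕ} (hx : Bdd x) (hy : Bdd y) :
    Bdd (fun i => Helper25_RM.pr (x i) (y i)) := by
  unfold Helper25_RM.pr
  exact ((hx.add hy).mul (hx.add hy)).add hx

theorem Bdd.pair {x y : ℕ → ℕ} (hx : Bdd x) (hy : Bdd y) : Bdd (fun i => Nat.pair (x i) (y i)) := by
  have h1 : Bdd (fun i => (x i + y i + 1) * (x i + y i + 1)) :=
    ((hx.add hy).add (bdd_const 1)).mul ((hx.add hy).add (bdd_const 1))
  refine h1.mono' fun i => ?_
  have := Nat.pair_lt_max_add_one_sq (x i) (y i)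
  have h2 : Max.max (x i) (y i) ≤ x i + y i := by omega
  have h3 : (Max.max (x i) (y i) + 1) ^ 2 ≤ (x i + y i + 1) ^ 2 :=
    Nat.pow_le_pow_left (by omega) 2
  rw [sq (x i + y i + 1)] at h3
  omega

theorem Bdd.pow {x : ℕ → ℕ} (hx : Bdd x) : Bdd (fun i => 2 ^ (x i)) :=
  hx.grow.mono' fun i => Nat.pow_le_pow_right (by norm_num) (by omega)

theorem Bdd.dec {x : ℕ → ℕ} (hx : Bdd x) (k : ℕ) : Bdd (fun i => Helper25_RM.dec (x i) k) :=
  hx.mono' fun _ => dec_le _ _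

/-- eventual equality -/
instance moSetoid : Setoid {x : ℕ → ℕ // Bdd x} where
  r x y := ∀ᶠ i in (U : Filter ℕ), x.1 i = y.1 i
  iseqv := by
    refine ⟨fun _ => Eventually.of_forall fun _ => rfl, fun h => ?_, fun h h' => ?_⟩
    · filter_upwards [h] with i hi using hi.symm
    · filter_upwards [h, h'] with i h1 h2 using h1.trans h2

/-- numbers of the model -/
def Mo : Type := Quotient moSetoid

/-- representative -/
noncomputable def rep (a : Mo) : ℕ → ℕ := (Quotient.out a).1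

theorem rep_bdd (a : Mo) : Bdd (rep a) := (Quotient.out a).2

/-- class -/
def mk (x : ℕ → ℕ) (h : Bdd x) : Mo := Quotient.mk moSetoid ⟨x, h⟩

theorem rep_mk (x : ℕ → ℕ) (h : Bdd x) : ∀ᶠ i in (U : Filter ℕ), rep (mk x h) i = x i :=
  Quotient.mk_out (s := moSetoid) ⟨x, h⟩

theorem mo_ext {a b : Mo} (h : ∀ᶠ i in (U : Filter ℕ), rep a i = rep b i) : a = b := by
  rw [← Quotient.out_eq a, ← Quotient.out_eq b]
  exact Quotient.sound h

theorem mk_eq {x y : ℕ → ℕ} {h : Bdd x} {h' : Bdd y} (e : ∀ᶠ i in (U : Filter ℕ), x i = y i) :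
    mk x h = mk y h' := Quotient.sound e

theorem mk_rep (a : Mo) : mk (rep a) (rep_bdd a) = a := mo_ext (rep_mk _ _)

theorem eq_mk {a : Mo} {x : ℕ → ℕ} {h : Bdd x} (e : ∀ᶠ i in (U : Filter ℕ), rep a i = x i) :
    a = mk x h := by
  rw [← mk_rep a]; exact mk_eq e

/-- the external set given by a sequence of sets -/
def st (Y : ℕ → Set ℕ) : Set Mo := {a | ∀ᶠ i in (U : Filter ℕ), rep a i ∈ Y i}

theorem mk_mem_st {x : ℕ → ℕ} {h : Bdd x} {Y : ℕ → Set ℕ} :
    mk x h ∈ st Y ↔ ∀ᶠ i in (U : Filter ℕ), x i ∈ Y i := by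
  have := rep_mk x h
  constructor
  · intro h1
    filter_upwards [this, h1] with i h2 h3
    rwa [h2] at h3
  · intro h1
    show ∀ᶠ i in (U : Filter ℕ), rep (mk x h) i ∈ Y i
    filter_upwards [this, h1] with i h2 h3
    rwa [h2]

theorem not_mk_mem_st {x : ℕ → ℕ} {h : Bdd x} {Y : ℕ → Set ℕ} :
    mk x h ∉ st Y ↔ ∀ᶠ i in (U : Filter ℕ), x i ∉ Y i := by
  rw [mk_mem_st, ev_not]

/-- the internal `Σ₁` sets -/
def Wt (t : ℕ) (p : ℕ → ℕ) (i : ℕ) : Set ℕ := {x | ∃ s, PP t x (p i) s (tr (BB i) s)}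

/-- `X` and its complement are given by internal `Σ₁` sets -/
structure Rep (X : Set Mo) (t u : ℕ) (p q : ℕ → ℕ) : Prop where
  bp : Bdd p
  bq : Bdd q
  pos : X = st (Wt t p)
  neg : Xᶜ = st (Wt u q)

/-- the sets of the model -/
def SS : Set (Set Mo) := {X | ∃ t u p q, Rep X t u p q}

/-- the model -/
noncomputable abbrev NN : L2Model where
  M := Mo
  zero := mk (fun _ => 0) (bdd_const 0)
  one := mk (fun _ => 1) (bdd_const 1)
  add a b := mk (fun i => rep a i + rep b i) ((rep_bdd a).add (rep_bdd b))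
  mul a b := mk (fun i => rep a i * rep b i) ((rep_bdd a).mul (rep_bdd b))
  lt a b := ∀ᶠ i in (U : Filter ℕ), rep a i < rep b i
  S := SS

theorem ev_bdd_forall {j : ℕ} {p : ℕ → ℕ → Prop}
    (h : ∀ x : ℕ → ℕ, Bdd x → (∀ᶠ i in (U : Filter ℕ), x i ≤ CC i j) →
      ∀ᶠ i in (U : Filter ℕ), p i (x i)) :
    ∀ᶠ i in (U : Filter ℕ), ∀ z ≤ CC i j, p i z := by
  by_contra hc
  rw [ev_not] at hc
  have h1 : ∀ᶠ i in (U : Filter ℕ), ∃ z, z ≤ CC i j ∧ ¬ p i z := by
    filter_upwards [hc] with i hi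
    push Not at hi
    exact hi
  obtain ⟨x, hx⟩ := skolem.1 h1
  have hx1 : ∀ᶠ i in (U : Filter ℕ), x i ≤ CC i j := by filter_upwards [hx] with i hi using hi.1
  have h2 := h x ⟨j, hx1⟩ hx1
  apply ev_false
  filter_upwards [hx, h2] with i h3 h4 using h3.2 h4

theorem Tm.los (t : Tm) (v : ℕ → Mo) (x : ℕ → ℕ → ℕ)
    (hv : ∀ k, ∀ᶠ i in (U : Filter ℕ), rep (v k) i = x k i) :
    ∀ᶠ i in (U : Filter ℕ), rep (t.eval NN v) i = t.eval Nstd (fun k => x k i) := by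
  induction t with
  | var k => exact hv k
  | zero => exact rep_mk _ _
  | one => exact rep_mk _ _
  | add s t ihs iht =>
    have h := rep_mk (fun i => rep (s.eval NN v) i + rep (t.eval NN v) i)
      ((rep_bdd (s.eval NN v)).add (rep_bdd (t.eval NN v)))
    filter_upwards [ihs, iht, h] with i h1 h2 h3
    simp only [Tm.eval]
    rw [← h1, ← h2]
    exact h3
  | mul s t ihs iht =>
    have h := rep_mk (fun i => rep (s.eval NN v) i * rep (t.eval NN v) i)
      ((rep_bdd (s.eval NN v)).mul (rep_bdd (t.eval NN v)))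
    filter_upwards [ihs, iht, h] with i h1 h2 h3
    simp only [Tm.eval]
    rw [← h1, ← h2]
    exact h3

theorem update_apply' {x : ℕ → ℕ → ℕ} {k : ℕ} {a : ℕ → ℕ} {i : ℕ} :
    (fun l => Function.update x k a l i) = Function.update (fun l => x l i) k (a i) := by
  funext l
  by_cases h : l = k
  · subst h; simp
  · simp [Function.update_of_ne h]

theorem Fm.los (φ : Fm) : ∀ (v : ℕ → Mo) (x : ℕ → ℕ → ℕ) (V : ℕ → Set Mo) (Y : ℕ → ℕ → Set ℕ),
    (∀ k, ∀ᶠ i in (U : Filter ℕ), rep (v k) i = x k i) → (∀ k, V k = st (Y k)) →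
    (φ.Sat NN v V ↔ ∀ᶠ i in (U : Filter ℕ), φ.Sat Nstd (fun k => x k i) (fun k => Y k i)) := by
  induction φ with
  | eq s t =>
    intro v x V Y hv hV
    have h1 := Tm.los s v x hv
    have h2 := Tm.los t v x hv
    simp only [Fm.Sat]
    constructor
    · intro h
      filter_upwards [h1, h2] with i h3 h4
      rw [← h3, ← h4, h]
    · intro h
      apply mo_ext
      filter_upwards [h1, h2, h] with i h3 h4 h5
      rw [h3, h4, h5]
  | lt s t =>
    intro v x V Y hv hV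
    have h1 := Tm.los s v x hv
    have h2 := Tm.los t v x hv
    simp only [Fm.Sat]
    constructor
    · intro h
      filter_upwards [h1, h2, h] with i h3 h4 h5
      rw [← h3, ← h4]; exact h5
    · intro h
      show ∀ᶠ i in (U : Filter ℕ), rep (s.eval NN v) i < rep (t.eval NN v) i
      filter_upwards [h1, h2, h] with i h3 h4 h5
      rw [h3, h4]; exact h5
  | mem t k =>
    intro v x V Y hv hV
    have h1 := Tm.los t v x hv
    simp only [Fm.Sat]
    rw [hV k]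
    constructor
    · intro h
      filter_upwards [h1, h] with i h3 h4
      rw [← h3]; exact h4
    · intro h
      show ∀ᶠ i in (U : Filter ℕ), rep (t.eval NN v) i ∈ Y k i
      filter_upwards [h1, h] with i h3 h4
      rw [h3]; exact h4
  | neg φ ih =>
    intro v x V Y hv hV
    simp only [Fm.Sat]
    rw [ih v x V Y hv hV, ev_not]
  | and φ ψ ih1 ih2 =>
    intro v x V Y hv hV
    simp only [Fm.Sat]
    rw [ih1 v x V Y hv hV, ih2 v x V Y hv hV, eventually_and]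
  | ball k t φ ih =>
    intro v x V Y hv hV
    have h1 := Tm.los t v x hv
    simp only [Fm.Sat]
    constructor
    · intro h
      by_contra hc
      rw [ev_not] at hc
      have h2 : ∀ᶠ i in (U : Filter ℕ), ∃ a : ℕ, Nstd.lt a (t.eval Nstd fun k => x k i) ∧
          ¬ φ.Sat Nstd (Function.update (fun l => x l i) k a) (fun k => Y k i) := by
        filter_upwards [hc] with i hi
        push Not at hi
        exact hi
      obtain ⟨a, ha⟩ := skolem.1 h2
      have hab : Bdd a := by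
        refine (rep_bdd (t.eval NN v)).mono ?_
        filter_upwards [ha, h1] with i h3 h4
        rw [h4]
        exact le_of_lt h3.1
      have hlt : NN.lt (mk a hab) (t.eval NN v) := by
        show ∀ᶠ i in (U : Filter ℕ), rep (mk a hab) i < rep (t.eval NN v) i
        filter_upwards [ha, h1, rep_mk a hab] with i h3 h4 h5
        rw [h5, h4]
        exact h3.1
      have h3 := h _ hlt
      rw [ih (Function.update v k (mk a hab)) (Function.update x k a) V Y ?_ hV] at h3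
      · apply ev_false
        filter_upwards [h3, ha] with i h4 h5
        rw [update_apply'] at h4
        exact h5.2 h4
      · intro l
        by_cases hl : l = k
        · subst hl; simp only [Function.update_self]; exact rep_mk a hab
        · rw [Function.update_of_ne hl, Function.update_of_ne hl]; exact hv l
    · intro h a ha
      rw [ih (Function.update v k a) (Function.update x k (rep a)) V Y ?_ hV]
      · filter_upwards [h, h1, ha] with i h2 h3 h4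
        rw [update_apply']
        apply h2
        rw [h3] at h4
        exact h4
      · intro l
        by_cases hl : l = k
        · subst hl; simp
        · rw [Function.update_of_ne hl, Function.update_of_ne hl]; exact hv l

theorem decided {X : Set Mo} {t u : ℕ} {p q : ℕ → ℕ} (h : Rep X t u p q) (j : ℕ) :
    ∀ᶠ i in (U : Filter ℕ), ∀ z ≤ CC i j, (z ∈ Wt t p i ↔ z ∉ Wt u q i) := by
  apply ev_bdd_forall
  intro x hx _
  by_cases hX : mk x hx ∈ X
  · have h1 : mk x hx ∉ Xᶜ := fun h' => h' hX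
    rw [h.neg, not_mk_mem_st] at h1
    rw [h.pos, mk_mem_st] at hX
    filter_upwards [h1, hX] with i h2 h3
    exact ⟨fun _ => h2, fun _ => h3⟩
  · have h1 : mk x hx ∈ Xᶜ := hX
    rw [h.neg, mk_mem_st] at h1
    rw [h.pos, not_mk_mem_st] at hX
    filter_upwards [h1, hX] with i h2 h3
    exact ⟨fun h4 => absurd h4 h3, fun h4 => absurd h2 h4⟩

theorem elem_ev (t : ℕ) (p : ℕ → ℕ) (hp : Bdd p) : ∃ j0, ∀ j ≥ j0, ∀ᶠ i in (U : Filter ℕ),
    ∀ z ≤ CC i j, z ∈ Wt t p i → ∃ s ≤ CC i (j + 1), PP t z (p i) s (tr (BB i) s) := by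
  obtain ⟨j1, hj1⟩ := hp
  refine ⟨max t j1, fun j hj => ?_⟩
  filter_upwards [hj1] with i hi z hz hzW
  exact (good i).elem j t z (p i) (by omega) hz (hi.trans (CC_mono (by omega))) hzW

/-- code of the parameters -/
def pk (p0 p1 p2 p3 p4 : ℕ → ℕ) (i : ℕ) : ℕ :=
  Nat.pair (p0 i) (Nat.pair (p1 i) (Nat.pair (p2 i) (Nat.pair (p3 i) (Nat.pair (p4 i) 0))))

theorem bdd_pk {p0 p1 p2 p3 p4 : ℕ → ℕ} (h0 : Bdd p0) (h1 : Bdd p1) (h2 : Bdd p2) (h3 : Bdd p3)
    (h4 : Bdd p4) : Bdd (pk p0 p1 p2 p3 p4) :=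
  h0.pair (h1.pair (h2.pair (h3.pair (h4.pair (bdd_const 0)))))

/-- the matrix of a composite predicate -/
def Body (f a b c d : ℕ) (p0 p1 p2 p3 p4 : ℕ → ℕ) (i x s y : ℕ) : Prop :=
  (∀ z < (Lf f).bd (max x (max y (p0 i))),
    (∃ s' ≤ s, PP a z (p1 i) s' (tr (BB i) s')) ∨
    (∃ s' ≤ s, PP b z (p2 i) s' (tr (BB i) s'))) ∧
  (∀ z < (Lf f).bd (max x (max y (p0 i))),
    (∃ s' ≤ s, PP c z (p3 i) s' (tr (BB i) s')) ∨
    (∃ s' ≤ s, PP d z (p4 i) s' (tr (BB i) s'))) ∧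
  (Lf f).F x y (p0 i) {z | ∃ s' ≤ s, PP a z (p1 i) s' (tr (BB i) s')}
    {z | ∃ s' ≤ s, PP c z (p3 i) s' (tr (BB i) s')}

theorem comp_lemma (f : ℕ) {X Y : Set Mo} {a b c d : ℕ} {p1 p2 p3 p4 : ℕ → ℕ}
    (hX : Rep X a b p1 p2) (hY : Rep Y c d p3 p4) {p0 : ℕ → ℕ} (h0 : Bdd p0) :
    ∃ t, ∀ x : ℕ → ℕ, Bdd x → ((∀ᶠ i in (U : Filter ℕ), x i ∈ Wt t (pk p0 p1 p2 p3 p4) i) ↔
      ∃ y : ℕ → ℕ, Bdd y ∧ ∀ᶠ i in (U : Filter ℕ),
        (Lf f).F (x i) (y i) (p0 i) (Wt a p1 i) (Wt c p3 i)) := by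
  obtain ⟨t, ht⟩ := exists_PP (Code.comp f (exists_code_enum.choose a) (exists_code_enum.choose b)
    (exists_code_enum.choose c) (exists_code_enum.choose d))
  have hPP : ∀ x p s β, PP t x p s β ↔ ∃ y ≤ s,
      (∀ z < (Lf f).bd (max x (max y (dec p 0))),
        (∃ s' ≤ s, PP a z (dec p 1) s' (tr β s')) ∨
        (∃ s' ≤ s, PP b z (dec p 2) s' (tr β s'))) ∧
      (∀ z < (Lf f).bd (max x (max y (dec p 0))),
        (∃ s' ≤ s, PP c z (dec p 3) s' (tr β s')) ∨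
        (∃ s' ≤ s, PP d z (dec p 4) s' (tr β s'))) ∧
      (Lf f).F x y (dec p 0) {z | ∃ s' ≤ s, PP a z (dec p 1) s' (tr β s')}
        {z | ∃ s' ≤ s, PP c z (dec p 3) s' (tr β s')} := by
    intro x p s β
    rw [ht]
    rfl
  have hPP' : ∀ i x s, PP t x (pk p0 p1 p2 p3 p4 i) s (tr (BB i) s) ↔ ∃ y ≤ s,
      Body f a b c d p0 p1 p2 p3 p4 i x s y := by
    intro i x s
    rw [hPP]
    have e0 : dec (pk p0 p1 p2 p3 p4 i) 0 = p0 i := by simp [pk, dec]
    have e1 : dec (pk p0 p1 p2 p3 p4 i) 1 = p1 i := by simp [pk, dec]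
    have e2 : dec (pk p0 p1 p2 p3 p4 i) 2 = p2 i := by simp [pk, dec]
    have e3 : dec (pk p0 p1 p2 p3 p4 i) 3 = p3 i := by simp [pk, dec]
    have e4 : dec (pk p0 p1 p2 p3 p4 i) 4 = p4 i := by simp [pk, dec]
    rw [e0, e1, e2, e3, e4]
    have key : ∀ (q : ℕ → Set ℕ → Prop), (∃ s' ≤ s, q s' (tr (tr (BB i) s) s')) ↔
        (∃ s' ≤ s, q s' (tr (BB i) s')) := by
      intro q
      refine exists_congr fun s' => and_congr_right fun hs' => ?_
      rw [tr_tr hs']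
    refine exists_congr fun y => and_congr_right fun hy => ?_
    have k1 : ∀ z, _ := fun z => key (fun s' β => PP a z (p1 i) s' β)
    have k2 : ∀ z, _ := fun z => key (fun s' β => PP b z (p2 i) s' β)
    have k3 : ∀ z, _ := fun z => key (fun s' β => PP c z (p3 i) s' β)
    have k4 : ∀ z, _ := fun z => key (fun s' β => PP d z (p4 i) s' β)
    simp only [k1, k2, k3, k4, Body]
  refine ⟨t, fun x hx => ?_⟩
  constructor
  · intro h
    obtain ⟨j1, hj1⟩ := hx
    obtain ⟨j0, hj0⟩ := elem_ev t (pk p0 p1 p2 p3 p4) (bdd_pk h0 hX.bp hX.bq hY.bp hY.bq)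
    have h1 := hj0 (max j0 j1) (le_max_left _ _)
    have h2 : ∀ᶠ i in (U : Filter ℕ), ∃ s, s ≤ CC i (max j0 j1 + 1) ∧
        PP t (x i) (pk p0 p1 p2 p3 p4 i) s (tr (BB i) s) := by
      filter_upwards [h, h1, hj1] with i g1 g2 g3
      exact g2 _ (g3.trans (CC_mono (le_max_right _ _))) g1
    obtain ⟨s, hs⟩ := skolem.1 h2
    have hsb : Bdd s := ⟨max j0 j1 + 1, by filter_upwards [hs] with i hi using hi.1⟩
    have h3 : ∀ᶠ i in (U : Filter ℕ), ∃ y, y ≤ s i ∧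
        Body f a b c d p0 p1 p2 p3 p4 i (x i) (s i) y := by
      filter_upwards [hs] with i hi
      exact (hPP' i (x i) (s i)).1 hi.2
    obtain ⟨y, hy⟩ := skolem.1 h3
    have hyb : Bdd y := hsb.mono (by filter_upwards [hy] with i hi using hi.1)
    refine ⟨y, hyb, ?_⟩
    obtain ⟨j2, hj2⟩ := ((show Bdd x from ⟨j1, hj1⟩).max (hyb.max h0)).bd f
    filter_upwards [hy, hj2, decided hX j2, decided hY j2] with i g1 g2 g3 g4
    obtain ⟨-, g5, g6, g7⟩ := g1
    refine (Lf f).local' _ _ _ _ _ _ _ ?_ ?_ g7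
    · intro z hz
      constructor
      · rintro ⟨s', _, hs'⟩
        exact ⟨s', hs'⟩
      · intro hz'
        rcases g5 z hz with h | ⟨s', _, hs'⟩
        · exact h
        · exact absurd ⟨s', hs'⟩ ((g3 z (hz.le.trans g2)).1 hz')
    · intro z hz
      constructor
      · rintro ⟨s', _, hs'⟩
        exact ⟨s', hs'⟩
      · intro hz'
        rcases g6 z hz with h | ⟨s', _, hs'⟩
        · exact h
        · exact absurd ⟨s', hs'⟩ ((g4 z (hz.le.trans g2)).1 hz')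
  · rintro ⟨y, hyb, hy⟩
    obtain ⟨j2, hj2⟩ := (hx.max (hyb.max h0)).bd f
    obtain ⟨j3, hj3⟩ := hyb
    obtain ⟨ka, hka⟩ := elem_ev a p1 hX.bp
    obtain ⟨kb, hkb⟩ := elem_ev b p2 hX.bq
    obtain ⟨kc, hkc⟩ := elem_ev c p3 hY.bp
    obtain ⟨kd, hkd⟩ := elem_ev d p4 hY.bq
    set J := j2 + j3 + ka + kb + kc + kd with hJ
    filter_upwards [hy, hj2, hj3, decided hX j2, decided hY j2, hka J (by omega), hkb J (by omega),
      hkc J (by omega), hkd J (by omega)] with i g1 g2 g3 g4 g5 ga gb gc gd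
    refine ⟨CC i (J + 1), (hPP' i _ _).2 ⟨y i, g3.trans (CC_mono (by omega)), ?_, ?_, ?_⟩⟩
    · intro z hz
      have hz2 : z ≤ CC i j2 := hz.le.trans g2
      have hzJ : z ≤ CC i J := hz2.trans (CC_mono (by omega))
      by_cases hz' : z ∈ Wt a p1 i
      · exact Or.inl (ga z hzJ hz')
      · exact Or.inr (gb z hzJ (not_not.1 fun h => hz' ((g4 z hz2).2 h)))
    · intro z hz
      have hz2 : z ≤ CC i j2 := hz.le.trans g2
      have hzJ : z ≤ CC i J := hz2.trans (CC_mono (by omega))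
      by_cases hz' : z ∈ Wt c p3 i
      · exact Or.inl (gc z hzJ hz')
      · exact Or.inr (gd z hzJ (not_not.1 fun h => hz' ((g5 z hz2).2 h)))
    · refine (Lf f).local' _ _ _ _ _ _ _ ?_ ?_ g1
      · intro z hz
        have hz2 : z ≤ CC i j2 := hz.le.trans g2
        have hzJ : z ≤ CC i J := hz2.trans (CC_mono (by omega))
        exact ⟨fun h => ga z hzJ h, fun ⟨s', _, hs'⟩ => ⟨s', hs'⟩⟩
      · intro z hz
        have hz2 : z ≤ CC i j2 := hz.le.trans g2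
        have hzJ : z ≤ CC i J := hz2.trans (CC_mono (by omega))
        exact ⟨fun h => gc z hzJ h, fun ⟨s', _, hs'⟩ => ⟨s', hs'⟩⟩

/-- decidable functionals give sets of the model -/
theorem dec_lemma (D : DF) (fp fn : ℕ) (hfp : Lf fp = D.pos) (hfn : Lf fn = D.neg)
    {X Y : Set Mo} {a b c d : ℕ} {p1 p2 p3 p4 : ℕ → ℕ}
    (hX : Rep X a b p1 p2) (hY : Rep Y c d p3 p4) {p0 : ℕ → ℕ} (h0 : Bdd p0) :
    ∃ Z t u q, Rep Z t u q q ∧ ∀ (x : ℕ → ℕ) (hx : Bdd x), mk x hx ∈ Z ↔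
      ∀ᶠ i in (U : Filter ℕ), D.D (x i) (p0 i) (Wt a p1 i) (Wt c p3 i) := by
  obtain ⟨t, ht⟩ := comp_lemma fp hX hY h0
  obtain ⟨u, hu⟩ := comp_lemma fn hX hY h0
  have key : ∀ (x : ℕ → ℕ) (hx : Bdd x), mk x hx ∈ st (Wt t (pk p0 p1 p2 p3 p4)) ↔
      ∀ᶠ i in (U : Filter ℕ), D.D (x i) (p0 i) (Wt a p1 i) (Wt c p3 i) := by
    intro x hx
    rw [mk_mem_st, ht x hx, hfp]
    exact ⟨fun ⟨y, _, hy⟩ => hy, fun h => ⟨fun _ => 0, bdd_const 0, h⟩⟩
  have key' : ∀ (x : ℕ → ℕ) (hx : Bdd x), mk x hx ∈ st (Wt u (pk p0 p1 p2 p3 p4)) ↔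
      ∀ᶠ i in (U : Filter ℕ), ¬ D.D (x i) (p0 i) (Wt a p1 i) (Wt c p3 i) := by
    intro x hx
    rw [mk_mem_st, hu x hx, hfn]
    exact ⟨fun ⟨y, _, hy⟩ => hy, fun h => ⟨fun _ => 0, bdd_const 0, h⟩⟩
  refine ⟨st (Wt t (pk p0 p1 p2 p3 p4)), t, u, pk p0 p1 p2 p3 p4,
    ⟨bdd_pk h0 hX.bp hX.bq hY.bp hY.bq, bdd_pk h0 hX.bp hX.bq hY.bp hY.bq, rfl, ?_⟩, key⟩
  ext m
  rw [← mk_rep m, key', ← ev_not, ← key (rep m) (rep_bdd m)]
  rfl

/-- codes of the parameters -/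
theorem exists_params (k : ℕ) : ∀ (v : ℕ → ℕ → ℕ), (∀ l, Bdd (v l)) → ∃ p, Bdd p ∧
    ∀ l < k, ∀ i, dec (p i) l = v l i := by
  induction k with
  | zero => intro v hv; exact ⟨fun _ => 0, bdd_const 0, fun l hl => by omega⟩
  | succ k ih =>
    intro v hv
    obtain ⟨p, hp, h⟩ := ih (fun l => v (l + 1)) (fun l => hv (l + 1))
    refine ⟨fun i => Nat.pair (v 0 i) (p i), (hv 0).pair hp, fun l hl i => ?_⟩
    cases l with
    | zero => simp
    | succ l => simp [h l (by omega) i]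

/-- one set codes finitely many -/
theorem exists_join (V : ℕ → Set Mo) (hV : ∀ l, V l ∈ SS) (k : ℕ) : ∃ X t u p q, Rep X t u p q ∧
    ∀ l < k, V l = st (fun i => {z | pr z l ∈ Wt t p i}) := by
  induction k with
  | zero =>
    obtain ⟨t, u, p, q, h⟩ := hV 0
    exact ⟨V 0, t, u, p, q, h, fun l hl => by omega⟩
  | succ k ih =>
    obtain ⟨X, t, u, p, q, h, h'⟩ := ih
    obtain ⟨t2, u2, p2, q2, h2⟩ := hV k
    obtain ⟨fp, hfp⟩ := exists_Lf (FIdx.join true)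
    obtain ⟨fn, hfn⟩ := exists_Lf (FIdx.join false)
    obtain ⟨Z, t3, u3, p3, h3, h3'⟩ := dec_lemma joinDF fp fn hfp hfn h h2 (bdd_const k)
    refine ⟨Z, t3, u3, p3, p3, h3, ?_⟩
    intro l hl
    ext m
    rw [← mk_rep m, mk_mem_st]
    have h4 := h3' (fun i => pr (rep m i) l) ((rep_bdd m).pr (bdd_const l))
    rw [h3.pos, mk_mem_st] at h4
    refine Iff.trans ?_ h4.symm
    rcases Nat.lt_succ_iff_lt_or_eq.1 hl with hl' | hl'
    · rw [h' l hl', mk_mem_st]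
      refine eventually_congr (Eventually.of_forall fun i => ?_)
      simp only [joinDF, Set.mem_ofPred_eq]
      constructor
      · intro h5
        refine Or.inl ⟨h5, ?_⟩
        rintro ⟨a, ha⟩
        have := (pr_inj ha).2
        omega
      · rintro (h5 | ⟨a, _, ha, _⟩)
        · exact h5.1
        · have := (pr_inj ha).2
          omega
    · subst hl'
      rw [h2.pos, mk_mem_st]
      refine eventually_congr (Eventually.of_forall fun i => ?_)
      simp only [joinDF]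
      constructor
      · intro h5
        exact Or.inr ⟨rep m i, le_pr_left _ _, rfl, h5⟩
      · rintro (h5 | ⟨a, _, ha, h5⟩)
        · exact absurd ⟨_, rfl⟩ h5.2
        · rwa [(pr_inj ha).1]

/-- `Σ₁` sets are given by internal sets -/
theorem sigma_lemma (φ : Fm) (g : ℕ → ℕ → ℕ → ℕ → ℕ)
    (hg : ∀ x y p i, g x y p i ≤ max x (max y p)) (hgf : ∃ f, Lf f = formLF φ g hg)
    (V : ℕ → Set Mo) (hV : ∀ l, V l ∈ SS) {p0 : ℕ → ℕ} (h0 : Bdd p0) :
    ∃ t q, Bdd q ∧ ∀ x : ℕ → ℕ, Bdd x → ((∀ᶠ i in (U : Filter ℕ), x i ∈ Wt t q i) ↔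
      ∃ y : ℕ → ℕ, Bdd y ∧ ∀ v : ℕ → Mo, (∀ l < φ.bd, ∀ᶠ i in (U : Filter ℕ),
        rep (v l) i = g (x i) (y i) (p0 i) l) → φ.Sat NN v V) := by
  obtain ⟨X, t, u, p, q, hX, hX'⟩ := exists_join V hV φ.bd
  obtain ⟨f, hf⟩ := hgf
  obtain ⟨t', ht'⟩ := comp_lemma f hX hX h0
  refine ⟨t', pk p0 p q p q, bdd_pk h0 hX.bp hX.bq hX.bp hX.bq, fun x hx => ?_⟩
  rw [ht' x hx]
  refine exists_congr fun y => and_congr_right fun hy => ?_
  rw [hf]
  have hb : ∀ l, Bdd (fun i => g (x i) (y i) (p0 i) l) := fun l =>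
    (hx.max (hy.max h0)).mono' fun i => hg _ _ _ _
  have key : ∀ v : ℕ → Mo, (∀ l < φ.bd, ∀ᶠ i in (U : Filter ℕ),
        rep (v l) i = g (x i) (y i) (p0 i) l) → (φ.Sat NN v V ↔
      ∀ᶠ i in (U : Filter ℕ), (formLF φ g hg).F (x i) (y i) (p0 i) (Wt t p i) (Wt t p i)) := by
    intro v hv
    rw [Fm.sat_congr NN φ v (fun l => mk (fun i => g (x i) (y i) (p0 i) l) (hb l)) V
      (fun l => st (fun i => {z | pr z l ∈ Wt t p i})) (fun l hl => eq_mk (hv l hl)) hX']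
    exact Fm.los φ _ (fun l i => g (x i) (y i) (p0 i) l) _
      (fun l i => {z | pr z l ∈ Wt t p i}) (fun l => rep_mk _ _) (fun l => rfl)
  constructor
  · intro h v hv
    rwa [key v hv]
  · intro h
    rw [← key (fun l => mk (fun i => g (x i) (y i) (p0 i) l) (hb l)) (fun l _ => rep_mk _ _)]
    exact h _ (fun l _ => rep_mk _ _)

theorem set2_rep {v : ℕ → Mo} {a b : Mo} {x y p0 : ℕ → ℕ} {k : ℕ}
    (ha : ∀ᶠ i in (U : Filter ℕ), rep a i = x i) (hb : ∀ᶠ i in (U : Filter ℕ), rep b i = y i)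
    (hp : ∀ l < k, ∀ i, dec (p0 i) l = rep (v (l + 2)) i) :
    ∀ l < k, ∀ᶠ i in (U : Filter ℕ), rep (set2 v a b l) i = asg (x i) (y i) (p0 i) l := by
  intro l hl
  match l with
  | 0 => simpa [set2, asg] using ha
  | 1 => simpa [set2, asg] using hb
  | l + 2 =>
    refine Eventually.of_forall fun i => ?_
    simp [set2, asg, hp l (by omega) i]

theorem sigma2 (φ : Fm) (v : ℕ → Mo) (V : ℕ → Set Mo) (hV : ∀ l, V l ∈ SS) :
    ∃ t q, Bdd q ∧ ∀ a : Mo, (∃ b, φ.Sat NN (set2 v a b) V) ↔ a ∈ st (Wt t q) := by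
  obtain ⟨p0, h0, hp0⟩ := exists_params φ.bd (fun l => rep (v (l + 2))) (fun l => rep_bdd _)
  obtain ⟨t, q, hq, h⟩ := sigma_lemma φ asg asg_le (exists_Lf (FIdx.form φ)) V hV h0
  refine ⟨t, q, hq, fun a => ?_⟩
  show _ ↔ ∀ᶠ i in (U : Filter ℕ), rep a i ∈ Wt t q i
  rw [h (rep a) (rep_bdd a)]
  constructor
  · rintro ⟨b, hb⟩
    refine ⟨rep b, rep_bdd b, fun w hw => ?_⟩
    refine (Fm.sat_congr NN φ (set2 v a b) w V V (fun l hl => ?_) (fun _ _ => rfl)).1 hb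
    apply mo_ext
    filter_upwards [set2_rep (Eventually.of_forall fun _ => rfl)
      (Eventually.of_forall fun _ => rfl) hp0 l hl, hw l hl] with i h1 h2
    rw [h1, h2]
  · rintro ⟨y, hy, h1⟩
    exact ⟨mk y hy, h1 _ (set2_rep (Eventually.of_forall fun _ => rfl) (rep_mk y hy) hp0)⟩

theorem set4_rep {v : ℕ → Mo} {a b c d : Mo} {x y p0 : ℕ → ℕ} {k : ℕ}
    (ha : ∀ᶠ i in (U : Filter ℕ), rep a i = dec (x i) 0)
    (hb : ∀ᶠ i in (U : Filter ℕ), rep b i = dec (x i) 1)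
    (hc : ∀ᶠ i in (U : Filter ℕ), rep c i = dec (x i) 2)
    (hd : ∀ᶠ i in (U : Filter ℕ), rep d i = y i)
    (hp : ∀ l < k, ∀ i, dec (p0 i) l = rep (v (l + 4)) i) :
    ∀ l < k, ∀ᶠ i in (U : Filter ℕ), rep (set4 v a b c d l) i = asg4 (x i) (y i) (p0 i) l := by
  intro l hl
  match l with
  | 0 => simpa [set4, set3, set2, asg4] using ha
  | 1 => simpa [set4, set3, set2, asg4] using hb
  | 2 => simpa [set4, set3, set2, asg4] using hc
  | 3 => simpa [set4, set3, set2, asg4] using hd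
  | l + 4 =>
    refine Eventually.of_forall fun i => ?_
    simp [set4, set3, set2, asg4, hp l (by omega) i]

theorem sigma4 (φ : Fm) (v : ℕ → Mo) (V : ℕ → Set Mo) (hV : ∀ l, V l ∈ SS) :
    ∃ t q, Bdd q ∧ ∀ a b c : Mo, (∃ d, φ.Sat NN (set4 v a b c d) V) ↔
      ∀ᶠ i in (U : Filter ℕ), Nat.pair (rep a i) (Nat.pair (rep b i) (Nat.pair (rep c i) 0)) ∈
        Wt t q i := by
  obtain ⟨p0, h0, hp0⟩ := exists_params φ.bd (fun l => rep (v (l + 4))) (fun l => rep_bdd _)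
  obtain ⟨t, q, hq, h⟩ := sigma_lemma φ asg4 asg4_le (exists_Lf (FIdx.form4 φ)) V hV h0
  refine ⟨t, q, hq, fun a b c => ?_⟩
  have hx : Bdd (fun i => Nat.pair (rep a i) (Nat.pair (rep b i) (Nat.pair (rep c i) 0))) :=
    (rep_bdd a).pair ((rep_bdd b).pair ((rep_bdd c).pair (bdd_const 0)))
  rw [h _ hx]
  have e : ∀ (d : Mo) (y : ℕ → ℕ), (∀ᶠ i in (U : Filter ℕ), rep d i = y i) → ∀ l < φ.bd,
      ∀ᶠ i in (U : Filter ℕ), rep (set4 v a b c d l) i =
      asg4 (Nat.pair (rep a i) (Nat.pair (rep b i) (Nat.pair (rep c i) 0))) (y i) (p0 i) l := by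
    intro d y hd
    exact set4_rep
      (x := fun i => Nat.pair (rep a i) (Nat.pair (rep b i) (Nat.pair (rep c i) 0)))
      (Eventually.of_forall fun _ => by simp [dec])
      (Eventually.of_forall fun _ => by simp [dec])
      (Eventually.of_forall fun _ => by simp [dec]) hd hp0
  constructor
  · rintro ⟨d, hd⟩
    refine ⟨rep d, rep_bdd d, fun w hw => ?_⟩
    refine (Fm.sat_congr NN φ (set4 v a b c d) w V V (fun l hl => ?_) (fun _ _ => rfl)).1 hd
    apply mo_ext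
    filter_upwards [e d (rep d) (Eventually.of_forall fun _ => rfl) l hl, hw l hl] with i h1 h2
    rw [h1, h2]
  · rintro ⟨y, hy, h1⟩
    exact ⟨mk y hy, h1 _ (e (mk y hy) y (rep_mk y hy))⟩

end Pool.Agent.Helper25_RM
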