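import Pool.Agent.Helper25_RM.Model

/-!
# The model satisfies `RCA₀` and `BΣ⁰₂`, and `DOM` fails in it
-/

set_option autoImplicit false

namespace Pool.Agent.Helper25_RM

open Filter

theorem rep_zero : ∀ᶠ i in (U : Filter ℕ), rep NN.zero i = 0 := rep_mk _ _
theorem rep_one : ∀ᶠ i in (U : Filter ℕ), rep NN.one i = 1 := rep_mk _ _
theorem rep_add (a b : Mo) : ∀ᶠ i in (U : Filter ℕ), rep (NN.add a b) i = rep a i + rep b i :=
  rep_mk _ _
theorem rep_mul (a b : Mo) : ∀ᶠ i in (U : Filter ℕ), rep (NN.mul a b) i = rep a i * rep b i :=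
  rep_mk _ _

theorem rep_succ (a : Mo) : ∀ᶠ i in (U : Filter ℕ), rep (NN.add a NN.one) i = rep a i + 1 := by
  filter_upwards [rep_add a NN.one, rep_one] with i h1 h2
  rw [h1, h2]

theorem rep_succ_eq {a b : Mo} (h : NN.add a NN.one = b) :
    ∀ᶠ i in (U : Filter ℕ), rep b i = rep a i + 1 := by
  rw [← h]; exact rep_succ a

theorem rep_pair (a b : Mo) : ∀ᶠ i in (U : Filter ℕ), rep (pair NN a b) i = pr (rep a i) (rep b i) := by
  unfold pair
  filter_upwards [rep_add (NN.mul (NN.add a b) (NN.add a b)) a, rep_mul (NN.add a b) (NN.add a b),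
    rep_add a b] with i h1 h2 h3
  rw [h1, h2, h3]
  rfl

theorem eq_of_ev {a b : Mo} (h : ∀ᶠ i in (U : Filter ℕ), rep a i = rep b i) : a = b := mo_ext h

theorem mem_st {a : Mo} {Y : ℕ → Set ℕ} : a ∈ st Y ↔ ∀ᶠ i in (U : Filter ℕ), rep a i ∈ Y i :=
  Iff.rfl

theorem not_mem_st {a : Mo} {Y : ℕ → Set ℕ} : a ∉ st Y ↔ ∀ᶠ i in (U : Filter ℕ), rep a i ∉ Y i :=
  ev_not

theorem lt_iff {a b : Mo} : NN.lt a b ↔ ∀ᶠ i in (U : Filter ℕ), rep a i < rep b i := Iff.rfl

/-- internal induction -/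
theorem int_induction {Y : ℕ → Set ℕ} (h0 : NN.zero ∈ st Y)
    (hs : ∀ a : Mo, a ∈ st Y → NN.add a NN.one ∈ st Y) (a : Mo) : a ∈ st Y := by
  by_contra hc
  rw [not_mem_st] at hc
  have h1 : ∀ᶠ i in (U : Filter ℕ), ∃ x, x < rep a i ∧ x ∈ Y i ∧ x + 1 ∉ Y i := by
    filter_upwards [hc, h0, rep_zero] with i g1 g2 g3
    rw [g3] at g2
    by_contra hc'
    push Not at hc'
    have : ∀ x, x ≤ rep a i → x ∈ Y i := by
      intro x
      induction x with
      | zero => exact fun _ => g2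
      | succ x ih => exact fun hx => hc' x (by omega) (ih (by omega))
    exact g1 (this _ le_rfl)
  obtain ⟨x, hx⟩ := skolem.1 h1
  have hxb : Bdd x := (rep_bdd a).mono (by filter_upwards [hx] with i hi using hi.1.le)
  have h2 : mk x hxb ∈ st Y := by
    rw [mk_mem_st]; filter_upwards [hx] with i hi using hi.2.1
  have h3 := hs _ h2
  apply ev_false
  filter_upwards [h3, hx, rep_succ (mk x hxb), rep_mk x hxb] with i g1 g2 g3 g4
  rw [g3, g4] at g1
  exact g2.2.2 g1

theorem nn_rca0 : IsRCA0 NN where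
  succ_ne_zero n h := by
    apply ev_false
    filter_upwards [rep_succ_eq h, rep_zero] with i h1 h2
    omega
  succ_inj m n h := by
    apply mo_ext
    filter_upwards [rep_succ_eq h, rep_succ n] with i h1 h2
    omega
  add_zero m := by
    apply mo_ext
    filter_upwards [rep_add m NN.zero, rep_zero] with i h1 h2
    omega
  add_succ m n := by
    apply mo_ext
    filter_upwards [rep_add m (NN.add n NN.one), rep_succ n, rep_succ (NN.add m n), rep_add m n]
      with i h1 h2 h3 h4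
    omega
  mul_zero m := by
    apply mo_ext
    filter_upwards [rep_mul m NN.zero, rep_zero] with i h1 h2
    rw [h1, h2, Nat.mul_zero]
  mul_succ m n := by
    apply mo_ext
    filter_upwards [rep_mul m (NN.add n NN.one), rep_succ n, rep_add (NN.mul m n) m, rep_mul m n]
      with i h1 h2 h3 h4
    rw [h1, h2, h3, h4, Nat.mul_succ]
  not_lt_zero m h := by
    apply ev_false
    filter_upwards [lt_iff.1 h, rep_zero] with i h1 h2
    omega
  lt_succ m n := by
    constructor
    · intro h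
      by_cases h' : NN.lt m n
      · exact Or.inl h'
      · refine Or.inr (mo_ext ?_)
        rw [lt_iff, ev_not] at h'
        filter_upwards [lt_iff.1 h, h', rep_succ n] with i h1 h2 h3
        omega
    · rintro (h | h)
      · show ∀ᶠ i in (U : Filter ℕ), _
        filter_upwards [lt_iff.1 h, rep_succ n] with i h1 h2
        omega
      · subst h
        show ∀ᶠ i in (U : Filter ℕ), _
        filter_upwards [rep_succ m] with i h2
        omega
  induction φ v V hV h0 hs a := by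
    obtain ⟨t, q, _, h⟩ := sigma2 φ v V hV
    have h' : ∀ a : Mo, (∃ b, φ.Sat NN (set2 v a b) V) ↔ a ∈ st (Wt t q) := h
    rw [h']
    refine int_induction ((h' _).1 h0) (fun b hb => (h' _).1 (hs b ((h' _).2 hb))) a
  comprehension φ ψ v V hV h := by
    obtain ⟨t, q, hq, h1⟩ := sigma2 φ v V hV
    obtain ⟨u, r, hr, h2⟩ := sigma2 ψ.neg v V hV
    refine ⟨st (Wt t q), ⟨t, u, q, r, hq, hr, rfl, ?_⟩, fun a => (h1 a).symm⟩
    ext a
    rw [← h2 a, Set.mem_compl_iff, ← h1 a, h a]
    simp only [Fm.Sat]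
    push Not
    rfl

theorem saturation (E : ℕ → ℕ → Set ℕ) (hE : ∀ i q, E (q + 1) i ⊆ E q i)
    (hne : ∀ q, ∀ᶠ i in (U : Filter ℕ), (E q i).Nonempty) :
    ∃ x : ℕ → ℕ, ∀ q, ∀ᶠ i in (U : Filter ℕ), x i ∈ E q i := by
  classical
  have hanti : ∀ i q d, E (q + d) i ⊆ E q i := by
    intro i q d
    induction d with
    | zero => exact subset_rfl
    | succ d ih => exact (hE i (q + d)).trans ih
  let m : ℕ → ℕ := fun i => Nat.findGreatest (fun q => (E q i).Nonempty) i
  have hex : ∀ i, ∃ x, (E 0 i).Nonempty → x ∈ E (m i) i := by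
    intro i
    by_cases h : (E 0 i).Nonempty
    · have : (E (m i) i).Nonempty :=
        Nat.findGreatest_spec (P := fun q => (E q i).Nonempty) (Nat.zero_le i) h
      obtain ⟨x, hx⟩ := this
      exact ⟨x, fun _ => hx⟩
    · exact ⟨0, fun h' => absurd h' h⟩
  choose x hx using hex
  refine ⟨x, fun q => ?_⟩
  filter_upwards [hne q, hne 0, ev_ge q] with i h1 h2 h3
  have h4 : q ≤ m i := Nat.le_findGreatest h3 h1
  obtain ⟨d, hd⟩ := Nat.exists_eq_add_of_le h4
  have := hx i h2
  rw [hd] at this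
  exact hanti i q d this

theorem nn_bsigma2 : BSigma2 NN := by
  intro φ v V hV n hn
  obtain ⟨t, q, hq, h⟩ := sigma4 φ.neg v V hV
  by_contra hc
  push Not at hc
  let E : ℕ → ℕ → Set ℕ := fun m i => {x | x < rep n i ∧ ∀ j < CC i m, ∀ u < CC i m,
    Nat.pair x (Nat.pair j (Nat.pair u 0)) ∈ Wt t q i}
  have hE : ∀ i m, E (m + 1) i ⊆ E m i := by
    intro i m x hx
    exact ⟨hx.1, fun j hj u hu => hx.2 j (hj.trans_le (CC_mono (by omega))) u
      (hu.trans_le (CC_mono (by omega)))⟩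
  have hne : ∀ m, ∀ᶠ i in (U : Filter ℕ), (E m i).Nonempty := by
    intro m
    obtain ⟨x, hx, hx'⟩ := hc (mk (fun i => CC i m) (bdd_CC m))
    have key : ∀ᶠ i in (U : Filter ℕ), ∀ z ≤ CC i m, ∀ j < CC i m, z < CC i m →
        Nat.pair (rep x i) (Nat.pair j (Nat.pair z 0)) ∈ Wt t q i := by
      by_contra hc'
      rw [ev_not] at hc'
      have h1 : ∀ᶠ i in (U : Filter ℕ), ∃ z, ∃ j, z < CC i m ∧ j < CC i m ∧
          Nat.pair (rep x i) (Nat.pair j (Nat.pair z 0)) ∉ Wt t q i := by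
        filter_upwards [hc'] with i hi
        push Not at hi
        obtain ⟨z, _, j, hj, hz, h2⟩ := hi
        exact ⟨z, j, hz, hj, h2⟩
      obtain ⟨z, hz⟩ := skolem.1 h1
      obtain ⟨j, hj⟩ := skolem.1 hz
      have hzb : Bdd z := ⟨m, by filter_upwards [hj] with i hi using hi.1.le⟩
      have hjb : Bdd j := ⟨m, by filter_upwards [hj] with i hi using hi.2.1.le⟩
      have h2 := hx' (mk j hjb) (by
        show ∀ᶠ i in (U : Filter ℕ), _
        filter_upwards [hj, rep_mk j hjb, rep_mk (fun i => CC i m) (bdd_CC m)] with i g1 g2 g3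
        rw [g2, g3]; exact g1.2.1) (mk z hzb)
      obtain ⟨w, hw⟩ := h2
      have h3 := (h x (mk j hjb) (mk z hzb)).1 ⟨w, hw⟩
      apply ev_false
      filter_upwards [h3, hj, rep_mk j hjb, rep_mk z hzb] with i g1 g2 g3 g4
      rw [g3, g4] at g1
      exact g2.2.2 g1
    filter_upwards [lt_iff.1 hx, key] with i g1 g2
    exact ⟨rep x i, g1, fun j hj u hu => g2 u hu.le j hj hu⟩
  obtain ⟨x, hx⟩ := saturation E hE hne
  have hxb : Bdd x := (rep_bdd n).mono (by filter_upwards [hx 0] with i hi using hi.1.le)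
  obtain ⟨j, u, hju⟩ := hn (mk x hxb) (by
    show ∀ᶠ i in (U : Filter ℕ), _
    filter_upwards [hx 0, rep_mk x hxb] with i h1 h2
    rw [h2]; exact h1.1)
  obtain ⟨k1, hk1⟩ := rep_bdd j
  obtain ⟨k2, hk2⟩ := rep_bdd u
  have h4 := (h (mk x hxb) j u).2 (by
    filter_upwards [hk1, hk2, hx (k1 + k2 + 1), rep_mk x hxb] with i g1 g2 g3 g4
    rw [g4]
    exact g3.2 _ (g1.trans_lt ((good i).mono (by omega))) _ (g2.trans_lt ((good i).mono (by omega))))
  obtain ⟨w, hw⟩ := h4
  exact hw (hju w)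

/-- the oracle of the model -/
theorem rep_BB : ∃ t u, Rep (st BB) t u (fun _ => 0) (fun _ => 0) ∧
    ∀ p i, Wt t p i = BB i := by
  obtain ⟨t, ht⟩ := exists_PP Code.pb
  obtain ⟨u, hu⟩ := exists_PP Code.qb
  have h1 : ∀ p i, Wt t p i = BB i := by
    intro p i
    ext x
    simp only [Wt, Set.mem_ofPred_eq, ht, den, tr]
    exact ⟨fun ⟨s, h, _⟩ => h, fun h => ⟨x + 1, h, Nat.lt_succ_self x⟩⟩
  have h2 : ∀ p i, Wt u p i = (BB i)ᶜ := by
    intro p i
    ext x
    simp only [Wt, Set.mem_ofPred_eq, hu, den, tr, Set.mem_compl_iff]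
    constructor
    · rintro ⟨s, h, h'⟩ h''
      exact h' ⟨h'', h⟩
    · intro h
      exact ⟨x + 1, Nat.lt_succ_self x, fun h' => h h'.1⟩
  refine ⟨t, u, ⟨bdd_const 0, bdd_const 0, ?_, ?_⟩, h1⟩
  · have : Wt t (fun _ => 0) = BB := funext fun i => h1 _ i
    rw [this]
  · have : Wt u (fun _ => 0) = fun i => (BB i)ᶜ := funext fun i => h2 _ i
    rw [this]
    ext a
    exact not_mem_st

/-- pairing term -/
def prT (s t : Tm) : Tm := Tm.add (Tm.mul (Tm.add s t) (Tm.add s t)) s

/-- location term -/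
def locT : Tm := Tm.add (Tm.mul (Tm.add Tm.one Tm.one)
  (prT (Tm.var 3) (prT (prT (Tm.var 0) (Tm.var 1)) (prT (Tm.var 4) (Tm.var 2))))) Tm.one

theorem nn_not_dom : ¬ DOM NN := by
  intro hD
  obtain ⟨t0, u0, h0, h0'⟩ := rep_BB
  obtain ⟨f, ⟨Xf, hXf, hf⟩, hdom⟩ := hD (st BB) ⟨t0, u0, _, _, h0⟩
  obtain ⟨tf, uf, pf, qf, hrf⟩ := hXf
  obtain ⟨fp, hfp⟩ := exists_Lf (FIdx.succ true)
  obtain ⟨fn, hfn⟩ := exists_Lf (FIdx.succ false)
  obtain ⟨Z, t, u, q, hZ, hZ'⟩ := dec_lemma succDF fp fn hfp hfn hrf hrf (bdd_const 0)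
  have hpZ : ∀ a b : Mo, pair NN a b ∈ Z ↔ ∀ᶠ i in (U : Filter ℕ),
      succDF.D (pr (rep a i) (rep b i)) 0 (Wt tf pf i) (Wt tf pf i) := by
    intro a b
    have : pair NN a b = mk (fun i => pr (rep a i) (rep b i)) ((rep_bdd a).pr (rep_bdd b)) :=
      eq_mk (rep_pair a b)
    rw [this, hZ']
  have hpf : ∀ a b : Mo, pair NN a b ∈ Xf ↔ ∀ᶠ i in (U : Filter ℕ),
      pr (rep a i) (rep b i) ∈ Wt tf pf i := by
    intro a b
    have : pair NN a b = mk (fun i => pr (rep a i) (rep b i)) ((rep_bdd a).pr (rep_bdd b)) :=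
      eq_mk (rep_pair a b)
    rw [this, hrf.pos, mk_mem_st]
  have hg : ∀ a b : Mo, NN.add (f a) NN.one = b ↔ pair NN a b ∈ Z := by
    intro a b
    rw [hpZ]
    constructor
    · intro h
      have h1 := (hf a (f a)).2 rfl
      rw [hpf] at h1
      filter_upwards [h1, rep_succ_eq h] with i g1 g2
      exact ⟨rep a i, rep (f a) i, by rw [g2], g1⟩
    · intro h
      have hbb : Bdd (fun i => rep b i - 1) := (rep_bdd b).mono' fun i => Nat.sub_le _ _
      have h1 : pair NN a (mk (fun i => rep b i - 1) hbb) ∈ Xf := by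
        rw [hpf]
        filter_upwards [h, rep_mk _ hbb] with i g1 g2
        obtain ⟨a', b', g3, g4⟩ := g1
        obtain ⟨rfl, g5⟩ := pr_inj g3
        rw [g2, g5]
        exact g4
      have h2 := (hf _ _).1 h1
      apply mo_ext
      rw [h2]
      filter_upwards [h, rep_mk _ hbb, rep_succ (mk (fun i => rep b i - 1) hbb)] with i g1 g2 g3
      obtain ⟨a', b', g4, g5⟩ := g1
      have := (pr_inj g4).2
      rw [g3, g2]
      omega
  have hcomp : ComputableIn NN (st BB) (fun a => NN.add (f a) NN.one) := by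
    refine ⟨Fm.mem locT 0, fun l => if l = 3 then mk (fun _ => t) (bdd_const t)
      else mk q hZ.bp, ?_⟩
    intro a b
    have hlos : ∀ c : Mo, (Fm.mem locT 0).Sat NN (set3 (fun l => if l = 3 then
        mk (fun _ => t) (bdd_const t) else mk q hZ.bp) a b c) (fun _ => st BB) ↔
        ∀ᶠ i in (U : Filter ℕ), PP t (pr (rep a i) (rep b i)) (q i) (rep c i)
          (tr (BB i) (rep c i)) := by
      intro c
      rw [Fm.los (Fm.mem locT 0) _ (fun l => match l with
        | 0 => rep a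
        | 1 => rep b
        | 2 => rep c
        | 3 => fun _ => t
        | _ => q) _ (fun _ => BB) _ (fun _ => rfl)]
      · refine eventually_congr (Eventually.of_forall fun i => ?_)
        rw [← (good i).code]
        have : loc t (pr (rep a i) (rep b i)) (q i) (rep c i) =
            (1 + 1) * pr t (pr (pr (rep a i) (rep b i)) (pr (q i) (rep c i))) + 1 := by
          unfold loc; ring
        rw [this]
        exact Iff.rfl
      · intro l
        match l with
        | 0 => simp [set3, set2]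
        | 1 => simp [set3, set2]
        | 2 => simp [set3, set2]
        | 3 => simpa [set3, set2] using rep_mk (fun _ => t) (bdd_const t)
        | l + 4 => simpa [set3, set2] using rep_mk q hZ.bp
    refine (hg a b).trans ?_
    have hpZ2 : pair NN a b ∈ Z ↔ pair NN a b ∈ st (Wt t q) := Set.ext_iff.1 hZ.pos _
    rw [hpZ2]
    have hpr : pair NN a b = mk (fun i => pr (rep a i) (rep b i)) ((rep_bdd a).pr (rep_bdd b)) :=
      eq_mk (rep_pair a b)
    rw [hpr, mk_mem_st]
    constructor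
    · intro h
      obtain ⟨j1, hj1⟩ := (rep_bdd a).pr (rep_bdd b)
      obtain ⟨j0, hj0⟩ := elem_ev t q hZ.bp
      have h1 : ∀ᶠ i in (U : Filter ℕ), ∃ s, s ≤ CC i (max j0 j1 + 1) ∧
          PP t (pr (rep a i) (rep b i)) (q i) s (tr (BB i) s) := by
        filter_upwards [h, hj1, hj0 (max j0 j1) (le_max_left _ _)] with i g1 g2 g3
        exact g3 _ (g2.trans (CC_mono (le_max_right _ _))) g1
      obtain ⟨s, hs⟩ := skolem.1 h1
      have hsb : Bdd s := ⟨max j0 j1 + 1, by filter_upwards [hs] with i hi using hi.1⟩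
      refine ⟨mk s hsb, (hlos _).2 ?_⟩
      filter_upwards [hs, rep_mk s hsb] with i g1 g2
      rw [g2]; exact g1.2
    · rintro ⟨c, hc⟩
      have := (hlos c).1 hc
      filter_upwards [this] with i hi
      exact ⟨_, hi⟩
  obtain ⟨n0, hn0⟩ := hdom _ hcomp
  have h1 := hn0 (NN.add n0 NN.one) (by
    show ∀ᶠ i in (U : Filter ℕ), _
    filter_upwards [rep_succ n0] with i hi
    omega)
  apply ev_false
  rcases h1 with h1 | h1
  · filter_upwards [lt_iff.1 h1, rep_succ (f (NN.add n0 NN.one))] with i g1 g2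
    omega
  · filter_upwards [rep_succ_eq h1] with i g2
    omega

end Pool.Agent.Helper25_RM
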